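import Mathlib

/-!
# Commuting isometries of finite order: the gap above the common fixed vectors

* `wirtinger`: the discrete Wirtinger inequality on `ℤ/m`.
* `one_gap`, `two_gap`: if `S`, `T` are commuting isometries of a Euclidean space, of order dividing
  `m`, without common fixed vectors then `4 sin²(π/m) ‖v‖² ≤ ‖v - S v‖² + ‖v - T v‖²`.
* `one_form`: the corresponding identity for one-forms.
-/

set_option autoImplicit false

open Finset

namespace Pool.Agent.N838.Spec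

/-! ### the scalar inequality -/

theorem conj_std {m : ℕ} [NeZero m] (a : ZMod m) :
    (starRingEnd ℂ) (ZMod.stdAddChar a) = ZMod.stdAddChar (-a) := by
  rw [ZMod.stdAddChar_apply, ZMod.stdAddChar_apply, AddChar.map_neg_eq_inv, Circle.coe_inv_eq_conj]

/-- Parseval on `ℤ/m`. -/
theorem parseval (m : ℕ) [NeZero m] (f : ZMod m → ℂ) :
    ∑ k : ZMod m, ‖∑ j : ZMod m, ZMod.stdAddChar (-(j * k)) * f j‖ ^ 2 =
      m * ∑ j : ZMod m, ‖f j‖ ^ 2 := by
  have h1 : ∀ w : ℂ, ((‖w‖ ^ 2 : ℝ) : ℂ) = w * (starRingEnd ℂ) w := by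
    intro w
    rw [Complex.mul_conj, Complex.normSq_eq_norm_sq]
  have h2 : ((∑ k : ZMod m, ‖∑ j : ZMod m, ZMod.stdAddChar (-(j * k)) * f j‖ ^ 2 : ℝ) : ℂ) =
      ((m * ∑ j : ZMod m, ‖f j‖ ^ 2 : ℝ) : ℂ) := by
    rw [Complex.ofReal_sum]
    simp only [h1]
    have h3 : ∀ k : ZMod m, (∑ j : ZMod m, ZMod.stdAddChar (-(j * k)) * f j) *
        (starRingEnd ℂ) (∑ j : ZMod m, ZMod.stdAddChar (-(j * k)) * f j) =
        ∑ j : ZMod m, ∑ i : ZMod m, f j * (starRingEnd ℂ) (f i) *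
          ZMod.stdAddChar (k * (i - j)) := by
      intro k
      rw [map_sum, Finset.sum_mul_sum]
      refine Finset.sum_congr rfl fun j _ => Finset.sum_congr rfl fun i _ => ?_
      rw [map_mul, conj_std, neg_neg]
      have e : ZMod.stdAddChar (k * (i - j)) =
          ZMod.stdAddChar (-(j * k)) * (ZMod.stdAddChar (i * k) : ℂ) := by
        rw [← AddChar.map_add_eq_mul]
        congr 1
        ring
      rw [e]
      ring
    simp only [h3]
    rw [Finset.sum_comm]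
    have h4 : ∀ j : ZMod m, ∑ k : ZMod m, ∑ i : ZMod m, f j * (starRingEnd ℂ) (f i) *
        ZMod.stdAddChar (k * (i - j)) = m * (f j * (starRingEnd ℂ) (f j)) := by
      intro j
      rw [Finset.sum_comm]
      simp only [← Finset.mul_sum]
      have h5 : ∀ i : ZMod m, ∑ k : ZMod m, (ZMod.stdAddChar (k * (i - j)) : ℂ) =
          if i = j then (m : ℂ) else 0 := by
        intro i
        rw [AddChar.sum_mulShift (i - j) (ZMod.isPrimitive_stdAddChar m), ZMod.card]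
        by_cases h : i = j
        · rw [if_pos h, if_pos (sub_eq_zero.2 h)]
        · rw [if_neg h, if_neg (sub_ne_zero.2 h)]
          simp
      simp only [h5, mul_ite, mul_zero, Finset.sum_ite_eq', Finset.mem_univ, if_true]
      ring
    simp only [h4]
    rw [← Finset.mul_sum]
    push_cast
    congr 1
    refine Finset.sum_congr rfl fun j _ => ?_
    rw [← h1]
    push_cast
    rfl
  exact_mod_cast h2

theorem norm_std_sub_one {m : ℕ} [NeZero m] (k : ZMod m) :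
    ‖(ZMod.stdAddChar k : ℂ) - 1‖ ^ 2 = 4 * Real.sin (Real.pi * k.val / m) ^ 2 := by
  have hm : (m : ℝ) ≠ 0 := by exact_mod_cast NeZero.ne m
  have e1 : (ZMod.stdAddChar k : ℂ) = Complex.exp (((2 * (Real.pi * k.val / m) : ℝ) : ℂ) * Complex.I) := by
    have h := ZMod.stdAddChar_coe (N := m) (k.val : ℤ)
    have h2 : (((k.val : ℤ) : ZMod m)) = k := by
      rw [Int.cast_natCast, ZMod.natCast_zmod_val]
    rw [h2] at h
    rw [h]
    congr 1
    push_cast
    ring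
  rw [e1, Complex.exp_mul_I, ← Complex.ofReal_cos, ← Complex.ofReal_sin]
  obtain ⟨θ, hθ⟩ : ∃ θ : ℝ, θ = Real.pi * k.val / m := ⟨_, rfl⟩
  rw [← hθ, ← Complex.normSq_eq_norm_sq, Complex.normSq_apply]
  simp only [Complex.sub_re, Complex.add_re, Complex.ofReal_re, Complex.mul_re, Complex.I_re,
    mul_zero, Complex.ofReal_im, Complex.I_im, mul_one, sub_self, add_zero, Complex.one_re,
    Complex.sub_im, Complex.add_im, Complex.mul_im, zero_add, Complex.one_im, sub_zero]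
  rw [Real.cos_two_mul, Real.sin_two_mul]
  have h := Real.sin_sq_add_cos_sq θ
  have h1 : Real.cos θ ^ 2 = 1 - Real.sin θ ^ 2 := by linarith
  calc (2 * Real.cos θ ^ 2 - 1 - 1) * (2 * Real.cos θ ^ 2 - 1 - 1) +
        2 * Real.sin θ * Real.cos θ * (2 * Real.sin θ * Real.cos θ)
      = (2 * Real.cos θ ^ 2 - 2) ^ 2 + 4 * Real.sin θ ^ 2 * Real.cos θ ^ 2 := by ring
    _ = 4 * Real.sin θ ^ 2 := by rw [h1]; ring

theorem sin_ge {m : ℕ} [NeZero m] {k : ZMod m} (hk : k ≠ 0) :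
    Real.sin (Real.pi / m) ^ 2 ≤ Real.sin (Real.pi * k.val / m) ^ 2 := by
  have hm : (0 : ℝ) < m := by exact_mod_cast Nat.pos_of_ne_zero (NeZero.ne m)
  have hk1 : 1 ≤ k.val := Nat.one_le_iff_ne_zero.2 fun h => hk ((ZMod.val_eq_zero k).1 h)
  have hk2 : k.val + 1 ≤ m := ZMod.val_lt k
  have hkr1 : (1 : ℝ) ≤ k.val := by exact_mod_cast hk1
  have hkr2 : (k.val : ℝ) + 1 ≤ m := by exact_mod_cast hk2
  have hpi := Real.pi_pos
  have key : ∀ j : ℝ, 1 ≤ j → 2 * j ≤ m → Real.sin (Real.pi / m) ≤ Real.sin (Real.pi * j / m) := by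
    intro j hj1 hj2
    apply Real.sin_le_sin_of_le_of_le_pi_div_two
    · have : 0 < Real.pi / m := by positivity
      linarith
    · rw [div_le_div_iff₀ hm two_pos]
      nlinarith
    · rw [div_le_div_iff_of_pos_right hm]
      nlinarith
  have h0 : 0 ≤ Real.sin (Real.pi / m) := by
    apply Real.sin_nonneg_of_nonneg_of_le_pi
    · positivity
    · rw [div_le_iff₀ hm]
      nlinarith
  refine pow_le_pow_left₀ h0 ?_ 2
  rcases le_total (2 * (k.val : ℝ)) m with h | h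
  · exact key _ hkr1 h
  · have h2 := key (m - k.val) (by linarith) (by linarith)
    have h3 : Real.pi * (m - k.val) / m = Real.pi - Real.pi * k.val / m := by
      field_simp
    rw [h3, Real.sin_pi_sub] at h2
    exact h2

/-- **The discrete Wirtinger inequality** on `ℤ/m`. -/
theorem wirtinger (m : ℕ) [NeZero m] (f : ZMod m → ℂ) (h0 : ∑ j, f j = 0) :
    4 * Real.sin (Real.pi / m) ^ 2 * ∑ j : ZMod m, ‖f j‖ ^ 2 ≤
      ∑ j : ZMod m, ‖f (j + 1) - f j‖ ^ 2 := by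
  have hm : (0 : ℝ) < m := by exact_mod_cast Nat.pos_of_ne_zero (NeZero.ne m)
  obtain ⟨F, hF⟩ : ∃ F : ZMod m → ℂ, F = fun k => ∑ j : ZMod m, ZMod.stdAddChar (-(j * k)) * f j :=
    ⟨_, rfl⟩
  have h1 := parseval m f
  have h2 := parseval m fun j => f (j + 1) - f j
  have h3 : ∀ k : ZMod m, ∑ j : ZMod m, ZMod.stdAddChar (-(j * k)) * (f (j + 1) - f j) =
      ((ZMod.stdAddChar k : ℂ) - 1) * F k := by
    intro k
    simp only [mul_sub, Finset.sum_sub_distrib]
    have e1 : ∑ j : ZMod m, (ZMod.stdAddChar (-(j * k)) : ℂ) * f (j + 1) =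
        (ZMod.stdAddChar k : ℂ) * F k := by
      rw [hF]
      simp only
      rw [Finset.mul_sum, ← Equiv.sum_comp (Equiv.addRight (1 : ZMod m))
        (fun j => (ZMod.stdAddChar k : ℂ) * (ZMod.stdAddChar (-(j * k)) * f j))]
      refine Finset.sum_congr rfl fun j _ => ?_
      rw [Equiv.coe_addRight, ← mul_assoc, ← AddChar.map_add_eq_mul]
      congr 3
      ring
    rw [e1, hF]
    ring
  simp only [h3, norm_mul, mul_pow] at h2
  rw [show (∑ k : ZMod m, ‖∑ j : ZMod m, ZMod.stdAddChar (-(j * k)) * f j‖ ^ 2) =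
    ∑ k : ZMod m, ‖F k‖ ^ 2 by rw [hF]] at h1
  have hF0 : F 0 = 0 := by
    rw [hF]
    simp only [mul_zero, neg_zero, AddChar.map_zero_eq_one, one_mul]
    exact h0
  have h4 : 4 * Real.sin (Real.pi / m) ^ 2 * ∑ k : ZMod m, ‖F k‖ ^ 2 ≤
      ∑ k : ZMod m, ‖(ZMod.stdAddChar k : ℂ) - 1‖ ^ 2 * ‖F k‖ ^ 2 := by
    rw [Finset.mul_sum]
    refine Finset.sum_le_sum fun k _ => ?_
    by_cases hk : k = 0
    · rw [hk, hF0]
      simp
    · rw [norm_std_sub_one]
      refine mul_le_mul_of_nonneg_right ?_ (sq_nonneg _)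
      have := sin_ge hk
      linarith
  rw [h1, h2] at h4
  have h5 : (m : ℝ) * (4 * Real.sin (Real.pi / m) ^ 2 * ∑ j : ZMod m, ‖f j‖ ^ 2) ≤
      m * ∑ j : ZMod m, ‖f (j + 1) - f j‖ ^ 2 := by
    calc _ = 4 * Real.sin (Real.pi / m) ^ 2 * (m * ∑ j : ZMod m, ‖f j‖ ^ 2) := by ring
      _ ≤ _ := h4
  exact le_of_mul_le_mul_left h5 hm

/-! ### isometries of finite order -/

section isom

variable {H : Type*} [NormedAddCommGroup H] [InnerProductSpace ℝ H]

theorem pow_norm {S : H →ₗ[ℝ] H} (hS : ∀ v, ‖S v‖ = ‖v‖) (k : ℕ) (v : H) : ‖(S ^ k) v‖ = ‖v‖ := by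
  induction k with
  | zero => simp
  | succ k ih => rw [pow_succ', Module.End.mul_apply, hS, ih]

theorem inner_isom {S : H →ₗ[ℝ] H} (hS : ∀ v, ‖S v‖ = ‖v‖) (u v : H) :
    inner ℝ (S u) (S v) = inner ℝ u v := by
  have h1 := real_inner_eq_norm_add_mul_self_sub_norm_mul_self_sub_norm_mul_self_div_two (S u) (S v)
  have h2 := real_inner_eq_norm_add_mul_self_sub_norm_mul_self_sub_norm_mul_self_div_two u v
  rw [h1, h2, ← map_add, hS, hS, hS]

theorem inner_pow {S : H →ₗ[ℝ] H} (hS : ∀ v, ‖S v‖ = ‖v‖) (k : ℕ) (u v : H) :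
    inner ℝ ((S ^ k) u) ((S ^ k) v) = inner ℝ u v :=
  inner_isom (pow_norm hS k) u v

/-- the sum over the orbit -/
noncomputable def orb (S : H →ₗ[ℝ] H) (m : ℕ) (v : H) : H := ∑ k ∈ range m, (S ^ k) v

theorem orb_fix {S : H →ₗ[ℝ] H} {m : ℕ} (hm : ∀ v, (S ^ m) v = v) (v : H) :
    S (orb S m v) = orb S m v := by
  unfold orb
  have h1 : S (∑ k ∈ range m, (S ^ k) v) = ∑ k ∈ range m, (S ^ (k + 1)) v := by
    rw [map_sum]
    refine Finset.sum_congr rfl fun k _ => ?_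
    rw [pow_succ', Module.End.mul_apply]
  rw [h1]
  have h2 := Finset.sum_range_succ' (fun k => (S ^ k) v) m
  have h3 := Finset.sum_range_succ (fun k => (S ^ k) v) m
  rw [h3, hm, pow_zero, Module.End.one_apply] at h2
  exact (add_right_cancel h2).symm

theorem orb_sub (S : H →ₗ[ℝ] H) (m : ℕ) (u v : H) : orb S m (u - v) = orb S m u - orb S m v := by
  unfold orb
  rw [← Finset.sum_sub_distrib]
  exact Finset.sum_congr rfl fun k _ => map_sub _ _ _

theorem orb_smul (S : H →ₗ[ℝ] H) (m : ℕ) (c : ℝ) (v : H) : orb S m (c • v) = c • orb S m v := by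
  unfold orb
  rw [Finset.smul_sum]
  exact Finset.sum_congr rfl fun k _ => map_smul _ _ _

theorem orb_of_fix {S : H →ₗ[ℝ] H} {v : H} (h : S v = v) (m : ℕ) : orb S m v = (m : ℝ) • v := by
  unfold orb
  have h1 : ∀ k : ℕ, (S ^ k) v = v := by
    intro k
    induction k with
    | zero => simp
    | succ k ih => rw [pow_succ', Module.End.mul_apply, ih, h]
  simp only [h1, Finset.sum_const, Finset.card_range]
  exact (Nat.cast_smul_eq_nsmul ℝ m v).symm

theorem orb_comm {S T : H →ₗ[ℝ] H} (hST : ∀ v, S (T v) = T (S v)) (m : ℕ) (v : H) :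
    orb S m (T v) = T (orb S m v) := by
  have h1 : ∀ (k : ℕ) (v : H), (S ^ k) (T v) = T ((S ^ k) v) := by
    intro k v
    induction k with
    | zero => simp
    | succ k ih => rw [pow_succ', Module.End.mul_apply, ih, hST, Module.End.mul_apply]
  unfold orb
  rw [map_sum]
  exact Finset.sum_congr rfl fun k _ => h1 k v

/-- vectors fixed by `S` are orthogonal to vectors with vanishing orbit sum -/
theorem orb_orth {S : H →ₗ[ℝ] H} (hS : ∀ v, ‖S v‖ = ‖v‖) {m : ℕ} (hm : 0 < m) {u w : H}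
    (hu : S u = u) (hw : orb S m w = 0) : inner ℝ u w = 0 := by
  have h1 : ∀ k : ℕ, (S ^ k) u = u := by
    intro k
    induction k with
    | zero => simp
    | succ k ih => rw [pow_succ', Module.End.mul_apply, ih, hu]
  have h2 : ∀ k : ℕ, inner ℝ u ((S ^ k) w) = inner ℝ u w := by
    intro k
    have := inner_pow hS k u w
    rwa [h1] at this
  have h3 : inner ℝ u (orb S m w) = m * inner ℝ u w := by
    unfold orb
    rw [inner_sum]
    simp only [h2, Finset.sum_const, Finset.card_range, nsmul_eq_mul]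
  rw [hw, inner_zero_right] at h3
  have hm' : (m : ℝ) ≠ 0 := by exact_mod_cast hm.ne'
  exact (mul_eq_zero.1 h3.symm).resolve_left hm'

variable [FiniteDimensional ℝ H]

/-- **The gap of one isometry** above its fixed vectors. -/
theorem one_gap {S : H →ₗ[ℝ] H} (hS : ∀ v, ‖S v‖ = ‖v‖) {m : ℕ} (hm : 0 < m)
    (hSm : ∀ v, (S ^ m) v = v) {v : H} (hv : orb S m v = 0) :
    4 * Real.sin (Real.pi / m) ^ 2 * ‖v‖ ^ 2 ≤ ‖v - S v‖ ^ 2 := by
  have : NeZero m := ⟨hm.ne'⟩
  have hm' : (0 : ℝ) < m := by exact_mod_cast hm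
  let b := stdOrthonormalBasis ℝ H
  have hb : ∀ w : H, ∑ i, ‖((inner ℝ (b i) w : ℝ) : ℂ)‖ ^ 2 = ‖w‖ ^ 2 := by
    intro w
    have := b.sum_sq_norm_inner_right w
    rw [← this]
    refine Finset.sum_congr rfl fun i _ => ?_
    rw [Complex.norm_real]
  have hper : ∀ j : ZMod m, (S ^ (j + 1).val) v = (S ^ (j.val + 1)) v := by
    intro j
    have h1 : (j + 1).val = (j.val + 1) % m := by
      have h2 : (j + 1 : ZMod m) = ((j.val + 1 : ℕ) : ZMod m) := by
        rw [Nat.cast_add, ZMod.natCast_zmod_val, Nat.cast_one]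
      rw [h2, ZMod.val_natCast]
    have h3 : ∀ n : ℕ, (S ^ (n % m)) v = (S ^ n) v := by
      intro n
      conv_rhs => rw [← Nat.mod_add_div n m]
      rw [pow_add, Module.End.mul_apply, pow_mul]
      congr 1
      have h4 : ∀ q : ℕ, ((S ^ m) ^ q) v = v := by
        intro q
        induction q with
        | zero => simp
        | succ q ih => rw [pow_succ', Module.End.mul_apply, ih, hSm]
      rw [h4]
    rw [h1, h3]
  have hsum : ∑ j : ZMod m, (S ^ j.val) v = 0 := by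
    rw [← hv]
    unfold orb
    refine Finset.sum_bij (fun (j : ZMod m) _ => j.val) (fun j _ => Finset.mem_range.2 (ZMod.val_lt j))
      (fun i _ j _ h => ZMod.val_injective m h) ?_ (fun _ _ => rfl)
    intro k hk
    exact ⟨(k : ZMod m), Finset.mem_univ _, ZMod.val_natCast_of_lt (Finset.mem_range.1 hk)⟩
  have hw : ∀ i, 4 * Real.sin (Real.pi / m) ^ 2 *
      ∑ j : ZMod m, ‖((inner ℝ (b i) ((S ^ j.val) v) : ℝ) : ℂ)‖ ^ 2 ≤
      ∑ j : ZMod m, ‖((inner ℝ (b i) ((S ^ j.val) (S v - v)) : ℝ) : ℂ)‖ ^ 2 := by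
    intro i
    have h1 := wirtinger m (fun j => ((inner ℝ (b i) ((S ^ j.val) v) : ℝ) : ℂ)) (by
      rw [← Complex.ofReal_sum, ← inner_sum, hsum, inner_zero_right, Complex.ofReal_zero])
    refine h1.trans (le_of_eq ?_)
    refine Finset.sum_congr rfl fun j _ => ?_
    rw [hper, ← Complex.ofReal_sub, ← inner_sub_right, pow_succ S, Module.End.mul_apply, map_sub]
  have hw2 := Finset.sum_le_sum fun i (_ : i ∈ Finset.univ) => hw i
  rw [← Finset.mul_sum, Finset.sum_comm] at hw2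
  have e1 : ∀ w : H, ∑ j : ZMod m, ∑ i, ‖((inner ℝ (b i) ((S ^ j.val) w) : ℝ) : ℂ)‖ ^ 2 =
      m * ‖w‖ ^ 2 := by
    intro w
    simp only [hb, pow_norm hS]
    rw [Finset.sum_const, Finset.card_univ, ZMod.card, nsmul_eq_mul]
  rw [e1] at hw2
  have e2 : (∑ i, ∑ j : ZMod m, ‖((inner ℝ (b i) ((S ^ j.val) (S v - v)) : ℝ) : ℂ)‖ ^ 2) =
      m * ‖S v - v‖ ^ 2 := by rw [Finset.sum_comm, e1]
  rw [e2, norm_sub_rev] at hw2
  have h5 : (m : ℝ) * (4 * Real.sin (Real.pi / m) ^ 2 * ‖v‖ ^ 2) ≤ m * ‖v - S v‖ ^ 2 := by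
    calc _ = 4 * Real.sin (Real.pi / m) ^ 2 * (m * ‖v‖ ^ 2) := by ring
      _ ≤ _ := hw2
  exact le_of_mul_le_mul_left h5 hm'

/-- **The gap of two commuting isometries** without common fixed vectors. -/
theorem two_gap {S T : H →ₗ[ℝ] H} (hS : ∀ v, ‖S v‖ = ‖v‖) (hT : ∀ v, ‖T v‖ = ‖v‖)
    (hST : ∀ v, S (T v) = T (S v)) {m : ℕ} (hm : 0 < m) (hSm : ∀ v, (S ^ m) v = v)
    (hTm : ∀ v, (T ^ m) v = v) (hfix : ∀ v, S v = v → T v = v → v = 0) (v : H) :
    4 * Real.sin (Real.pi / m) ^ 2 * ‖v‖ ^ 2 ≤ ‖v - S v‖ ^ 2 + ‖v - T v‖ ^ 2 := by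
  have hm' : (m : ℝ) ≠ 0 := by exact_mod_cast hm.ne'
  obtain ⟨u, hu⟩ : ∃ u, u = (m : ℝ)⁻¹ • orb S m v := ⟨_, rfl⟩
  obtain ⟨w, hw⟩ : ∃ w, w = v - u := ⟨_, rfl⟩
  have hSu : S u = u := by rw [hu, map_smul, orb_fix hSm]
  have hvw : v = u + w := by rw [hw]; abel
  have how : orb S m w = 0 := by
    rw [hw, orb_sub, orb_of_fix hSu, hu, smul_smul, mul_inv_cancel₀ hm', one_smul, sub_self]
  have hTu : S (u - T u) = u - T u := by rw [map_sub, hST, hSu]
  have howT : orb S m (w - T w) = 0 := by rw [orb_sub, orb_comm hST, how, map_zero, sub_self]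
  have h1 := orb_orth hS hm hSu how
  have h2 := orb_orth hS hm hTu howT
  have h3 : ‖v‖ ^ 2 = ‖u‖ ^ 2 + ‖w‖ ^ 2 := by
    rw [hvw, norm_add_sq_real, h1]; ring
  have h4 : ‖v - T v‖ ^ 2 = ‖u - T u‖ ^ 2 + ‖w - T w‖ ^ 2 := by
    have e : v - T v = (u - T u) + (w - T w) := by rw [hvw, map_add]; abel
    rw [e, norm_add_sq_real, h2]; ring
  have h5 : v - S v = w - S w := by
    rw [hvw, map_add, hSu]; abel
  have h6 := one_gap hS hm hSm how
  have h7 : orb T m u = 0 := by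
    refine hfix _ ?_ (orb_fix hTm u)
    rw [← orb_comm (S := T) (T := S) (fun v => (hST v).symm), hSu]
  have h8 := one_gap hT hm hTm h7
  rw [h3, h4, h5]
  nlinarith [sq_nonneg ‖w - T w‖]

omit [FiniteDimensional ℝ H] in
/-- **One-forms.** For commuting isometries with inverses `S'`, `T'`. -/
theorem one_form {S T S' T' : H →ₗ[ℝ] H} (hS : ∀ v, ‖S v‖ = ‖v‖) (hT : ∀ v, ‖T v‖ = ‖v‖)
    (hST : ∀ v, S (T v) = T (S v)) (hS1 : ∀ v, S (S' v) = v)
    (hT1 : ∀ v, T (T' v) = v) (hT2 : ∀ v, T' (T v) = v) (a b : H) :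
    ‖(a - T a) - (b - S b)‖ ^ 2 + ‖(a - S' a) + (b - T' b)‖ ^ 2 =
      ‖a - S a‖ ^ 2 + ‖a - T a‖ ^ 2 + ‖b - S b‖ ^ 2 + ‖b - T b‖ ^ 2 := by
  have hadjS : ∀ u v, inner ℝ (S u) v = inner ℝ u (S' v) := by
    intro u v
    have := inner_isom hS u (S' v)
    rwa [hS1] at this
  have hadjT : ∀ u v, inner ℝ (T u) v = inner ℝ u (T' v) := by
    intro u v
    have := inner_isom hT u (T' v)
    rwa [hT1] at this
  have hadjS' : ∀ u v, inner ℝ (S' u) v = inner ℝ u (S v) := by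
    intro u v
    rw [real_inner_comm, ← hadjS, real_inner_comm]
  have hcomm : ∀ v, T' (S v) = S (T' v) := by
    intro v
    have h1 : T (S (T' v)) = S v := by rw [← hST, hT1]
    rw [← h1, hT2]
  have hcross : inner ℝ (a - T a) (b - S b) = inner ℝ (a - S' a) (b - T' b) := by
    simp only [inner_sub_left, inner_sub_right]
    rw [hadjT a (S b), hcomm, ← hadjS' a (T' b), hadjT a b, hadjS' a b]
    ring
  have hnS : ‖a - S' a‖ = ‖a - S a‖ := by
    rw [← hS (a - S' a), map_sub, hS1, norm_sub_rev]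
  have hnT : ‖b - T' b‖ = ‖b - T b‖ := by
    rw [← hT (b - T' b), map_sub, hT1, norm_sub_rev]
  rw [norm_sub_sq_real, norm_add_sq_real, hcross, hnS, hnT]
  ring

end isom

end Pool.Agent.N838.Spec
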