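import Mathlib
import Pool.Agent.N984.TW.Fibre
import Pool.Agent.N838.Twist
import Pool.Agent.N838.Flat

/-!
# The potential of the torus plaquettes: elementary facts
-/

open MeasureTheory Matrix Filter
open scoped Matrix.Norms.Frobenius Topology
open Pool.Agent.H906R3.YM Pool.Agent.W793.YM Pool.Agent.TH618.YM

namespace Pool.Agent.N984.TW

set_option linter.unusedSectionVars false

noncomputable section

variable {N l : ℕ}

/-- `SU(N)` is closed. -/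
theorem SU_closed (N : ℕ) : IsClosed (SU N : Set (UN N)) := by
  have h : (SU N : Set (UN N)) = (fun U : UN N => (U : Mat N).det) ⁻¹' {1} := by
    ext U; rfl
  rw [h]
  refine IsClosed.preimage ?_ isClosed_singleton
  exact Continuous.matrix_det continuous_subtype_val

/-- the plaquette variable of the torus -/
def plT (φ : Tor l × Fin 2 → SU N) (y : Tor l) : SU N :=
  φ (y, 0) * φ (y + uT l 0, 1) * (φ (y + uT l 1, 0))⁻¹ * (φ (y, 1))⁻¹

lemma norm_twT [NeZero N] {z : ℂ} (hz : IsPrimitiveRoot z N) (y : Tor l) : ‖twT z y‖ = 1 := by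
  unfold twT
  split_ifs
  · exact Complex.norm_eq_one_of_pow_eq_one hz.pow_eq_one (NeZero.ne N)
  · exact norm_one

lemma norm_sub_smul_one (g : SU N) (w : ℂ) (hw : ‖w‖ = 1) :
    ‖mt g - w • (1 : Mat N)‖ ^ 2 = 2 * ((N : ℝ) - (star w * trace (mt g)).re) := by
  have hg : (mt g)ᴴ * mt g = 1 := rhoG_unit' g
  have hw2 : star w * w = 1 := by
    have h := Complex.normSq_eq_conj_mul_self (z := w)
    rw [Complex.normSq_eq_norm_sq, hw] at h
    have h2 : (starRingEnd ℂ) w * w = 1 := by rw [← h]; norm_num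
    exact h2
  rw [norm_sq_ip, ip_apply, conjTranspose_sub, conjTranspose_smul, conjTranspose_one, sub_mul,
    mul_sub, mul_sub, hg, mul_smul_comm, smul_mul_assoc, smul_mul_assoc, mul_one, one_mul,
    one_mul, smul_smul, hw2, one_smul, trace_sub, trace_sub, trace_sub, trace_smul, trace_smul,
    trace_one, Fintype.card_fin, trace_conjTranspose]
  have h1 : (w * star (trace (mt g))).re = (star w * trace (mt g)).re := by
    have h2 : w * star (trace (mt g)) = star (star w * trace (mt g)) := by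
      rw [star_mul, star_star, mul_comm]
    rw [h2]
    exact Complex.conj_re _
  simp only [Complex.sub_re, smul_eq_mul, Complex.natCast_re]
  rw [h1]
  ring

lemma VV_eq [NeZero l] [NeZero N] {z : ℂ} (hz : IsPrimitiveRoot z N)
    (φ : Tor l × Fin 2 → SU N) :
    VV z φ = ∑ y : Tor l, (1 / 2 : ℝ) * ‖mt (plT φ y) - twT z y • (1 : Mat N)‖ ^ 2 := by
  unfold VV
  refine Finset.sum_congr rfl fun y _ => ?_
  rw [norm_sub_smul_one _ _ (norm_twT hz y)]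
  unfold plT
  ring

lemma VV_nonneg [NeZero l] [NeZero N] {z : ℂ} (hz : IsPrimitiveRoot z N)
    (φ : Tor l × Fin 2 → SU N) : 0 ≤ VV z φ := by
  rw [VV_eq hz]
  exact Finset.sum_nonneg fun y _ => by positivity

lemma VV_cont [NeZero l] (z : ℂ) : Continuous (VV z : (Tor l × Fin 2 → SU N) → ℝ) := by
  have h1 : ∀ e : Tor l × Fin 2, Continuous fun φ : Tor l × Fin 2 → SU N => φ e :=
    fun e => continuous_apply e
  have h2 : ∀ y : Tor l, Continuous fun φ : Tor l × Fin 2 → SU N =>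
      φ (y, 0) * φ (y + uT l 0, 1) * (φ (y + uT l 1, 0))⁻¹ * (φ (y, 1))⁻¹ :=
    fun y => (((h1 _).mul (h1 _)).mul (h1 _).inv).mul (h1 _).inv
  unfold VV
  refine continuous_finsetSum _ fun y _ => ?_
  have h3 : Continuous fun φ : Tor l × Fin 2 → SU N =>
      mt (φ (y, 0) * φ (y + uT l 0, 1) * (φ (y + uT l 1, 0))⁻¹ * (φ (y, 1))⁻¹) :=
    mt_cont.comp (h2 y)
  have h4 := h3.matrix_trace
  exact continuous_const.sub (Complex.continuous_re.comp (continuous_const.mul h4))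

lemma plT_act (h : Tor l → SU N) (φ : Tor l × Fin 2 → SU N) (y : Tor l) :
    plT (act sE tE h φ) y = h y * plT φ y * (h y)⁻¹ := by
  have e : y + uT l 0 + uT l 1 = y + uT l 1 + uT l 0 := by abel
  have h1 : plT (act sE tE h φ) y = (h y * φ (y, 0) * (h (y + uT l 0))⁻¹) *
      (h (y + uT l 0) * φ (y + uT l 0, 1) * (h (y + uT l 0 + uT l 1))⁻¹) *
      (h (y + uT l 1) * φ (y + uT l 1, 0) * (h (y + uT l 1 + uT l 0))⁻¹)⁻¹ *
      (h y * φ (y, 1) * (h (y + uT l 1))⁻¹)⁻¹ := rfl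
  rw [h1, e]
  unfold plT
  group

lemma VV_act [NeZero l] (z : ℂ) (h : Tor l → SU N) (φ : Tor l × Fin 2 → SU N) :
    VV z (act sE tE h φ) = VV z φ := by
  have h1 : ∀ (h : Tor l → SU N) (φ : Tor l × Fin 2 → SU N) (y : Tor l),
      trace (mt (plT (act sE tE h φ) y)) = trace (mt (plT φ y)) := by
    intro h φ y
    rw [plT_act, mt_mul, mt_mul, trace_mul_comm, ← mul_assoc, ← mt_mul, inv_mul_cancel, mt_one,
      one_mul]
  unfold VV
  refine Finset.sum_congr rfl fun y _ => ?_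
  have h2 := h1 h φ y
  unfold plT at h2
  rw [h2]

/-! ### the centre -/

/-- the scalar elements of `SU(N)` -/
def scal (N : ℕ) [NeZero N] : rootsOfUnity N ℂ →* SU N where
  toFun c := ⟨⟨((c : ℂˣ) : ℂ) • (1 : Mat N), by
    have hc : ‖((c : ℂˣ) : ℂ)‖ = 1 := Complex.norm_eq_one_of_mem_rootsOfUnity c.2
    have hc2 : ((c : ℂˣ) : ℂ) * star ((c : ℂˣ) : ℂ) = 1 := by
      have h := Complex.mul_conj ((c : ℂˣ) : ℂ)
      rw [Complex.normSq_eq_norm_sq, hc] at h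
      have h2 : ((c : ℂˣ) : ℂ) * (starRingEnd ℂ) ((c : ℂˣ) : ℂ) = 1 := by rw [h]; norm_num
      exact h2
    rw [mem_unitaryGroup_iff, star_smul, star_one, smul_mul_assoc, mul_smul_comm, mul_one,
      smul_smul, hc2, one_smul]⟩, by
    show (((c : ℂˣ) : ℂ) • (1 : Mat N)).det = 1
    rw [det_smul, det_one, mul_one, Fintype.card_fin]
    have := (mem_rootsOfUnity' N (c : ℂˣ)).1 c.2
    exact this⟩
  map_one' := by
    refine Subtype.ext (Subtype.ext ?_)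
    show ((((1 : rootsOfUnity N ℂ) : ℂˣ) : ℂ) • (1 : Mat N)) = 1
    simp
  map_mul' c d := by
    refine Subtype.ext (Subtype.ext ?_)
    show ((((c * d : rootsOfUnity N ℂ) : ℂˣ) : ℂ) • (1 : Mat N)) =
      (((c : ℂˣ) : ℂ) • (1 : Mat N)) * (((d : ℂˣ) : ℂ) • (1 : Mat N))
    rw [smul_mul_assoc, one_mul, smul_smul]
    simp

lemma mt_scal [NeZero N] (c : rootsOfUnity N ℂ) : mt (scal N c) = ((c : ℂˣ) : ℂ) • (1 : Mat N) :=
  rfl

lemma scal_comm [NeZero N] (c : rootsOfUnity N ℂ) (g : SU N) : scal N c * g = g * scal N c := by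
  refine mt_inj ?_
  rw [mt_mul, mt_mul, mt_scal, smul_mul_assoc, one_mul, mul_smul_comm, mul_one]

/-- a primitive root as an element of the group of roots of unity -/
def zr [NeZero N] {z : ℂ} (hz : IsPrimitiveRoot z N) : rootsOfUnity N ℂ :=
  rootsOfUnity.mkOfPowEq z hz.pow_eq_one

lemma zr_coe [NeZero N] {z : ℂ} (hz : IsPrimitiveRoot z N) : ((zr hz : ℂˣ) : ℂ) = z :=
  rootsOfUnity.coe_mkOfPowEq hz.pow_eq_one

lemma mt_stdTwist [NeZero N] {z : ℂ} (hz : IsPrimitiveRoot z N) (y : Tor l) :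
    mt (scal N (Pool.Agent.N838.Flat.stdTwist (zr hz) y)) = twT z y • (1 : Mat N) := by
  rw [mt_scal]
  unfold Pool.Agent.N838.Flat.stdTwist twT
  split_ifs
  · rw [zr_coe]
  · simp

/-- connections in the notation of `Flat` -/
def cur (φ : Tor l × Fin 2 → SU N) : ZMod l × ZMod l → Fin 2 → SU N := fun y j => φ (y, j)

lemma cur_act (h : Tor l → SU N) (φ : Tor l × Fin 2 → SU N) :
    cur (act sE tE h φ) = Pool.Agent.N838.Flat.gauge h (cur φ) := rfl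

lemma cur_inj {φ φ' : Tor l × Fin 2 → SU N} (h : cur φ = cur φ') : φ = φ' := by
  funext e
  exact congrFun (congrFun h e.1) e.2

/-- the zeros of the potential are the flat twisted connections -/
lemma VV_zero_iff [NeZero l] [NeZero N] {z : ℂ} (hz : IsPrimitiveRoot z N)
    (φ : Tor l × Fin 2 → SU N) :
    VV z φ = 0 ↔ Pool.Agent.N838.Flat.IsFlat (scal N)
      (Pool.Agent.N838.Flat.stdTwist (zr hz)) (cur φ) := by
  have h1 : VV z φ = 0 ↔ ∀ y : Tor l, plT φ y =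
      scal N (Pool.Agent.N838.Flat.stdTwist (zr hz) y) := by
    rw [VV_eq hz, Finset.sum_eq_zero_iff_of_nonneg (fun y _ => by positivity)]
    refine ⟨fun h y => ?_, fun h y _ => ?_⟩
    · have h2 := h y (Finset.mem_univ y)
      have h3 : ‖mt (plT φ y) - twT z y • (1 : Mat N)‖ = 0 := by
        have h4 : ‖mt (plT φ y) - twT z y • (1 : Mat N)‖ ^ 2 = 0 := by linarith
        exact pow_eq_zero_iff two_ne_zero |>.1 h4
      refine mt_inj ?_
      rw [mt_stdTwist hz]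
      exact sub_eq_zero.1 (norm_eq_zero.1 h3)
    · rw [h y, mt_stdTwist hz, sub_self, norm_zero]
      norm_num
  rw [h1]
  refine forall_congr' fun y => ?_
  have e : cur φ y 0 * cur φ (y + Pool.Agent.N838.Flat.e 0) 1 =
      scal N (Pool.Agent.N838.Flat.stdTwist (zr hz) y) * cur φ y 1 *
        cur φ (y + Pool.Agent.N838.Flat.e 1) 0 ↔
      φ (y, 0) * φ (y + uT l 0, 1) =
      scal N (Pool.Agent.N838.Flat.stdTwist (zr hz) y) * φ (y, 1) * φ (y + uT l 1, 0) := Iff.rfl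
  rw [e]
  unfold plT
  rw [mul_inv_eq_iff_eq_mul, mul_inv_eq_iff_eq_mul]

/-! ### the upper bound -/

lemma norm_diff4 (a b c d a' b' c' d' : SU N) :
    ‖mt (a * b * c⁻¹ * d⁻¹) - mt (a' * b' * c'⁻¹ * d'⁻¹)‖ ≤
      ‖mt (a * a'⁻¹) - 1‖ + ‖mt (b * b'⁻¹) - 1‖ + ‖mt (c * c'⁻¹) - 1‖ + ‖mt (d * d'⁻¹) - 1‖ := by
  have h1 : ∀ g h : SU N, ‖mt g - mt h‖ = ‖mt (g * h⁻¹) - 1‖ := by
    intro g h
    have : (mt (g * h⁻¹) - 1) * mt h = mt g - mt h := by
      rw [sub_mul, one_mul, ← mt_mul, inv_mul_cancel_right]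
    rw [← this, norm_mul_unit]
  have h2 : ∀ g h k m : SU N, ‖mt (g * h) - mt (k * m)‖ ≤ ‖mt g - mt k‖ + ‖mt h - mt m‖ := by
    intro g h k m
    have e : mt (g * h) - mt (k * m) = (mt g - mt k) * mt h + mt k * (mt h - mt m) := by
      rw [mt_mul, mt_mul]; noncomm_ring
    rw [e]
    refine (norm_add_le _ _).trans ?_
    rw [norm_mul_unit, norm_mt_mul]
  have h3 : ∀ g h : SU N, ‖mt g⁻¹ - mt h⁻¹‖ = ‖mt g - mt h‖ := by
    intro g h
    have e : mt g⁻¹ - mt h⁻¹ = -(mt g⁻¹ * ((mt g - mt h) * mt h⁻¹)) := by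
      rw [sub_mul, ← mt_mul, ← mt_mul h, mul_inv_cancel, mul_sub, ← mt_mul, inv_mul_cancel_left,
        mt_one, mul_one, neg_sub]
    rw [e, norm_neg, norm_mt_mul, norm_mul_unit]
  have h4 := h2 (a * b * c⁻¹) d⁻¹ (a' * b' * c'⁻¹) d'⁻¹
  have h5 := h2 (a * b) c⁻¹ (a' * b') c'⁻¹
  have h6 := h2 a b a' b'
  rw [h3] at h4 h5
  rw [← h1 a, ← h1 b, ← h1 c, ← h1 d]
  linarith

/-- **(V5)** The upper bound of the potential by the distance to a zero. -/
theorem VV_upper [NeZero l] [NeZero N] {z : ℂ} (hz : IsPrimitiveRoot z N)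
    {φ₀ : Tor l × Fin 2 → SU N} (h0 : VV z φ₀ = 0) (φ : Tor l × Fin 2 → SU N) :
    VV z φ ≤ (8 * Fintype.card (Tor l) : ℝ) * nM φ₀ φ := by
  have h1 : ∀ y, mt (plT φ₀ y) = twT z y • (1 : Mat N) := by
    intro y
    have h2 := (VV_eq hz φ₀).symm.trans h0
    rw [Finset.sum_eq_zero_iff_of_nonneg (fun y _ => by positivity)] at h2
    have h3 := h2 y (Finset.mem_univ y)
    have h4 : ‖mt (plT φ₀ y) - twT z y • (1 : Mat N)‖ ^ 2 = 0 := by linarith
    exact sub_eq_zero.1 (norm_eq_zero.1 (pow_eq_zero_iff two_ne_zero |>.1 h4))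
  have hle : ∀ e : Tor l × Fin 2, ‖mt (φ e * (φ₀ e)⁻¹) - 1‖ ^ 2 ≤ nM φ₀ φ := by
    intro e
    unfold nM nr
    exact Finset.single_le_sum (f := fun e : Tor l × Fin 2 => ‖mt (φ e * (φ₀ e)⁻¹) - 1‖ ^ 2)
      (fun _ _ => sq_nonneg _) (Finset.mem_univ e)
  have hy : ∀ y : Tor l, (1 / 2 : ℝ) * ‖mt (plT φ y) - twT z y • (1 : Mat N)‖ ^ 2 ≤
      8 * nM φ₀ φ := by
    intro y
    rw [← h1 y]
    have h2 := norm_diff4 (φ (y, 0)) (φ (y + uT l 0, 1)) (φ (y + uT l 1, 0)) (φ (y, 1))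
      (φ₀ (y, 0)) (φ₀ (y + uT l 0, 1)) (φ₀ (y + uT l 1, 0)) (φ₀ (y, 1))
    have h3 : ‖mt (plT φ y) - mt (plT φ₀ y)‖ ≤ ‖mt (φ (y, 0) * (φ₀ (y, 0))⁻¹) - 1‖ +
        ‖mt (φ (y + uT l 0, 1) * (φ₀ (y + uT l 0, 1))⁻¹) - 1‖ +
        ‖mt (φ (y + uT l 1, 0) * (φ₀ (y + uT l 1, 0))⁻¹) - 1‖ +
        ‖mt (φ (y, 1) * (φ₀ (y, 1))⁻¹) - 1‖ := h2
    have ha := hle (y, 0)
    have hb := hle (y + uT l 0, 1)
    have hc := hle (y + uT l 1, 0)
    have hd := hle (y, 1)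
    obtain ⟨a, ha'⟩ : ∃ a, a = ‖mt (φ (y, 0) * (φ₀ (y, 0))⁻¹) - 1‖ := ⟨_, rfl⟩
    obtain ⟨b, hb'⟩ : ∃ b, b = ‖mt (φ (y + uT l 0, 1) * (φ₀ (y + uT l 0, 1))⁻¹) - 1‖ := ⟨_, rfl⟩
    obtain ⟨c, hc'⟩ : ∃ c, c = ‖mt (φ (y + uT l 1, 0) * (φ₀ (y + uT l 1, 0))⁻¹) - 1‖ := ⟨_, rfl⟩
    obtain ⟨d, hd'⟩ : ∃ d, d = ‖mt (φ (y, 1) * (φ₀ (y, 1))⁻¹) - 1‖ := ⟨_, rfl⟩
    rw [← ha'] at ha h3
    rw [← hb'] at hb h3
    rw [← hc'] at hc h3
    rw [← hd'] at hd h3
    have h4 := pow_le_pow_left₀ (norm_nonneg _) h3 2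
    have h5 : (a + b + c + d) ^ 2 ≤ 4 * (a ^ 2 + b ^ 2 + c ^ 2 + d ^ 2) := by
      nlinarith [sq_nonneg (a - b), sq_nonneg (a - c), sq_nonneg (a - d), sq_nonneg (b - c),
        sq_nonneg (b - d), sq_nonneg (c - d)]
    linarith
  rw [VV_eq hz]
  calc ∑ y : Tor l, (1 / 2 : ℝ) * ‖mt (plT φ y) - twT z y • (1 : Mat N)‖ ^ 2
      ≤ ∑ _y : Tor l, 8 * nM φ₀ φ := Finset.sum_le_sum fun y _ => hy y
    _ = _ := by rw [Finset.sum_const, Finset.card_univ, nsmul_eq_mul]; ring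

end

end Pool.Agent.N984.TW
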