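import Mathlib
import Pool.Agent.N838.TW.VF1

/-!
# The vacuum of the torus potential: stabiliser and Lie algebra
-/

open MeasureTheory Matrix Filter
open scoped Matrix.Norms.Frobenius Topology
open Pool.Agent.H906R3.YM Pool.Agent.W793.YM Pool.Agent.TH618.YM

namespace Pool.Agent.N984.TW

set_option linter.unusedSectionVars false

noncomputable section

/-! ### frames -/

section frames

variable {N n : ℕ} {G : Subgroup (UN N)} (B : Frame G n) (hG : IsClosed (G : Set (UN N)))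

lemma LX_pc {A : Mat N} (hA : A ∈ Submodule.span ℝ (Set.range B.X)) : LX B (pc B A) = A := by
  obtain ⟨c, hc⟩ := (Submodule.mem_span_range_iff_exists_fun ℝ).1 hA
  have h : A = LX B c := hc.symm
  rw [h, pc_LX]

lemma LX_mem (x : Fin n → ℝ) : LX B x ∈ Submodule.span ℝ (Set.range B.X) :=
  (Submodule.mem_span_range_iff_exists_fun ℝ).2 ⟨x, rfl⟩

lemma conj_mem_span (g : G) {A : Mat N} (hA : A ∈ Submodule.span ℝ (Set.range B.X)) :
    mt g * (A * (mt g)ᴴ) ∈ Submodule.span ℝ (Set.range B.X) := by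
  obtain ⟨c, rfl⟩ := (Submodule.mem_span_range_iff_exists_fun ℝ).1 hA
  rw [Finset.sum_mul, Finset.mul_sum]
  refine Submodule.sum_mem _ fun a _ => ?_
  rw [smul_mul_assoc, mul_smul_comm]
  refine Submodule.smul_mem _ _ ?_
  have := B.conj_mem g a
  rw [mul_assoc] at this
  exact this

lemma LX_AdM (g : G) (x : Fin n → ℝ) : LX B (AdM B g x) = mt g * (LX B x * (mt g)ᴴ) :=
  LX_pc B (conj_mem_span B g (LX_mem B x))

lemma LX_inj {x y : Fin n → ℝ} (h : LX B x = LX B y) : x = y := by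
  rw [← pc_LX B x, h, pc_LX]

lemma LX_skew (x : Fin n → ℝ) : (LX B x)ᴴ = -LX B x := by
  unfold LX
  rw [conjTranspose_sum, ← Finset.sum_neg_distrib]
  refine Finset.sum_congr rfl fun a _ => ?_
  rw [conjTranspose_smul, B.skewX, smul_neg, star_trivial]

end frames

variable {N l n : ℕ}

/-- The Lie algebra of `SU(N)` is traceless. -/
lemma LX_trace (B : Frame (SU N) n) (hG : IsClosed (SU N : Set (UN N))) (x : Fin n → ℝ) :
    (LX B x).trace = 0 := by
  obtain ⟨H, hH⟩ : ∃ H, H = (-Complex.I) • LX B x := ⟨_, rfl⟩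
  have hX : LX B x = Complex.I • H := by
    rw [hH, smul_smul]; simp
  have hherm : H.IsHermitian := by
    show Hᴴ = H
    rw [hH, conjTranspose_smul, LX_skew]
    simp
  have hdet : ∀ t : ℝ, (NormedSpace.exp (t • LX B x) : Mat N).det = 1 := by
    intro t
    obtain ⟨g, hg⟩ := EM_mem B hG (t • x)
    have h1 : (mt g).det = 1 := g.2
    rw [hg] at h1
    unfold EM at h1
    rw [LX_smul] at h1
    exact h1
  -- diagonalise
  have hs := hherm.spectral_theorem
  obtain ⟨s, hs'⟩ : ∃ s : ℝ, s = ∑ i, hherm.eigenvalues i := ⟨_, rfl⟩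
  have htr : H.trace = (s : ℂ) := by
    rw [hs', hherm.trace_eq_sum_eigenvalues]
    push_cast
    rfl
  have hexp : ∀ t : ℝ, (NormedSpace.exp (t • LX B x) : Mat N).det =
      Complex.exp (Complex.I * (t * s)) := by
    intro t
    obtain ⟨U, hU⟩ : ∃ U : Mat N, U = (hherm.eigenvectorUnitary : Mat N) := ⟨_, rfl⟩
    have hU1 : U * star U = 1 := by
      rw [hU]; exact mem_unitaryGroup_iff.1 hherm.eigenvectorUnitary.2
    have hU2 : star U * U = 1 := by
      rw [hU]; exact mem_unitaryGroup_iff'.1 hherm.eigenvectorUnitary.2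
    have hUi : U⁻¹ = star U := Matrix.inv_eq_right_inv hU1
    have hUu : IsUnit U := ⟨⟨U, star U, hU1, hU2⟩, rfl⟩
    have hH2 : H = U * diagonal (RCLike.ofReal ∘ hherm.eigenvalues) * U⁻¹ := by
      rw [hUi, hU]
      exact hs
    have e1 : t • LX B x = U * diagonal (fun i => Complex.I * (t * hherm.eigenvalues i)) * U⁻¹ := by
      have e2 : diagonal (fun i => Complex.I * ((t : ℂ) * hherm.eigenvalues i)) =
          ((t : ℂ) * Complex.I) •
            (diagonal (RCLike.ofReal ∘ hherm.eigenvalues) : Mat N) := by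
        rw [← diagonal_smul]
        congr 1
        funext i
        simp only [Pi.smul_apply, Function.comp_apply, smul_eq_mul]
        have : (RCLike.ofReal (hherm.eigenvalues i) : ℂ) = (hherm.eigenvalues i : ℂ) := rfl
        rw [this]
        ring
      have e3 : t • LX B x = ((t : ℂ) * Complex.I) • H := by
        rw [hX, mul_smul]
        rfl
      rw [e3, e2, mul_smul_comm, smul_mul_assoc, ← hH2]
    rw [e1, Matrix.exp_conj _ _ hUu, Matrix.det_conj hUu, Matrix.exp_diagonal, det_diagonal]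
    have e4 : ∀ i, NormedSpace.exp (fun i => Complex.I * ((t : ℂ) * hherm.eigenvalues i)) i =
        Complex.exp (Complex.I * (t * hherm.eigenvalues i)) := by
      intro i
      rw [Pi.coe_exp, Complex.exp_eq_exp_ℂ]
    simp only [e4]
    rw [← Complex.exp_sum, hs']
    congr 1
    push_cast
    rw [Finset.mul_sum, Finset.mul_sum]
  have hs0 : s = 0 := by
    by_contra hne
    have h1 := hexp (Real.pi / s)
    rw [hdet] at h1
    have h2 : ((Real.pi / s : ℝ) : ℂ) * (s : ℂ) = (Real.pi : ℂ) := by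
      rw [← Complex.ofReal_mul, div_mul_cancel₀ _ hne]
    rw [h2, mul_comm, Complex.exp_pi_mul_I] at h1
    norm_num at h1
  rw [hX, trace_smul, htr, hs0]
  simp

/-! ### the vacuum -/

/-- an element of `SU(N)` from a special unitary matrix -/
def ofS (g : specialUnitaryGroup (Fin N) ℂ) : SU N :=
  ⟨⟨(g : Mat N), (mem_specialUnitaryGroup_iff.1 g.2).1⟩, (mem_specialUnitaryGroup_iff.1 g.2).2⟩

lemma mt_ofS (g : specialUnitaryGroup (Fin N) ℂ) : mt (ofS g) = (g : Mat N) := rfl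

lemma mt_mem_S (g : SU N) : mt g ∈ specialUnitaryGroup (Fin N) ℂ :=
  mem_specialUnitaryGroup_iff.2 ⟨(g : UN N).2, g.2⟩

/-- a twisted pair -/
structure TwP (N : ℕ) (z : ℂ) where
  A : SU N
  B : SU N
  hAB : mt A * mt B = z • (mt B * mt A)

theorem exists_TwP [NeZero N] {z : ℂ} (hz : IsPrimitiveRoot z N) : Nonempty (TwP N z) := by
  obtain ⟨A, B, h⟩ := Pool.Agent.N838.Twist.twist_exists (N := N) hz.pow_eq_one
  exact ⟨⟨ofS A, ofS B, h⟩⟩

/-- the vacuum -/
def vac (l : ℕ) {z : ℂ} (W : TwP N z) : Tor l × Fin 2 → SU N := fun e =>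
  Pool.Agent.N838.Flat.std W.A W.B e.1 e.2

lemma cur_vac {z : ℂ} (W : TwP N z) :
    cur (vac l W) = Pool.Agent.N838.Flat.std W.A W.B := rfl

lemma twP_eq [NeZero N] {z : ℂ} (hz : IsPrimitiveRoot z N) (W : TwP N z) :
    W.A * W.B = scal N (zr hz) * (W.B * W.A) := by
  refine mt_inj ?_
  rw [mt_mul, mt_mul, mt_mul, mt_scal, zr_coe, W.hAB, smul_mul_assoc, one_mul]

lemma vac_flat [NeZero N] {z : ℂ} (hz : IsPrimitiveRoot z N) (W : TwP N z) :
    Pool.Agent.N838.Flat.IsFlat (scal N)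
      (Pool.Agent.N838.Flat.stdTwist (zr hz)) (cur (vac l W)) :=
  Pool.Agent.N838.Flat.std_flat (twP_eq hz W)

lemma VV_vac [NeZero l] [NeZero N] {z : ℂ} (hz : IsPrimitiveRoot z N) (W : TwP N z) :
    VV z (vac l W) = 0 := (VV_zero_iff hz _).2 (vac_flat hz W)

/-- **(V1)** The zeros of the potential form one gauge orbit. -/
theorem VV_zero_orbit [NeZero l] [NeZero N] {z : ℂ} (hz : IsPrimitiveRoot z N) (W : TwP N z)
    (φ : Tor l × Fin 2 → SU N) (h0 : VV z φ = 0) : ∃ h, φ = act sE tE h (vac l W) := by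
  have hf := (VV_zero_iff hz φ).1 h0
  have hc := Pool.Agent.N838.Flat.holonomy_comm (scal_comm) hf
  rw [Pool.Agent.N838.Flat.prod_stdTwist] at hc
  obtain ⟨A1, hA1⟩ : ∃ A1, A1 = Pool.Agent.N838.Flat.holA (cur φ) := ⟨_, rfl⟩
  obtain ⟨B1, hB1⟩ : ∃ B1, B1 = Pool.Agent.N838.Flat.holB (cur φ) := ⟨_, rfl⟩
  rw [← hA1, ← hB1] at hc
  have hAB1 : mt A1 * mt B1 = z • (mt B1 * mt A1) := by
    have := congrArg (fun g : SU N => mt g) hc
    rw [mt_mul, mt_mul, mt_mul, mt_scal, zr_coe, smul_mul_assoc, one_mul] at this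
    exact this
  obtain ⟨g, hg, hgA, hgB⟩ := Pool.Agent.N838.Twist.twist_conj_mat hz (mt_mem_S W.A)
    (mt_mem_S W.B) (mt_mem_S A1) (mt_mem_S B1) W.hAB hAB1
  obtain ⟨k, hk⟩ : ∃ k : SU N, mt k = g := ⟨ofS ⟨g, hg⟩, rfl⟩
  have hA : A1 = k * W.A * k⁻¹ := by
    rw [eq_mul_inv_iff_mul_eq]
    refine mt_inj ?_
    rw [mt_mul, mt_mul, hk]
    exact hgA
  have hB : B1 = k * W.B * k⁻¹ := by
    rw [eq_mul_inv_iff_mul_eq]
    refine mt_inj ?_
    rw [mt_mul, mt_mul, hk]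
    exact hgB
  obtain ⟨h, hh⟩ := Pool.Agent.N838.Flat.gauge_std (scal_comm) (twP_eq hz W) hf (k := k)
    (hA1.symm.trans hA) (hB1.symm.trans hB)
  exact ⟨h, cur_inj hh⟩

/-- the stabiliser of the vacuum: constant scalar gauge transformations -/
def ZcS (N l : ℕ) [NeZero N] : Subgroup (Tor l → SU N) :=
  ((Pi.constMonoidHom (Tor l) (SU N)).comp (scal N)).range

lemma mem_ZcS [NeZero N] (h : Tor l → SU N) :
    h ∈ ZcS N l ↔ ∃ c : rootsOfUnity N ℂ, h = fun _ => scal N c := by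
  unfold ZcS
  rw [MonoidHom.mem_range]
  exact ⟨fun ⟨c, hc⟩ => ⟨c, hc.symm⟩, fun ⟨c, hc⟩ => ⟨c, hc.symm⟩⟩

instance ZcS_finite [NeZero N] : Finite (ZcS N l) := by
  have : Finite (rootsOfUnity N ℂ) := inferInstance
  exact Set.Finite.to_subtype (Set.finite_range _)

lemma ZcS_comm [NeZero N] {ζ : Tor l → SU N} (hζ : ζ ∈ ZcS N l) (k : Tor l → SU N) :
    ζ * k = k * ζ := by
  obtain ⟨c, rfl⟩ := (mem_ZcS ζ).1 hζ
  funext y
  exact scal_comm c (k y)

lemma ZcS_triv [NeZero N] {ζ : Tor l → SU N} (hζ : ζ ∈ ZcS N l) (φ : Tor l × Fin 2 → SU N) :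
    act sE tE ζ φ = φ := by
  obtain ⟨c, rfl⟩ := (mem_ZcS ζ).1 hζ
  funext e
  show scal N c * φ e * (scal N c)⁻¹ = φ e
  rw [scal_comm, mul_inv_cancel_right]

lemma ZcS_stab [NeZero l] [NeZero N] {z : ℂ} (hz : IsPrimitiveRoot z N) (W : TwP N z)
    {h : Tor l → SU N} (hh : act sE tE h (vac l W) = vac l W) : h ∈ ZcS N l := by
  have h1 : Pool.Agent.N838.Flat.gauge h (Pool.Agent.N838.Flat.std W.A W.B) =
      Pool.Agent.N838.Flat.std W.A W.B := by
    have := congrArg cur hh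
    rwa [cur_act, cur_vac] at this
  obtain ⟨k, hk, hkA, hkB⟩ := (Pool.Agent.N838.Flat.std_stabiliser h).1 h1
  obtain ⟨c, hc⟩ := Pool.Agent.N838.Twist.twist_scalar_u hz (mt_mem_S W.A).1 (mt_mem_S W.B).1
    W.hAB (mt k) (by rw [← mt_mul, hkA, mt_mul]) (by rw [← mt_mul, hkB, mt_mul])
  have hcN : c ^ N = 1 := by
    have h2 : (mt k).det = 1 := k.2
    rw [hc, det_smul, det_one, mul_one, Fintype.card_fin] at h2
    exact h2
  refine (mem_ZcS h).2 ⟨rootsOfUnity.mkOfPowEq c hcN, ?_⟩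
  funext y
  rw [hk y]
  refine mt_inj ?_
  rw [hc, mt_scal, rootsOfUnity.coe_mkOfPowEq]

lemma nr_eq_zero_vf {I : Type*} [Fintype I] {G : Subgroup (UN N)} {k : I → G} (h : nr k = 0) :
    k = 1 := by
  unfold nr at h
  rw [Finset.sum_eq_zero_iff_of_nonneg (fun _ _ => sq_nonneg _)] at h
  funext y
  have h2 := pow_eq_zero_iff two_ne_zero |>.1 (h y (Finset.mem_univ y))
  exact mt_inj (by rw [sub_eq_zero.1 (norm_eq_zero.1 h2)]; rfl)

lemma finite_pos_min {α : Type*} (S : Set α) (hS : S.Finite) (f : α → ℝ)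
    (hf : ∀ a ∈ S, 0 < f a) : ∃ c : ℝ, 0 < c ∧ ∀ a ∈ S, c ≤ f a := by
  induction S, hS using Set.Finite.induction_on with
  | empty => exact ⟨1, one_pos, fun a ha => absurd ha (Set.notMem_empty a)⟩
  | @insert a s _ _ ih =>
    obtain ⟨c, hc, h⟩ := ih fun b hb => hf b (Set.mem_insert_of_mem _ hb)
    refine ⟨min c (f a), lt_min hc (hf a (Set.mem_insert _ _)), ?_⟩
    rintro b (rfl | hb)
    · exact min_le_right _ _
    · exact (min_le_left _ _).trans (h b hb)

lemma ZcS_disc [NeZero l] [NeZero N] : ∃ c₀ : ℝ, 0 < c₀ ∧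
    ∀ ζ ∈ ZcS N l, ζ ≠ 1 → c₀ ≤ nr ζ := by
  obtain ⟨c, hc, h⟩ := finite_pos_min {ζ : Tor l → SU N | ζ ∈ ZcS N l ∧ ζ ≠ 1}
    ((Set.finite_coe_iff.1 (ZcS_finite (N := N) (l := l))).subset fun ζ hζ => hζ.1) nr (by
      rintro ζ ⟨-, hne⟩
      exact lt_of_le_of_ne (nr_nonneg ζ) fun h0 => hne (nr_eq_zero_vf h0.symm))
  exact ⟨c, hc, fun ζ h1 h2 => h ζ ⟨h1, h2⟩⟩

end

end Pool.Agent.N984.TW
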