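import Mathlib
import Pool.Agent.N838.TW.VF2

/-!
# The vacuum of the torus potential: the quadratic form
-/

open MeasureTheory Matrix Filter
open scoped Matrix.Norms.Frobenius Topology ContDiff
open Pool.Agent.H906R3.YM Pool.Agent.W793.YM Pool.Agent.TH618.YM

namespace Pool.Agent.N984.TW

set_option linter.unusedSectionVars false

noncomputable section

variable {N l n : ℕ}

lemma EM_AdM {G : Subgroup (UN N)} (B : Frame G n) (g : G) (x : Fin n → ℝ) :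
    EM B (AdM B g x) = mt g * (EM B x * (mt g)ᴴ) := by
  unfold EM
  rw [LX_AdM]
  have hu : IsUnit (mt g) := ⟨⟨mt g, (mt g)ᴴ, rhoG_unit g, rhoG_unit' g⟩, rfl⟩
  have hinv : (mt g)⁻¹ = (mt g)ᴴ := Matrix.inv_eq_right_inv (rhoG_unit g)
  have h1 := Matrix.exp_conj (mt g) (LX B x) hu
  rw [hinv, mul_assoc, mul_assoc] at h1
  exact h1

/-- **(V3)** The infinitesimal gauge action at the vacuum is injective. -/
theorem Jl_ker [NeZero l] [NeZero N] {z : ℂ} (hz : IsPrimitiveRoot z N) (W : TwP N z)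
    (B : Frame (SU N) n) (hG : IsClosed (SU N : Set (UN N))) :
    LinearMap.ker (Jl B (sE (l := l)) tE (vac l W)) = ⊥ := by
  rw [LinearMap.ker_eq_bot']
  intro x hx
  obtain ⟨c₀, hc₀, hdisc⟩ := ZcS_disc (l := l) (N := N)
  have hx1 : ∀ e : Tor l × Fin 2, x (sE e) = AdM B (vac l W e) (x (tE e)) := by
    intro e
    have := congrFun hx e
    exact sub_eq_zero.1 this
  have hact : ∀ τ : ℝ, act sE tE (exG B hG (τ • x)) (vac l W) = vac l W := by
    intro τ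
    funext e
    show Eg B hG ((τ • x) (sE e)) * vac l W e * (Eg B hG ((τ • x) (tE e)))⁻¹ = vac l W e
    rw [mul_inv_eq_iff_eq_mul]
    refine mt_inj ?_
    rw [mt_mul, mt_mul, mt_Eg, mt_Eg, Pi.smul_apply, Pi.smul_apply, hx1 e, ← AdM_smul, EM_AdM,
      mul_assoc, mul_assoc]
    have : (mt (vac l W e))ᴴ * mt (vac l W e) = 1 := rhoG_unit' _
    rw [this, mul_one]
  have ht : Tendsto (fun τ : ℝ => τ • x) (𝓝[≠] 0) (𝓝 0) := by
    have h1 : Tendsto (fun τ : ℝ => τ • x) (𝓝 0) (𝓝 ((0 : ℝ) • x)) :=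
      (continuous_id.smul continuous_const).tendsto 0
    rw [zero_smul] at h1
    exact h1.mono_left nhdsWithin_le_nhds
  have hn : ∀ᶠ τ : ℝ in 𝓝[≠] 0, nr (exG B hG (τ • x)) < c₀ := by
    have h2 : Tendsto (fun τ : ℝ => nr (exG B hG (τ • x))) (𝓝[≠] 0) (𝓝 0) := by
      have h3 := ((nr_cont (G := SU N) (I := Tor l)).tendsto (exG B hG 0)).comp
        (((exG_cont B hG (T := Tor l)).tendsto 0).comp ht)
      rwa [exG_zero, nr_one] at h3
    exact h2.eventually (gt_mem_nhds hc₀)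
  have hlg : ∀ᶠ τ : ℝ in 𝓝[≠] 0, ∀ y, lg B (Eg B hG ((τ • x) y)) = (τ • x) y := by
    rw [eventually_all]
    intro y
    have h1 : Tendsto (fun τ : ℝ => (τ • x) y) (𝓝[≠] 0) (𝓝 0) :=
      ((continuous_apply y).tendsto (0 : Tor l → Fin n → ℝ)).comp ht
    exact h1.eventually (lg_Eg B hG)
  have hne : ∀ᶠ τ : ℝ in 𝓝[≠] 0, τ ≠ 0 := self_mem_nhdsWithin
  obtain ⟨τ, h1, h2, h3⟩ := (hn.and (hlg.and hne)).exists
  have h4 : exG B hG (τ • x) = 1 := by
    by_contra hcon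
    exact absurd (hdisc _ (ZcS_stab hz W (hact τ)) hcon) (not_le.2 h1)
  funext y
  have h5 := h2 y
  have h6 : Eg B hG ((τ • x) y) = 1 := congrFun h4 y
  rw [h6] at h5
  have h7 : lg B (1 : SU N) = 0 := by
    unfold lg
    rw [mt_one, lgM_one]
  rw [h7, Pi.smul_apply] at h5
  exact (smul_eq_zero.1 h5.symm).resolve_left h3

/-- conjugation of matrices -/
def AdC (g : SU N) (X : Mat N) : Mat N := mt g * (X * (mt g)ᴴ)

/-- **The linearised flatness equation at the vacuum.** -/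
theorem lin_exact [NeZero l] [NeZero N] {z : ℂ} (hz : IsPrimitiveRoot z N) (W : TwP N z)
    (B : Frame (SU N) n) (hG : IsClosed (SU N : Set (UN N))) (v : Tor l × Fin 2 → Fin n → ℝ)
    (hv : ∀ y : Tor l, LX B (v (y, 0)) + AdC (vac l W (y, 0)) (LX B (v (y + uT l 0, 1))) -
      AdC (vac l W (y, 1)) (LX B (v (y + uT l 1, 0))) - LX B (v (y, 1)) = 0) :
    ∃ x : Tor l → Fin n → ℝ, v = Jl B sE tE (vac l W) x := by
  obtain ⟨S, hS⟩ : ∃ S, S = Submodule.span ℝ (Set.range B.X) := ⟨_, rfl⟩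
  have hSt : ∀ X ∈ S, X.trace = 0 := by
    intro X hX
    rw [hS] at hX
    rw [← LX_pc B hX]
    exact LX_trace B hG _
  have hSc : ∀ (g : SU N), ∀ X ∈ S, AdC g X ∈ S := by
    intro g X hX
    rw [hS] at hX ⊢
    exact conj_mem_span B g hX
  have h := Pool.Agent.N838.Flat.linear_flat (V := Mat N) (G := SU N) (fun g X => AdC g X)
    (fun X => by
      show mt (1 : SU N) * (X * (mt (1 : SU N))ᴴ) = X
      rw [mt_one, conjTranspose_one, one_mul, mul_one])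
    (fun g h X => by
      show mt (g * h) * (X * (mt (g * h))ᴴ) = mt g * (mt h * (X * (mt h)ᴴ) * (mt g)ᴴ)
      rw [mt_mul, conjTranspose_mul]
      simp only [mul_assoc])
    (fun g X Y => by
      show mt g * ((X + Y) * (mt g)ᴴ) = _
      rw [add_mul, mul_add]
      rfl)
    (ι := scal N) scal_comm
    (fun c X => by
      show mt (scal N c) * (X * (mt (scal N c))ᴴ) = X
      have h1 : mt (scal N c) * (mt (scal N c))ᴴ = 1 := rhoG_unit (G := SU N) (scal N c)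
      have h2 : mt (scal N c) * X = X * mt (scal N c) := by
        rw [mt_scal, smul_mul_assoc, one_mul, mul_smul_comm, mul_one]
      rw [← mul_assoc, h2, mul_assoc, h1, mul_one])
    (vac_flat (l := l) hz W) S.toAddSubgroup (fun g X hX => hSc g X hX)
    (by
      intro a ha b hb hab
      rw [cur_vac, Pool.Agent.N838.Flat.holA_std, Pool.Agent.N838.Flat.holB_std] at hab ⊢
      have e1 : ∀ (g : SU N) (X : Mat N), AdC g X = mt g * X * star (mt g) := by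
        intro g X
        rw [mul_assoc]; rfl
      simp only [e1] at hab ⊢
      exact Pool.Agent.N838.Twist.twist_cocycle hz (mt_mem_S W.A) (mt_mem_S W.B) W.hAB S hSt
        (fun X hX => by rw [← e1]; exact hSc _ X hX)
        (fun X hX => by rw [← e1]; exact hSc _ X hX) ha hb hab)
    (fun y j => LX B (v (y, j)))
    (fun y j => by
      show LX B (v (y, j)) ∈ S
      rw [hS]; exact LX_mem B _)
    hv
  obtain ⟨om, homS, hom⟩ := h
  refine ⟨fun y => pc B (om y), ?_⟩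
  funext e
  refine LX_inj B ?_
  have h1 : ∀ y, LX B (pc B (om y)) = om y := fun y => LX_pc B (by rw [← hS]; exact homS y)
  have h2 : LX B (Jl B sE tE (vac l W) (fun y => pc B (om y)) e) =
      LX B (pc B (om (sE e))) - LX B (AdM B (vac l W e) (pc B (om (tE e)))) := by
    show LX B (pc B (om (sE e)) - AdM B (vac l W e) (pc B (om (tE e)))) = _
    rw [sub_eq_add_neg, LX_add, LX_neg, ← sub_eq_add_neg]
  rw [h2, LX_AdM, h1, h1]
  exact hom e.1 e.2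

/-- the matrices of the plaquettes near the vacuum -/
def PM (B : Frame (SU N) n) (φ₀ : Tor l × Fin 2 → SU N) (v : Tor l × Fin 2 → Fin n → ℝ)
    (y : Tor l) : Mat N :=
  EM B (v (y, 0)) * (mt (φ₀ (y, 0)) * (EM B (v (y + uT l 0, 1)) * (mt (φ₀ (y + uT l 0, 1)) *
    ((mt (φ₀ (y + uT l 1, 0)))ᴴ * (EM B (-v (y + uT l 1, 0)) * ((mt (φ₀ (y, 1)))ᴴ *
      EM B (-v (y, 1))))))))

lemma PM_eq (B : Frame (SU N) n) (hG : IsClosed (SU N : Set (UN N)))
    (φ₀ : Tor l × Fin 2 → SU N) (v : Tor l × Fin 2 → Fin n → ℝ) (y : Tor l) :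
    mt (plT (exM B hG φ₀ v) y) = PM B φ₀ v y := by
  have h : plT (exM B hG φ₀ v) y = (Eg B hG (v (y, 0)) * φ₀ (y, 0)) *
      (Eg B hG (v (y + uT l 0, 1)) * φ₀ (y + uT l 0, 1)) *
      (Eg B hG (v (y + uT l 1, 0)) * φ₀ (y + uT l 1, 0))⁻¹ *
      (Eg B hG (v (y, 1)) * φ₀ (y, 1))⁻¹ := rfl
  rw [h, _root_.mul_inv_rev, _root_.mul_inv_rev, ← Eg_neg, ← Eg_neg]
  simp only [mt_mul, mt_Eg, mt_inv, mul_assoc]
  rfl

lemma PM_contDiff [NeZero l] (B : Frame (SU N) n) (φ₀ : Tor l × Fin 2 → SU N) (y : Tor l) :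
    ContDiff ℝ ∞ fun v => PM B φ₀ v y := by
  unfold PM
  have h1 : ∀ e : Tor l × Fin 2, ContDiff ℝ ∞ fun v : Tor l × Fin 2 → Fin n → ℝ => EM B (v e) :=
    fun e => (EM_contDiff B).comp (contDiff_apply ℝ (Fin n → ℝ) e)
  have h2 : ∀ e : Tor l × Fin 2, ContDiff ℝ ∞ fun v : Tor l × Fin 2 → Fin n → ℝ => EM B (-v e) :=
    fun e => (EM_contDiff B).comp (contDiff_apply ℝ (Fin n → ℝ) e).neg
  exact (h1 _).mul (contDiff_const.mul ((h1 _).mul (contDiff_const.mul (contDiff_const.mul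
    ((h2 _).mul (contDiff_const.mul (h2 _)))))))

lemma hasDerivAt_PM (B : Frame (SU N) n) {φ₀ : Tor l × Fin 2 → SU N}
    (v : Tor l × Fin 2 → Fin n → ℝ) (y : Tor l) {w : ℂ}
    (h0 : mt (plT φ₀ y) = w • (1 : Mat N)) :
    HasDerivAt (fun τ : ℝ => PM B φ₀ (τ • v) y)
      (w • (LX B (v (y, 0)) + AdC (φ₀ (y, 0)) (LX B (v (y + uT l 0, 1))) -
        AdC (φ₀ (y, 1)) (LX B (v (y + uT l 1, 0))) - LX B (v (y, 1)))) 0 := by
  obtain ⟨a, ha⟩ : ∃ a, a = φ₀ (y, 0) := ⟨_, rfl⟩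
  obtain ⟨b, hb⟩ : ∃ b, b = φ₀ (y + uT l 0, 1) := ⟨_, rfl⟩
  obtain ⟨c, hc⟩ : ∃ c, c = φ₀ (y + uT l 1, 0) := ⟨_, rfl⟩
  obtain ⟨d, hd⟩ : ∃ d, d = φ₀ (y, 1) := ⟨_, rfl⟩
  have h1 : ∀ e : Tor l × Fin 2, HasDerivAt (fun τ : ℝ => EM B ((τ • v) e)) (LX B (v e)) 0 :=
    fun e => hasDerivAt_EM B (v e)
  have h2 : ∀ e : Tor l × Fin 2, HasDerivAt (fun τ : ℝ => EM B (-(τ • v) e)) (-LX B (v e)) 0 := by
    intro e
    have := hasDerivAt_EM B (-v e)
    simp only [smul_neg, LX_neg] at this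
    exact this
  have h3 := (h1 (y, 0)).mul (((h1 (y + uT l 0, 1)).mul ((((h2 (y + uT l 1, 0)).mul
    ((h2 (y, 1)).const_mul ((mt d)ᴴ))).const_mul ((mt c)ᴴ)).const_mul (mt b))).const_mul (mt a))
  have h5 : (fun τ : ℝ => PM B φ₀ (τ • v) y) = fun τ : ℝ => EM B ((τ • v) (y, 0)) *
      (mt a * (EM B ((τ • v) (y + uT l 0, 1)) * (mt b * ((mt c)ᴴ *
      (EM B (-(τ • v) (y + uT l 1, 0)) * ((mt d)ᴴ * EM B (-(τ • v) (y, 1)))))))) := by
    rw [ha, hb, hc, hd]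
    rfl
  rw [h5, ← ha, ← hd]
  refine h3.congr_deriv ?_
  have hE : ∀ e : Tor l × Fin 2, EM B (((0 : ℝ) • v) e) = 1 := by
    intro e; rw [zero_smul, Pi.zero_apply, EM_zero]
  have hE2 : ∀ e : Tor l × Fin 2, EM B (-((0 : ℝ) • v) e) = 1 := by
    intro e; rw [zero_smul, Pi.zero_apply, neg_zero, EM_zero]
  -- the plaquette relation
  have ha1 : mt a * (mt a)ᴴ = 1 := rhoG_unit _
  have ha2 : (mt a)ᴴ * mt a = 1 := rhoG_unit' _
  have hd1 : mt d * (mt d)ᴴ = 1 := rhoG_unit _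
  have hd2 : (mt d)ᴴ * mt d = 1 := rhoG_unit' _
  have hp : mt a * (mt b * ((mt c)ᴴ * (mt d)ᴴ)) = w • (1 : Mat N) := by
    rw [← h0]
    have : plT φ₀ y = a * b * c⁻¹ * d⁻¹ := by rw [ha, hb, hc, hd]; rfl
    rw [this, mt_mul, mt_mul, mt_mul, mt_inv, mt_inv]
    simp only [mul_assoc]
  have hp1 : mt b * ((mt c)ᴴ * (mt d)ᴴ) = w • (mt a)ᴴ := by
    calc mt b * ((mt c)ᴴ * (mt d)ᴴ) = (mt a)ᴴ * (mt a * (mt b * ((mt c)ᴴ * (mt d)ᴴ))) := by
          rw [← mul_assoc (mt a)ᴴ, ha2, one_mul]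
      _ = _ := by rw [hp, mul_smul_comm, mul_one]
  have hp2 : mt a * (mt b * (mt c)ᴴ) = w • mt d := by
    calc mt a * (mt b * (mt c)ᴴ) = mt a * (mt b * ((mt c)ᴴ * (mt d)ᴴ)) * mt d := by
          simp only [mul_assoc, hd2, mul_one]
      _ = _ := by rw [hp, smul_mul_assoc, one_mul]
  simp only [Pi.mul_apply, hE, hE2, one_mul, mul_one]
  have q1 : LX B (v (y, 0)) * (mt a * (mt b * ((mt c)ᴴ * (mt d)ᴴ))) = w • LX B (v (y, 0)) := by
    rw [hp, mul_smul_comm, mul_one]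
  have q2 : mt a * (LX B (v (y + uT l 0, 1)) * (mt b * ((mt c)ᴴ * (mt d)ᴴ))) =
      w • AdC a (LX B (v (y + uT l 0, 1))) := by
    rw [hp1, mul_smul_comm, mul_smul_comm]
    rfl
  have q3 : mt a * (mt b * ((mt c)ᴴ * (LX B (v (y + uT l 1, 0)) * (mt d)ᴴ))) =
      w • AdC d (LX B (v (y + uT l 1, 0))) := by
    calc mt a * (mt b * ((mt c)ᴴ * (LX B (v (y + uT l 1, 0)) * (mt d)ᴴ))) =
        mt a * (mt b * (mt c)ᴴ) * (LX B (v (y + uT l 1, 0)) * (mt d)ᴴ) := by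
          simp only [mul_assoc]
      _ = _ := by rw [hp2, smul_mul_assoc]; rfl
  have q4 : mt a * (mt b * ((mt c)ᴴ * ((mt d)ᴴ * LX B (v (y, 1))))) = w • LX B (v (y, 1)) := by
    calc mt a * (mt b * ((mt c)ᴴ * ((mt d)ᴴ * LX B (v (y, 1))))) =
        mt a * (mt b * ((mt c)ᴴ * (mt d)ᴴ)) * LX B (v (y, 1)) := by simp only [mul_assoc]
      _ = _ := by rw [hp, smul_mul_assoc, one_mul]
  rw [smul_sub, smul_sub, smul_add, ← q1, ← q2, ← q3, ← q4]
  noncomm_ring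

end

end Pool.Agent.N984.TW
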