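import Mathlib
import Pool.Agent.N838.TW.VF3

/-!
# Facts about the potential of the torus plaquettes (twisted `SU(N)` theory)
-/

open MeasureTheory Matrix Filter
open scoped Matrix.Norms.Frobenius Topology ContDiff
open Pool.Agent.H906R3.YM Pool.Agent.W793.YM Pool.Agent.TH618.YM

namespace Pool.Agent.N984.TW

set_option linter.unusedSectionVars false

noncomputable section

variable {N l n : ℕ}

/-- **(V4)** The potential is nondegenerate in the slice. -/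
theorem VV_local [NeZero l] [NeZero N] {z : ℂ} (hz : IsPrimitiveRoot z N) (W : TwP N z)
    (B : Frame (SU N) n) (hG : IsClosed (SU N : Set (UN N)))
    (P : (Tor l × Fin 2 → Fin n → ℝ) →ₗ[ℝ] (Tor l → Fin n → ℝ))
    (hP : P.comp (Jl B sE tE (vac l W)) = LinearMap.id) :
    ∃ c : ℝ, 0 < c ∧ ∀ᶠ v in 𝓝 (0 : Tor l × Fin 2 → Fin n → ℝ), P v = 0 →
      c * ‖v‖ ^ 2 ≤ VV z (exM B hG (vac l W) v) := by
  obtain ⟨F, hF⟩ : ∃ F : (Tor l × Fin 2 → Fin n → ℝ) → (Tor l → Mat N),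
    F = fun v y => PM B (vac l W) v y := ⟨_, rfl⟩
  have hFc : ContDiff ℝ ∞ F := by
    rw [hF, contDiff_pi]
    exact fun y => PM_contDiff B (vac l W) y
  have hpl : ∀ y : Tor l, mt (plT (vac l W) y) = twT z y • (1 : Mat N) := by
    intro y
    have h2 := (VV_eq hz (vac l W)).symm.trans (VV_vac hz W)
    rw [Finset.sum_eq_zero_iff_of_nonneg (fun y _ => by positivity)] at h2
    have h3 := h2 y (Finset.mem_univ y)
    have h4 : ‖mt (plT (vac l W) y) - twT z y • (1 : Mat N)‖ ^ 2 = 0 := by linarith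
    exact sub_eq_zero.1 (norm_eq_zero.1 (pow_eq_zero_iff two_ne_zero |>.1 h4))
  obtain ⟨L, hL⟩ : ∃ L, L = fderiv ℝ F 0 := ⟨_, rfl⟩
  have hFd : HasFDerivAt F L 0 := by
    rw [hL]
    exact (hFc.contDiffAt.differentiableAt (by simp)).hasFDerivAt
  have hLv : ∀ (v : Tor l × Fin 2 → Fin n → ℝ) (y : Tor l), L v y =
      twT z y • (LX B (v (y, 0)) + AdC (vac l W (y, 0)) (LX B (v (y + uT l 0, 1))) -
        AdC (vac l W (y, 1)) (LX B (v (y + uT l 1, 0))) - LX B (v (y, 1))) := by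
    intro v y
    have h1 : HasDerivAt (fun τ : ℝ => τ • v) v 0 := by
      simpa using (hasDerivAt_id (0 : ℝ)).smul_const v
    have hd' : HasFDerivAt F L ((0 : ℝ) • v) := by rw [zero_smul]; exact hFd
    have h2 := hd'.comp_hasDerivAt (0 : ℝ) h1
    rw [hasDerivAt_pi] at h2
    have h3 := h2 y
    have h4 := hasDerivAt_PM B (φ₀ := vac l W) v y (hpl y)
    have h5 : (fun τ : ℝ => (F ∘ fun τ : ℝ => τ • v) τ y) =
        fun τ : ℝ => PM B (vac l W) (τ • v) y := by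
      funext τ
      rw [hF]
      rfl
    rw [h5] at h3
    exact h3.unique h4
  -- injectivity
  obtain ⟨T, hT⟩ : ∃ T : (Tor l × Fin 2 → Fin n → ℝ) →ₗ[ℝ] (Tor l → Mat N) × (Tor l → Fin n → ℝ),
    T = (L : (Tor l × Fin 2 → Fin n → ℝ) →ₗ[ℝ] (Tor l → Mat N)).prod P := ⟨_, rfl⟩
  have hTv : ∀ v, T v = (L v, P v) := fun v => by rw [hT]; rfl
  have hker : LinearMap.ker T = ⊥ := by
    rw [LinearMap.ker_eq_bot']
    intro v hv
    rw [hTv] at hv
    have hv1 : L v = 0 := congrArg Prod.fst hv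
    have hv2 : P v = 0 := congrArg Prod.snd hv
    obtain ⟨x, hx⟩ := lin_exact hz W B hG v (by
      intro y
      have h1 := hLv v y
      rw [hv1] at h1
      have h2 : twT z y ≠ 0 := by
        intro h3
        have := norm_twT hz y
        rw [h3, norm_zero] at this
        exact zero_ne_one this
      exact (smul_eq_zero.1 h1.symm).resolve_left h2)
    have h1 : P (Jl B sE tE (vac l W) x) = x := LinearMap.congr_fun hP x
    rw [← hx, hv2] at h1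
    rw [hx, ← h1, map_zero]
  obtain ⟨K, hK, hanti⟩ := LinearMap.exists_antilipschitzWith T hker
  have hbd : ∀ v, P v = 0 → ‖v‖ ≤ K * ‖L v‖ := by
    intro v hv
    have h1 := hanti.le_mul_dist v 0
    rw [dist_zero_right, map_zero, dist_zero_right, hTv, hv] at h1
    refine h1.trans ?_
    refine mul_le_mul_of_nonneg_left ?_ K.2
    rw [Prod.norm_def, norm_zero]
    exact max_le le_rfl (norm_nonneg _)
  have hK' : (0 : ℝ) < K := by exact_mod_cast hK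
  -- the remainder
  have hrem := hFd.isLittleO
  have hev := hrem.def (c := 1 / (2 * (K : ℝ))) (by positivity)
  refine ⟨1 / (8 * (K : ℝ) ^ 2), by positivity, ?_⟩
  filter_upwards [hev] with v hv hPv
  rw [sub_zero] at hv
  have h1 := hbd v hPv
  have h2 : ‖L v‖ ≤ ‖F v - F 0‖ + 1 / (2 * (K : ℝ)) * ‖v‖ := by
    have e : L v = (F v - F 0) - (F v - F 0 - L v) := by abel
    rw [e]
    exact (norm_sub_le _ _).trans (add_le_add le_rfl hv)
  have h3 : ‖v‖ ≤ 2 * K * ‖F v - F 0‖ := by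
    have h4 : (K : ℝ) * ‖L v‖ ≤ K * ‖F v - F 0‖ + 1 / 2 * ‖v‖ := by
      have := mul_le_mul_of_nonneg_left h2 hK'.le
      have e : (K : ℝ) * (‖F v - F 0‖ + 1 / (2 * (K : ℝ)) * ‖v‖) =
          K * ‖F v - F 0‖ + 1 / 2 * ‖v‖ := by field_simp
      rwa [e] at this
    linarith
  have h4 : ‖F v - F 0‖ ^ 2 ≤ ∑ y : Tor l, ‖F v y - F 0 y‖ ^ 2 := by
    obtain ⟨y, hy⟩ : ∃ y : Tor l, ‖F v - F 0‖ ≤ ‖F v y - F 0 y‖ := by
      obtain ⟨y, -, hy⟩ := Finset.exists_mem_eq_sup' (Finset.univ_nonempty)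
        (fun y : Tor l => ‖F v y - F 0 y‖)
      refine ⟨y, ?_⟩
      rw [← hy, pi_norm_le_iff_of_nonneg ((norm_nonneg _).trans
        (Finset.le_sup' (fun y : Tor l => ‖F v y - F 0 y‖) (Finset.mem_univ y)))]
      intro i
      exact Finset.le_sup' (fun y : Tor l => ‖F v y - F 0 y‖) (Finset.mem_univ i)
    calc ‖F v - F 0‖ ^ 2 ≤ ‖F v y - F 0 y‖ ^ 2 := pow_le_pow_left₀ (norm_nonneg _) hy 2
      _ ≤ _ := Finset.single_le_sum (f := fun y : Tor l => ‖F v y - F 0 y‖ ^ 2)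
          (fun _ _ => sq_nonneg _) (Finset.mem_univ y)
  have h5 : VV z (exM B hG (vac l W) v) = 1 / 2 * ∑ y : Tor l, ‖F v y - F 0 y‖ ^ 2 := by
    rw [VV_eq hz, Finset.mul_sum]
    refine Finset.sum_congr rfl fun y _ => ?_
    have e1 : F v y = mt (plT (exM B hG (vac l W) v) y) := by rw [PM_eq, hF]
    have e2 : F 0 y = twT z y • (1 : Mat N) := by
      rw [← hpl y, hF]
      have := PM_eq B hG (vac l W) 0 y
      rw [exM_zero] at this
      exact this.symm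
    rw [e1, e2]
  rw [h5]
  have h6 : ‖v‖ ^ 2 ≤ (2 * K * ‖F v - F 0‖) ^ 2 := pow_le_pow_left₀ (norm_nonneg _) h3 2
  calc 1 / (8 * (K : ℝ) ^ 2) * ‖v‖ ^ 2 ≤ 1 / (8 * (K : ℝ) ^ 2) * (2 * K * ‖F v - F 0‖) ^ 2 :=
        mul_le_mul_of_nonneg_left h6 (by positivity)
    _ = 1 / 2 * ‖F v - F 0‖ ^ 2 := by field_simp; ring
    _ ≤ _ := mul_le_mul_of_nonneg_left h4 (by norm_num)

/-- **All facts about the fibre potential.** -/
theorem v_facts [NeZero N] [NeZero l] {z : ℂ} (hz : IsPrimitiveRoot z N) {n : ℕ}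
    (B : Frame (SU N) n) (hG : IsClosed (SU N : Set (UN N))) :
    ∃ (φ₀ : Tor l × Fin 2 → SU N)
      (P : (Tor l × Fin 2 → Fin n → ℝ) →ₗ[ℝ] (Tor l → Fin n → ℝ))
      (Zc : Subgroup (Tor l → SU N)) (δ₀ c₀ : ℝ),
      SliceD B hG sE tE φ₀ P Zc δ₀ c₀ ∧ Finite Zc ∧
      (∀ ζ ∈ Zc, ∀ k : Tor l → SU N, ζ * k = k * ζ) ∧
      Continuous (VV z : (Tor l × Fin 2 → SU N) → ℝ) ∧
      (∀ φ : Tor l × Fin 2 → SU N, 0 ≤ VV z φ) ∧
      (∀ (h : Tor l → SU N) (φ : Tor l × Fin 2 → SU N), VV z (act sE tE h φ) = VV z φ) ∧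
      (∀ φ : Tor l × Fin 2 → SU N, VV z φ = 0 → ∃ h, φ = act sE tE h φ₀) ∧
      (∃ c > (0 : ℝ), ∀ᶠ v in 𝓝 (0 : Tor l × Fin 2 → Fin n → ℝ), P v = 0 →
        c * ‖v‖ ^ 2 ≤ VV z (exM B hG φ₀ v)) ∧
      (∃ C : ℝ, ∀ φ : Tor l × Fin 2 → SU N, VV z φ ≤ C * nM φ₀ φ) := by
  obtain ⟨W⟩ := exists_TwP hz
  obtain ⟨P, hP⟩ := LinearMap.exists_leftInverse_of_injective (Jl B (sE (l := l)) tE (vac l W))
    (Jl_ker hz W B hG)
  obtain ⟨c₀, hc₀, hdisc⟩ := ZcS_disc (l := l) (N := N)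
  obtain ⟨δ₀, hδ₀, huniq⟩ := slice_unique B hG sE tE (vac l W) P (ZcS N l) hP
    (fun h hh => ZcS_stab hz W hh) (fun h hh φ => ZcS_triv hh φ)
  obtain ⟨c, hc, hloc⟩ := VV_local hz W B hG P hP
  exact ⟨vac l W, P, ZcS N l, δ₀, c₀,
    { left := hP
      stab := fun h hh => ZcS_stab hz W hh
      triv := fun h hh φ => ZcS_triv hh φ
      pos := hδ₀
      uniq := huniq
      cpos := hc₀
      disc := hdisc }, ZcS_finite, fun ζ hζ k => ZcS_comm hζ k, VV_cont z, VV_nonneg hz,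
    fun h φ => VV_act z h φ, fun φ h0 => VV_zero_orbit hz W φ h0, ⟨c, hc, hloc⟩,
    ⟨_, fun φ => VV_upper hz (VV_vac hz W) φ⟩⟩

end

end Pool.Agent.N984.TW
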