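import Mathlib
import Pool.Agent.N838.TW.VFacts
import Pool.Agent.N838.TW.Spec1

/-!
# The spectrum of the linearised twisted theory on the torus: sharp lower bounds
-/

open MeasureTheory Matrix Filter
open scoped Matrix.Norms.Frobenius Topology
open Pool.Agent.H906R3.YM Pool.Agent.W793.YM Pool.Agent.TH618.YM

namespace Pool.Agent.N984.TW

set_option linter.unusedSectionVars false

noncomputable section

variable {N l n : ℕ}

/-- squared length of Lie algebra valued functions in coordinates -/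
def sq {I : Type*} [Fintype I] (v : I → Fin n → ℝ) : ℝ := ∑ i, ∑ a, v i a ^ 2

section adm

variable {G : Subgroup (UN N)} (B : Frame G n)

lemma norm_LX (x : Fin n → ℝ) : ‖LX B x‖ ^ 2 = ∑ a, x a ^ 2 := by
  have h1 : ip (LX B x) (LX B x) = ∑ a, x a * ip (B.X a) (LX B x) := by
    rw [ip_comm]
    conv_lhs => rw [show LX B x = ∑ a, x a • B.X a from rfl]
    rw [map_sum]
    refine Finset.sum_congr rfl fun a _ => ?_
    rw [map_smul, smul_eq_mul, ip_comm]
    rfl
  rw [norm_sq_ip, h1]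
  refine Finset.sum_congr rfl fun a _ => ?_
  have h2 : ip (B.X a) (LX B x) = x a := congrFun (pc_LX B x) a
  rw [h2]; ring

lemma AdM_norm (g : G) (x : Fin n → ℝ) : ∑ a, AdM B g x a ^ 2 = ∑ a, x a ^ 2 := by
  rw [← norm_LX B, ← norm_LX B, LX_AdM, norm_mt_mul]
  have h : (mt g)ᴴ = mt g⁻¹ := (mt_inv g).symm
  rw [h, norm_mul_unit]

lemma AdM_mul (g h : G) (x : Fin n → ℝ) : AdM B (g * h) x = AdM B g (AdM B h x) := by
  refine LX_inj B ?_
  rw [LX_AdM, LX_AdM, LX_AdM, mt_mul, conjTranspose_mul]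
  simp only [mul_assoc]

lemma AdM_one (x : Fin n → ℝ) : AdM B (1 : G) x = x := by
  refine LX_inj B ?_
  rw [LX_AdM, mt_one, conjTranspose_one, mul_one, one_mul]

/-- `AdM` as a linear map -/
def AdL (g : G) : (Fin n → ℝ) →ₗ[ℝ] (Fin n → ℝ) where
  toFun := AdM B g
  map_add' := AdM_add B g
  map_smul' := AdM_smul B g

end adm

lemma AdM_scal [NeZero N] (B : Frame (SU N) n) (c : rootsOfUnity N ℂ) (x : Fin n → ℝ) :
    AdM B (scal N c) x = x := by
  refine LX_inj B ?_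
  rw [LX_AdM]
  have h1 : mt (scal N c) * (mt (scal N c))ᴴ = 1 := rhoG_unit (G := SU N) (scal N c)
  have h2 : mt (scal N c) * LX B x = LX B x * mt (scal N c) := by
    rw [mt_scal, smul_mul_assoc, one_mul, mul_smul_comm, mul_one]
  rw [← mul_assoc, h2, mul_assoc, h1, mul_one]

/-- the covariant shift in direction `j` -/
def Sh (B : Frame (SU N) n) (φ : Tor l × Fin 2 → SU N) (j : Fin 2) :
    (Tor l → Fin n → ℝ) →ₗ[ℝ] (Tor l → Fin n → ℝ) where
  toFun v := fun y => AdM B (φ (y, j)) (v (y + uT l j))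
  map_add' v w := by funext y; exact AdM_add B _ _ _
  map_smul' c v := by funext y; exact AdM_smul B _ _ _

/-- the inverse covariant shift in direction `j` -/
def Shi (B : Frame (SU N) n) (φ : Tor l × Fin 2 → SU N) (j : Fin 2) :
    (Tor l → Fin n → ℝ) →ₗ[ℝ] (Tor l → Fin n → ℝ) where
  toFun v := fun y => AdM B (φ (y - uT l j, j))⁻¹ (v (y - uT l j))
  map_add' v w := by funext y; exact AdM_add B _ _ _
  map_smul' c v := by funext y; exact AdM_smul B _ _ _

lemma Sh_apply (B : Frame (SU N) n) (φ : Tor l × Fin 2 → SU N) (j : Fin 2)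
    (v : Tor l → Fin n → ℝ) (y : Tor l) : Sh B φ j v y = AdM B (φ (y, j)) (v (y + uT l j)) := rfl

lemma Shi_apply (B : Frame (SU N) n) (φ : Tor l × Fin 2 → SU N) (j : Fin 2)
    (v : Tor l → Fin n → ℝ) (y : Tor l) :
    Shi B φ j v y = AdM B (φ (y - uT l j, j))⁻¹ (v (y - uT l j)) := rfl

lemma Sh_Shi (B : Frame (SU N) n) (φ : Tor l × Fin 2 → SU N) (j : Fin 2)
    (v : Tor l → Fin n → ℝ) : Sh B φ j (Shi B φ j v) = v := by
  funext y
  rw [Sh_apply, Shi_apply, add_sub_cancel_right, ← AdM_mul, mul_inv_cancel, AdM_one]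

lemma Shi_Sh (B : Frame (SU N) n) (φ : Tor l × Fin 2 → SU N) (j : Fin 2)
    (v : Tor l → Fin n → ℝ) : Shi B φ j (Sh B φ j v) = v := by
  funext y
  rw [Shi_apply, Sh_apply, sub_add_cancel, ← AdM_mul, inv_mul_cancel, AdM_one]

lemma Sh_sq [NeZero l] (B : Frame (SU N) n) (φ : Tor l × Fin 2 → SU N) (j : Fin 2)
    (v : Tor l → Fin n → ℝ) : sq (Sh B φ j v) = sq v := by
  unfold sq
  simp only [Sh_apply, AdM_norm]
  exact Equiv.sum_comp (Equiv.addRight (uT l j)) (fun y => ∑ a, v y a ^ 2)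

/-- the covariant shifts at a flat connection commute -/
lemma Sh_comm [NeZero N] {z : ℂ} (hz : IsPrimitiveRoot z N) (B : Frame (SU N) n)
    {φ : Tor l × Fin 2 → SU N}
    (hf : Pool.Agent.N838.Flat.IsFlat (scal N) (Pool.Agent.N838.Flat.stdTwist (zr hz)) (cur φ))
    (v : Tor l → Fin n → ℝ) : Sh B φ 0 (Sh B φ 1 v) = Sh B φ 1 (Sh B φ 0 v) := by
  funext y
  simp only [Sh_apply, ← AdM_mul]
  have h1 : φ (y, 0) * φ (y + uT l 0, 1) =
      scal N (Pool.Agent.N838.Flat.stdTwist (zr hz) y) * φ (y, 1) * φ (y + uT l 1, 0) := hf y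
  have e : y + uT l 0 + uT l 1 = y + uT l 1 + uT l 0 := by abel
  rw [h1, e, mul_assoc, AdM_mul, AdM_scal]

lemma AdM_of_scalar (B : Frame (SU N) n) {g : SU N} {c : ℂ} (hg : mt g = c • (1 : Mat N))
    (x : Fin n → ℝ) : AdM B g x = x := by
  refine LX_inj B ?_
  rw [LX_AdM]
  have h1 : mt g * (mt g)ᴴ = 1 := rhoG_unit (G := SU N) g
  have h2 : mt g * LX B x = LX B x * mt g := by
    rw [hg, smul_mul_assoc, one_mul, mul_smul_comm, mul_one]
  rw [← mul_assoc, h2, mul_assoc, h1, mul_one]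

/-- the generators of the vacuum -/
def gX {z : ℂ} (W : TwP N z) (j : Fin 2) : SU N := if j = 0 then W.A else W.B

/-- the coordinate in direction `j` -/
def cj (j : Fin 2) (y : Tor l) : ZMod l := if j = 0 then y.1 else y.2

lemma vac_eq {z : ℂ} (W : TwP N z) (y : Tor l) (j : Fin 2) :
    vac l W (y, j) = if cj j y = -1 then gX W j else 1 := by
  fin_cases j <;> rfl

lemma cj_add (j : Fin 2) (y : Tor l) : cj j (y + uT l j) = cj j y + 1 := by
  fin_cases j <;> rfl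

/-- the number of visits at `-1` -/
def cnt (c : ZMod l) (k : ℕ) : ℕ := ∑ i ∈ Finset.range k, if c + i = -1 then 1 else 0

lemma cnt_succ (c : ZMod l) (k : ℕ) :
    cnt c (k + 1) = (if c = -1 then 1 else 0) + cnt (c + 1) k := by
  unfold cnt
  rw [Finset.sum_range_succ', add_comm]
  congr 1
  · simp
  · refine Finset.sum_congr rfl fun i _ => ?_
    have e : c + ((i + 1 : ℕ) : ZMod l) = c + 1 + (i : ZMod l) := by push_cast; ring
    rw [e]

lemma cnt_l [NeZero l] (c : ZMod l) : cnt c l = 1 := by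
  unfold cnt
  have h1 : ∑ i ∈ Finset.range l, (if c + (i : ZMod l) = -1 then 1 else 0) =
      ∑ j : ZMod l, if c + j = -1 then 1 else 0 := by
    refine Finset.sum_bij (fun i _ => (i : ZMod l)) (fun _ _ => Finset.mem_univ _) ?_ ?_
      (fun _ _ => rfl)
    · intro a ha b hb hab
      have := (ZMod.natCast_eq_natCast_iff' a b l).1 hab
      rwa [Nat.mod_eq_of_lt (Finset.mem_range.1 ha), Nat.mod_eq_of_lt (Finset.mem_range.1 hb)] at this
    · intro b _
      exact ⟨b.val, Finset.mem_range.2 (ZMod.val_lt b), ZMod.natCast_zmod_val b⟩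
  rw [h1, Finset.sum_eq_single (-1 - c)]
  · rw [if_pos (by ring)]
  · intro b _ hb
    rw [if_neg]
    intro h
    exact hb (by rw [← h]; ring)
  · intro h
    exact absurd (Finset.mem_univ _) h

/-- powers of the covariant shifts at the vacuum -/
lemma Sh_pow (B : Frame (SU N) n) {z : ℂ} (W : TwP N z) (j : Fin 2) (k : ℕ) :
    ∀ (v : Tor l → Fin n → ℝ) (y : Tor l), ((Sh B (vac l W) j) ^ k) v y =
      AdM B (gX W j ^ cnt (cj j y) k) (v (y + k • uT l j)) := by
  induction k with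
  | zero =>
    intro v y
    rw [pow_zero, Module.End.one_apply, zero_smul, add_zero]
    have : cnt (cj j y) 0 = 0 := rfl
    rw [this, pow_zero, AdM_one]
  | succ k ih =>
    intro v y
    rw [pow_succ', Module.End.mul_apply, Sh_apply, ih, ← AdM_mul, cnt_succ, cj_add, vac_eq, pow_add]
    have e : y + uT l j + k • uT l j = y + (k + 1) • uT l j := by
      rw [add_smul, one_smul]; abel
    rw [e]
    congr 2
    by_cases h : cj j y = -1
    · rw [if_pos h, if_pos h, pow_one]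
    · rw [if_neg h, if_neg h, pow_zero]

lemma smul_uT (j : Fin 2) : l • uT l j = 0 := by
  unfold uT
  split_ifs <;> ext <;> simp

lemma Sh_pow_l [NeZero l] (B : Frame (SU N) n) {z : ℂ} (W : TwP N z) (j : Fin 2)
    (v : Tor l → Fin n → ℝ) (y : Tor l) :
    ((Sh B (vac l W) j) ^ l) v y = AdM B (gX W j) (v y) := by
  rw [Sh_pow, cnt_l, pow_one, smul_uT, add_zero]

lemma gX_pow [NeZero N] {z : ℂ} (hz : IsPrimitiveRoot z N) (W : TwP N z) (j : Fin 2) :
    ∃ c : ℂ, mt (gX W j ^ N) = c • (1 : Mat N) := by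
  rw [mt_pow]
  fin_cases j
  · exact ⟨_, Pool.Agent.N838.Twist.pow_N hz (mt_mem_S W.A) (mt_mem_S W.B) W.hAB⟩
  · exact ⟨_, Pool.Agent.N838.Twist.pow_N hz.inv (mt_mem_S W.B) (mt_mem_S W.A)
      (Pool.Agent.N838.Twist.swap (hz.ne_zero (NeZero.ne N)) W.hAB)⟩

/-- the covariant shifts have order dividing `N l` -/
lemma Sh_pow_Nl [NeZero l] [NeZero N] (B : Frame (SU N) n) {z : ℂ} (hz : IsPrimitiveRoot z N)
    (W : TwP N z) (j : Fin 2) (v : Tor l → Fin n → ℝ) :
    ((Sh B (vac l W) j) ^ (N * l)) v = v := by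
  have h1 : ∀ (k : ℕ) (v : Tor l → Fin n → ℝ) (y : Tor l),
      (((Sh B (vac l W) j) ^ l) ^ k) v y = AdM B (gX W j ^ k) (v y) := by
    intro k
    induction k with
    | zero =>
      intro v y
      rw [pow_zero, Module.End.one_apply, pow_zero, AdM_one]
    | succ k ih =>
      intro v y
      rw [pow_succ', Module.End.mul_apply, Sh_pow_l, ih, ← AdM_mul, ← pow_succ']
  obtain ⟨c, hc⟩ := gX_pow hz W j
  funext y
  rw [mul_comm N l, pow_mul, h1, AdM_of_scalar B hc]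

/-! ### transfer to a Euclidean space -/

section euc

variable {I : Type*} [Fintype I]

/-- the coordinates as a Euclidean space -/
def EL : EuclideanSpace ℝ (I × Fin n) ≃ₗ[ℝ] (I → Fin n → ℝ) where
  toFun v := fun i a => v (i, a)
  map_add' _ _ := rfl
  map_smul' _ _ := rfl
  invFun v := WithLp.toLp 2 fun p => v p.1 p.2
  left_inv _ := rfl
  right_inv _ := rfl

lemma EL_norm (v : EuclideanSpace ℝ (I × Fin n)) : ‖v‖ ^ 2 = sq (EL v) := by
  rw [EuclideanSpace.norm_sq_eq, Fintype.sum_prod_type]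
  unfold sq
  refine Finset.sum_congr rfl fun i _ => Finset.sum_congr rfl fun a _ => ?_
  rw [Real.norm_eq_abs, sq_abs]
  rfl

/-- a linear map in the Euclidean space -/
def ES (S : (I → Fin n → ℝ) →ₗ[ℝ] (I → Fin n → ℝ)) :
    EuclideanSpace ℝ (I × Fin n) →ₗ[ℝ] EuclideanSpace ℝ (I × Fin n) :=
  EL.symm.toLinearMap ∘ₗ S ∘ₗ EL.toLinearMap

lemma EL_ES (S : (I → Fin n → ℝ) →ₗ[ℝ] (I → Fin n → ℝ)) (v : EuclideanSpace ℝ (I × Fin n)) :
    EL (ES S v) = S (EL v) := rfl

lemma ES_norm {S : (I → Fin n → ℝ) →ₗ[ℝ] (I → Fin n → ℝ)} (hS : ∀ v, sq (S v) = sq v)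
    (v : EuclideanSpace ℝ (I × Fin n)) : ‖ES S v‖ = ‖v‖ := by
  have h : ‖ES S v‖ ^ 2 = ‖v‖ ^ 2 := by rw [EL_norm, EL_norm, EL_ES, hS]
  have h0 := norm_nonneg (ES S v)
  have h1 := norm_nonneg v
  nlinarith

lemma ES_pow (S : (I → Fin n → ℝ) →ₗ[ℝ] (I → Fin n → ℝ)) (k : ℕ)
    (v : EuclideanSpace ℝ (I × Fin n)) : EL (((ES S) ^ k) v) = (S ^ k) (EL v) := by
  induction k with
  | zero => rfl
  | succ k ih => rw [pow_succ', Module.End.mul_apply, EL_ES, ih, pow_succ', Module.End.mul_apply]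

/-- the gap of two commuting isometries in coordinates -/
theorem sq_two_gap {S T : (I → Fin n → ℝ) →ₗ[ℝ] (I → Fin n → ℝ)} (hS : ∀ v, sq (S v) = sq v)
    (hT : ∀ v, sq (T v) = sq v) (hST : ∀ v, S (T v) = T (S v)) {m : ℕ} (hm : 0 < m)
    (hSm : ∀ v, (S ^ m) v = v) (hTm : ∀ v, (T ^ m) v = v)
    (hfix : ∀ v, S v = v → T v = v → v = 0) (v : I → Fin n → ℝ) :
    4 * Real.sin (Real.pi / m) ^ 2 * sq v ≤ sq (v - S v) + sq (v - T v) := by
  have h := Pool.Agent.N838.Spec.two_gap (S := ES S) (T := ES T) (ES_norm hS) (ES_norm hT)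
    (fun v => EL.injective (by rw [EL_ES, EL_ES, hST, EL_ES, EL_ES])) hm
    (fun v => EL.injective (by rw [ES_pow, hSm]))
    (fun v => EL.injective (by rw [ES_pow, hTm]))
    (fun v h1 h2 => EL.injective (by
      rw [map_zero]
      exact hfix _ (by rw [← EL_ES, h1]) (by rw [← EL_ES, h2]))) (EL.symm v)
  rw [EL_norm, EL_norm, EL_norm, map_sub, map_sub, EL_ES, EL_ES, LinearEquiv.apply_symm_apply] at h
  exact h

/-- the identity for one-forms in coordinates -/
theorem sq_one_form {S T S' T' : (I → Fin n → ℝ) →ₗ[ℝ] (I → Fin n → ℝ)}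
    (hS : ∀ v, sq (S v) = sq v) (hT : ∀ v, sq (T v) = sq v) (hST : ∀ v, S (T v) = T (S v))
    (hS1 : ∀ v, S (S' v) = v) (hT1 : ∀ v, T (T' v) = v) (hT2 : ∀ v, T' (T v) = v)
    (a b : I → Fin n → ℝ) :
    sq ((a - T a) - (b - S b)) + sq ((a - S' a) + (b - T' b)) =
      sq (a - S a) + sq (a - T a) + sq (b - S b) + sq (b - T b) := by
  have h := Pool.Agent.N838.Spec.one_form (S := ES S) (T := ES T) (S' := ES S') (T' := ES T')
    (ES_norm hS) (ES_norm hT)
    (fun v => EL.injective (by rw [EL_ES, EL_ES, hST, EL_ES, EL_ES]))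
    (fun v => EL.injective (by rw [EL_ES, EL_ES, hS1]))
    (fun v => EL.injective (by rw [EL_ES, EL_ES, hT1]))
    (fun v => EL.injective (by rw [EL_ES, EL_ES, hT2])) (EL.symm a) (EL.symm b)
  simp only [EL_norm, map_sub, map_add, EL_ES, LinearEquiv.apply_symm_apply] at h
  exact h

end euc

/-! ### the bounds -/

/-- the gap -/
def M2 (N l : ℕ) : ℝ := 4 * Real.sin (Real.pi / ((N * l : ℕ) : ℝ)) ^ 2

/-- components of a one-form -/
def cmp (al : Tor l × Fin 2 → Fin n → ℝ) (j : Fin 2) : Tor l → Fin n → ℝ := fun y => al (y, j)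

lemma sq_cmp [NeZero l] (al : Tor l × Fin 2 → Fin n → ℝ) :
    sq al = sq (cmp al 0) + sq (cmp al 1) := by
  unfold sq cmp
  rw [Fintype.sum_prod_type, ← Finset.sum_add_distrib]
  refine Finset.sum_congr rfl fun y _ => ?_
  rw [Fin.sum_univ_two]

lemma cmp_Jl (B : Frame (SU N) n) (φ : Tor l × Fin 2 → SU N) (om : Tor l → Fin n → ℝ)
    (j : Fin 2) : cmp (Jl B sE tE φ om) j = om - Sh B φ j om := rfl

/-- the gap of the covariant shifts at the vacuum -/
theorem Sh_gap [NeZero l] [NeZero N] {z : ℂ} (hz : IsPrimitiveRoot z N) (W : TwP N z)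
    (B : Frame (SU N) n) (hG : IsClosed (SU N : Set (UN N))) (om : Tor l → Fin n → ℝ) :
    M2 N l * sq om ≤ sq (om - Sh B (vac l W) 0 om) + sq (om - Sh B (vac l W) 1 om) := by
  have hm : 0 < N * l := Nat.mul_pos (Nat.pos_of_ne_zero (NeZero.ne N))
    (Nat.pos_of_ne_zero (NeZero.ne l))
  show 4 * Real.sin (Real.pi / ((N * l : ℕ) : ℝ)) ^ 2 * sq om ≤ _
  refine sq_two_gap (S := Sh B (vac l W) 0) (T := Sh B (vac l W) 1) (Sh_sq B (vac l W) 0)
    (Sh_sq B (vac l W) 1) (Sh_comm hz B (vac_flat (l := l) hz W)) hm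
    (Sh_pow_Nl B hz W 0) (Sh_pow_Nl B hz W 1) ?_ om
  intro v h0 h1
  have hk := Jl_ker (l := l) hz W B hG
  rw [LinearMap.ker_eq_bot'] at hk
  refine hk v ?_
  funext e
  obtain ⟨y, j⟩ := e
  have h2 : cmp (Jl B sE tE (vac l W) v) j = 0 := by
    rw [cmp_Jl]
    fin_cases j
    · exact sub_eq_zero.2 h0.symm
    · exact sub_eq_zero.2 h1.symm
  exact congrFun h2 y

/-- **The sharp bound for gauge transformations.** -/
theorem spec_zero [NeZero l] [NeZero N] {z : ℂ} (hz : IsPrimitiveRoot z N) (W : TwP N z)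
    (B : Frame (SU N) n) (hG : IsClosed (SU N : Set (UN N))) (om : Tor l → Fin n → ℝ) :
    M2 N l * sq om ≤ sq (Jl B sE tE (vac l W) om) := by
  rw [sq_cmp, cmp_Jl, cmp_Jl]
  exact Sh_gap hz W B hG om

/-- the linearised plaquettes in coordinates -/
def J1c (B : Frame (SU N) n) (φ : Tor l × Fin 2 → SU N) (al : Tor l × Fin 2 → Fin n → ℝ) :
    Tor l → Fin n → ℝ := fun y =>
  al (y, 0) + AdM B (φ (y, 0)) (al (y + uT l 0, 1)) - AdM B (φ (y, 1)) (al (y + uT l 1, 0)) -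
    al (y, 1)

/-- the adjoint of the infinitesimal gauge action in coordinates -/
def Jst (B : Frame (SU N) n) (φ : Tor l × Fin 2 → SU N) (al : Tor l × Fin 2 → Fin n → ℝ) :
    Tor l → Fin n → ℝ := fun y =>
  (al (y, 0) - AdM B (φ (y - uT l 0, 0))⁻¹ (al (y - uT l 0, 0))) +
    (al (y, 1) - AdM B (φ (y - uT l 1, 1))⁻¹ (al (y - uT l 1, 1)))

lemma J1c_eq (B : Frame (SU N) n) (φ : Tor l × Fin 2 → SU N) (al : Tor l × Fin 2 → Fin n → ℝ) :
    J1c B φ al = (cmp al 0 - Sh B φ 1 (cmp al 0)) - (cmp al 1 - Sh B φ 0 (cmp al 1)) := by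
  funext y
  show al (y, 0) + AdM B (φ (y, 0)) (al (y + uT l 0, 1)) -
    AdM B (φ (y, 1)) (al (y + uT l 1, 0)) - al (y, 1) =
    (al (y, 0) - AdM B (φ (y, 1)) (al (y + uT l 1, 0))) -
      (al (y, 1) - AdM B (φ (y, 0)) (al (y + uT l 0, 1)))
  abel

lemma Jst_eq (B : Frame (SU N) n) (φ : Tor l × Fin 2 → SU N) (al : Tor l × Fin 2 → Fin n → ℝ) :
    Jst B φ al = (cmp al 0 - Shi B φ 0 (cmp al 0)) + (cmp al 1 - Shi B φ 1 (cmp al 1)) := rfl

/-- **The Weitzenböck identity** at a flat connection. -/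
theorem weitz [NeZero l] [NeZero N] {z : ℂ} (hz : IsPrimitiveRoot z N) (B : Frame (SU N) n)
    {φ : Tor l × Fin 2 → SU N}
    (hf : Pool.Agent.N838.Flat.IsFlat (scal N) (Pool.Agent.N838.Flat.stdTwist (zr hz)) (cur φ))
    (al : Tor l × Fin 2 → Fin n → ℝ) :
    sq (J1c B φ al) + sq (Jst B φ al) =
      sq (Jl B sE tE φ (cmp al 0)) + sq (Jl B sE tE φ (cmp al 1)) := by
  rw [J1c_eq, Jst_eq, sq_cmp (Jl B sE tE φ (cmp al 0)), sq_cmp (Jl B sE tE φ (cmp al 1)),
    cmp_Jl, cmp_Jl, cmp_Jl, cmp_Jl,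
    sq_one_form (Sh_sq B φ 0) (Sh_sq B φ 1) (Sh_comm hz B hf) (Sh_Shi B φ 0) (Sh_Shi B φ 1)
      (Shi_Sh B φ 1)]
  ring

/-- **The sharp bound for one-forms.** -/
theorem spec_one [NeZero l] [NeZero N] {z : ℂ} (hz : IsPrimitiveRoot z N) (W : TwP N z)
    (B : Frame (SU N) n) (hG : IsClosed (SU N : Set (UN N))) (al : Tor l × Fin 2 → Fin n → ℝ) :
    M2 N l * sq al ≤ sq (J1c B (vac l W) al) + sq (Jst B (vac l W) al) := by
  rw [weitz hz B (vac_flat hz W), sq_cmp al, mul_add]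
  exact add_le_add (spec_zero hz W B hG _) (spec_zero hz W B hG _)

lemma AdM_inner {G : Subgroup (UN N)} (B : Frame G n) (g : G) (x y : Fin n → ℝ) :
    ∑ a, AdM B g x a * AdM B g y a = ∑ a, x a * y a := by
  have h1 := AdM_norm B g (x + y)
  have h2 := AdM_norm B g x
  have h3 := AdM_norm B g y
  rw [AdM_add] at h1
  have e : ∀ u v : Fin n → ℝ, ∑ a, (u + v) a ^ 2 =
      ∑ a, u a ^ 2 + ∑ a, v a ^ 2 + 2 * ∑ a, u a * v a := by
    intro u v
    rw [Finset.mul_sum, ← Finset.sum_add_distrib, ← Finset.sum_add_distrib]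
    refine Finset.sum_congr rfl fun a _ => ?_
    rw [Pi.add_apply]; ring
  rw [e, e] at h1
  linarith

lemma AdM_adj {G : Subgroup (UN N)} (B : Frame G n) (g : G) (x y : Fin n → ℝ) :
    ∑ a, AdM B g x a * y a = ∑ a, x a * AdM B g⁻¹ y a := by
  have h : AdM B g (AdM B g⁻¹ y) = y := by rw [← AdM_mul, mul_inv_cancel, AdM_one]
  conv_lhs => rw [← h]
  exact AdM_inner B g x _

/-- `Jst` is the adjoint of `Jl`. -/
theorem Jst_adj [NeZero l] (B : Frame (SU N) n) (φ : Tor l × Fin 2 → SU N)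
    (om : Tor l → Fin n → ℝ) (al : Tor l × Fin 2 → Fin n → ℝ) :
    ∑ e, ∑ a, Jl B sE tE φ om e a * al e a = ∑ y, ∑ a, om y a * Jst B φ al y a := by
  have h1 : ∀ j : Fin 2, ∑ y : Tor l, ∑ a, Jl B sE tE φ om (y, j) a * al (y, j) a =
      ∑ y : Tor l, ∑ a, om y a *
        (al (y, j) - AdM B (φ (y - uT l j, j))⁻¹ (al (y - uT l j, j))) a := by
    intro j
    have e1 : ∀ y : Tor l, ∑ a, Jl B sE tE φ om (y, j) a * al (y, j) a =
        ∑ a, om y a * al (y, j) a -
          ∑ a, om (y + uT l j) a * AdM B (φ (y, j))⁻¹ (al (y, j)) a := by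
      intro y
      rw [← AdM_adj, ← Finset.sum_sub_distrib]
      refine Finset.sum_congr rfl fun a _ => ?_
      show (om y a - AdM B (φ (y, j)) (om (y + uT l j)) a) * al (y, j) a = _
      ring
    have e2 : ∀ y : Tor l, ∑ a, om y a *
        (al (y, j) - AdM B (φ (y - uT l j, j))⁻¹ (al (y - uT l j, j))) a =
        ∑ a, om y a * al (y, j) a -
          ∑ a, om y a * AdM B (φ (y - uT l j, j))⁻¹ (al (y - uT l j, j)) a := by
      intro y
      rw [← Finset.sum_sub_distrib]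
      refine Finset.sum_congr rfl fun a _ => ?_
      rw [Pi.sub_apply]; ring
    simp only [e1, e2, Finset.sum_sub_distrib]
    congr 1
    rw [← Equiv.sum_comp (Equiv.addRight (uT l j)) (fun y => ∑ a, om y a *
      AdM B (φ (y - uT l j, j))⁻¹ (al (y - uT l j, j)) a)]
    refine Finset.sum_congr rfl fun y _ => ?_
    rw [Equiv.coe_addRight, add_sub_cancel_right]
  rw [Fintype.sum_prod_type]
  have h2 : ∀ y : Tor l, ∑ j : Fin 2, ∑ a, Jl B sE tE φ om (y, j) a * al (y, j) a =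
      ∑ a, Jl B sE tE φ om (y, 0) a * al (y, 0) a + ∑ a, Jl B sE tE φ om (y, 1) a * al (y, 1) a :=
    fun y => Fin.sum_univ_two _
  simp only [h2, Finset.sum_add_distrib, h1]
  rw [← Finset.sum_add_distrib]
  refine Finset.sum_congr rfl fun y _ => ?_
  rw [← Finset.sum_add_distrib]
  refine Finset.sum_congr rfl fun a _ => ?_
  show _ = om y a * ((al (y, 0) - AdM B (φ (y - uT l 0, 0))⁻¹ (al (y - uT l 0, 0))) +
    (al (y, 1) - AdM B (φ (y - uT l 1, 1))⁻¹ (al (y - uT l 1, 1)))) a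
  rw [Pi.add_apply]
  ring

end

end Pool.Agent.N984.TW
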