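import Mathlib
import Pool.Agent.N838.TW.Spec2

/-!
# The spectrum of the linearised twisted theory on the torus: the bound is attained
-/

open MeasureTheory Matrix Filter
open scoped Matrix.Norms.Frobenius Topology
open Pool.Agent.H906R3.YM Pool.Agent.W793.YM Pool.Agent.TH618.YM

namespace Pool.Agent.N984.TW

set_option linter.unusedSectionVars false

noncomputable section

variable {N l n : ℕ}

/-- the determinant of the exponential of a skew-hermitian matrix -/
lemma det_exp_skew {Y : Mat N} (hY : Yᴴ = -Y) :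
    (NormedSpace.exp Y : Mat N).det = Complex.exp Y.trace := by
  obtain ⟨H, hH⟩ : ∃ H, H = (-Complex.I) • Y := ⟨_, rfl⟩
  have hX : Y = Complex.I • H := by
    rw [hH, smul_smul]; simp
  have hherm : H.IsHermitian := by
    show Hᴴ = H
    rw [hH, conjTranspose_smul, hY]
    simp
  have hs := hherm.spectral_theorem
  obtain ⟨U, hU⟩ : ∃ U : Mat N, U = (hherm.eigenvectorUnitary : Mat N) := ⟨_, rfl⟩
  have hU1 : U * star U = 1 := by
    rw [hU]; exact mem_unitaryGroup_iff.1 hherm.eigenvectorUnitary.2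
  have hU2 : star U * U = 1 := by
    rw [hU]; exact mem_unitaryGroup_iff'.1 hherm.eigenvectorUnitary.2
  have hUi : U⁻¹ = star U := Matrix.inv_eq_right_inv hU1
  have hUu : IsUnit U := ⟨⟨U, star U, hU1, hU2⟩, rfl⟩
  have hH2 : H = U * diagonal (RCLike.ofReal ∘ hherm.eigenvalues) * U⁻¹ := by
    rw [hUi, hU]
    exact hs
  have e1 : Y = U * diagonal (fun i => Complex.I * (hherm.eigenvalues i : ℂ)) * U⁻¹ := by
    have e2 : diagonal (fun i => Complex.I * (hherm.eigenvalues i : ℂ)) =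
        Complex.I • (diagonal (RCLike.ofReal ∘ hherm.eigenvalues) : Mat N) := by
      rw [← diagonal_smul]
      congr 1
    rw [e2, mul_smul_comm, smul_mul_assoc, ← hH2]
    exact hX
  have htr : Y.trace = ∑ i, Complex.I * (hherm.eigenvalues i : ℂ) := by
    rw [hX, trace_smul, hherm.trace_eq_sum_eigenvalues, smul_eq_mul, Finset.mul_sum]
    rfl
  rw [htr]
  rw [e1, Matrix.exp_conj _ _ hUu, Matrix.det_conj hUu, Matrix.exp_diagonal, det_diagonal,
    Complex.exp_sum]
  refine Finset.prod_congr rfl fun i _ => ?_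
  rw [Pi.coe_exp, Complex.exp_eq_exp_ℂ]

/-- The frame spans all traceless skew-hermitian matrices. -/
lemma mem_span_of_skew (B : Frame (SU N) n) {Y : Mat N} (hY : Yᴴ = -Y) (htr : Y.trace = 0) :
    Y ∈ Submodule.span ℝ (Set.range B.X) := by
  refine B.full Y fun t => ?_
  have hs : (t • Y)ᴴ = -(t • Y) := by
    rw [conjTranspose_smul, hY, star_trivial, smul_neg]
  have h1 : (NormedSpace.exp (t • Y) : Mat N) * star (NormedSpace.exp (t • Y) : Mat N) = 1 := by
    rw [star_eq_conjTranspose, ← Matrix.exp_conjTranspose, hs,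
      ← Matrix.exp_add_of_commute _ _ ((Commute.refl (t • Y)).neg_right), add_neg_cancel,
      NormedSpace.exp_zero]
  have h2 : (NormedSpace.exp (t • Y) : Mat N).det = 1 := by
    rw [det_exp_skew hs, trace_smul, htr, smul_zero, Complex.exp_zero]
  exact ⟨⟨⟨NormedSpace.exp (t • Y), mem_unitaryGroup_iff.2 h1⟩, h2⟩, rfl⟩

lemma AdC_smul (g : SU N) (c : ℂ) (X : Mat N) : AdC g (c • X) = c • AdC g X := by
  unfold AdC
  rw [smul_mul_assoc, mul_smul_comm]

lemma AdC_sub (g : SU N) (X Y : Mat N) : AdC g (X - Y) = AdC g X - AdC g Y := by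
  unfold AdC
  rw [sub_mul, mul_sub]

lemma AdC_ct (g : SU N) (X : Mat N) : AdC g Xᴴ = (AdC g X)ᴴ := by
  unfold AdC
  rw [conjTranspose_mul, conjTranspose_mul, conjTranspose_conjTranspose, mul_assoc]

lemma AdC_inv (g : SU N) (X : Mat N) : AdC g⁻¹ (AdC g X) = X := by
  unfold AdC
  have h1 : (mt g)ᴴ * mt g = 1 := rhoG_unit' _
  rw [mt_inv, conjTranspose_conjTranspose]
  calc (mt g)ᴴ * (mt g * (X * (mt g)ᴴ) * mt g) = ((mt g)ᴴ * mt g) * X * ((mt g)ᴴ * mt g) := by
        simp only [mul_assoc]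
    _ = X := by rw [h1, one_mul, mul_one]

lemma AdC_one (X : Mat N) : AdC (1 : SU N) X = X := by
  unfold AdC
  rw [mt_one, conjTranspose_one, mul_one, one_mul]

/-- an eigenvector of the conjugations by the holonomies -/
lemma exists_eig [NeZero N] (hN : 2 ≤ N) {z : ℂ} (hz : IsPrimitiveRoot z N) (W : TwP N z) :
    ∃ X : Mat N, X.trace = 0 ∧ X - Xᴴ ≠ 0 ∧
      AdC W.A X = Complex.exp (2 * Real.pi * Complex.I / N) • X ∧ AdC W.B X = X := by
  obtain ⟨ω, hω⟩ : ∃ ω, ω = Complex.exp (2 * Real.pi * Complex.I / N) := ⟨_, rfl⟩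
  have hωp : IsPrimitiveRoot ω N := by
    rw [hω]; exact Complex.isPrimitiveRoot_exp N (NeZero.ne N)
  obtain ⟨b, -, hb⟩ := hz.eq_pow_of_pow_eq_one hωp.pow_eq_one
  obtain ⟨X, hX⟩ : ∃ X, X = mt (W.B ^ b) := ⟨_, rfl⟩
  have hAB : ∀ k : ℕ, mt W.A * mt W.B ^ k = z ^ k • (mt W.B ^ k * mt W.A) := by
    intro k
    induction k with
    | zero => simp
    | succ k ih =>
      rw [pow_succ, ← mul_assoc, ih, smul_mul_assoc, mul_assoc, W.hAB, mul_smul_comm, smul_smul,
        ← mul_assoc, ← pow_succ, ← pow_succ]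
  have hA : AdC W.A X = ω • X := by
    unfold AdC
    have h1 : mt W.A * (mt W.A)ᴴ = 1 := rhoG_unit _
    rw [hX, mt_pow, ← mul_assoc, hAB, smul_mul_assoc, mul_assoc, h1, mul_one, hb]
  have hB : AdC W.B X = X := by
    unfold AdC
    have h1 : mt W.B * (mt W.B)ᴴ = 1 := rhoG_unit _
    rw [hX, mt_pow, ← mul_assoc, ← pow_succ', pow_succ, mul_assoc, h1, mul_one]
  have hω1 : ω ≠ 1 := hωp.ne_one (by omega)
  have htr : X.trace = 0 := by
    have h1 : (AdC W.A X).trace = X.trace := by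
      unfold AdC
      have h2 : (mt W.A)ᴴ * mt W.A = 1 := rhoG_unit' _
      rw [trace_mul_comm, mul_assoc, h2, mul_one]
    rw [hA, trace_smul, smul_eq_mul] at h1
    have h2 : (ω - 1) * X.trace = 0 := by rw [sub_mul, one_mul, h1, sub_self]
    exact (mul_eq_zero.1 h2).resolve_left (sub_ne_zero.2 hω1)
  have hX0 : X ≠ 0 := by
    intro h0
    have h1 : mt (W.B ^ b) * (mt (W.B ^ b))ᴴ = 1 := rhoG_unit (G := SU N) (W.B ^ b)
    rw [← hX, h0, zero_mul] at h1
    have : (1 : Mat N) ≠ 0 := by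
      intro h2
      have h3 := congrFun (congrFun h2 (0 : Fin N)) (0 : Fin N)
      simp at h3
    exact this h1.symm
  by_cases h : X - Xᴴ = 0
  · refine ⟨Complex.I • X, ?_, ?_, ?_, ?_⟩
    · rw [trace_smul, htr, smul_zero]
    · rw [conjTranspose_smul, ← sub_eq_zero.1 h]
      have e : Complex.I • X - star Complex.I • X = (2 * Complex.I) • X := by
        rw [← sub_smul]
        congr 1
        have : star Complex.I = -Complex.I := Complex.conj_I
        rw [this]; ring
      rw [e]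
      exact smul_ne_zero (by simp) hX0
    · rw [AdC_smul, hA, ← hω, smul_comm]
    · rw [AdC_smul, hB]
  · exact ⟨X, htr, h, by rw [hA, ← hω], hB⟩

/-- **The bound is attained**: there is a Lie algebra valued function on the torus, covariantly
constant in direction `1`, which is an eigenvector of the covariant Laplacian with the eigenvalue
`M2 = 4 sin²(π/(N l))`. -/
theorem spec_attained [NeZero l] [NeZero N] (hN : 2 ≤ N) {z : ℂ} (hz : IsPrimitiveRoot z N)
    (W : TwP N z) (B : Frame (SU N) n) :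
    ∃ om : Tor l → Fin n → ℝ, om ≠ 0 ∧ Sh B (vac l W) 1 om = om ∧
      (om - Sh B (vac l W) 0 om) - Shi B (vac l W) 0 (om - Sh B (vac l W) 0 om) = M2 N l • om := by
  obtain ⟨X, htr, hX, hXA, hXB⟩ := exists_eig hN hz W
  obtain ⟨μ, hμ⟩ : ∃ μ, μ = Complex.exp (2 * Real.pi * Complex.I / ((N * l : ℕ) : ℂ)) := ⟨_, rfl⟩
  have hlC : (l : ℂ) ≠ 0 := by exact_mod_cast NeZero.ne l
  have hNC : (N : ℂ) ≠ 0 := by exact_mod_cast NeZero.ne N
  have hμl : μ ^ l = Complex.exp (2 * Real.pi * Complex.I / N) := by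
    rw [hμ, ← Complex.exp_nat_mul]
    congr 1
    push_cast
    field_simp
  obtain ⟨θ, hθ⟩ : ∃ θ : ℝ, θ = Real.pi / ((N * l : ℕ) : ℝ) := ⟨_, rfl⟩
  have hμθ : μ = Complex.exp (((2 * θ : ℝ) : ℂ) * Complex.I) := by
    rw [hμ, hθ]
    congr 1
    push_cast
    ring
  have hμn : ‖μ‖ = 1 := by rw [hμθ]; exact Complex.norm_exp_ofReal_mul_I _
  have hμμ : star μ * μ = 1 := by
    have h := Complex.normSq_eq_conj_mul_self (z := μ)
    rw [Complex.normSq_eq_norm_sq, hμn] at h
    have h2 : (starRingEnd ℂ) μ * μ = 1 := by rw [← h]; norm_num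
    exact h2
  have hμre : 2 - μ - star μ = ((M2 N l : ℝ) : ℂ) := by
    have h1 : μ + star μ = ((2 * μ.re : ℝ) : ℂ) := Complex.add_conj μ
    have h2 : μ.re = Real.cos (2 * θ) := by rw [hμθ]; exact Complex.exp_ofReal_mul_I_re _
    have h3 : M2 N l = 2 - 2 * Real.cos (2 * θ) := by
      unfold M2
      rw [← hθ, Real.cos_two_mul]
      have := Real.sin_sq_add_cos_sq θ
      linarith
    rw [sub_sub, h1, h2, h3]
    push_cast
    ring
  -- the complex eigenvector
  obtain ⟨Yc, hYc⟩ : ∃ Yc : Tor l → Mat N, Yc = fun y => μ ^ y.1.val • X := ⟨_, rfl⟩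
  have hS0 : ∀ y, AdC (vac l W (y, 0)) (Yc (y + uT l 0)) = μ • Yc y := by
    intro y
    rw [vac_eq, hYc]
    have e1 : (y + uT l 0).1 = y.1 + 1 := rfl
    simp only [e1]
    rw [AdC_smul]
    have e2 : cj 0 y = y.1 := rfl
    rw [e2]
    by_cases h : y.1 = -1
    · have hv : (y.1 + 1 : ZMod l).val = 0 := by rw [h, neg_add_cancel, ZMod.val_zero]
      have hv2 : y.1.val + 1 = l := by
        have h3 : y.1.val = l - 1 := by
          rw [h]
          have h4 := Pool.Agent.N838.Flat.cast_pred (l := l)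
          rw [← h4]
          exact ZMod.val_natCast_of_lt (Nat.sub_lt (Nat.pos_of_ne_zero (NeZero.ne l)) one_pos)
        rw [h3]
        exact Nat.sub_add_cancel (Nat.pos_of_ne_zero (NeZero.ne l))
      rw [if_pos h, hv, pow_zero, one_smul]
      have : gX W 0 = W.A := rfl
      rw [this, hXA, ← hμl, smul_smul, ← pow_succ', hv2]
    · have hv : (y.1 + 1 : ZMod l).val = y.1.val + 1 := by
        have h3 : y.1.val + 1 < l := by
          have h4 := ZMod.val_lt y.1
          rcases Nat.lt_or_ge (y.1.val + 1) l with h5 | h5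
          · exact h5
          · exfalso
            apply h
            have h6 : y.1.val + 1 = l := by omega
            have h7 : ((y.1.val + 1 : ℕ) : ZMod l) = 0 := by rw [h6]; simp
            rw [Nat.cast_add, ZMod.natCast_zmod_val, Nat.cast_one] at h7
            exact eq_neg_of_add_eq_zero_left h7
        have h8 : (y.1 + 1 : ZMod l) = ((y.1.val + 1 : ℕ) : ZMod l) := by
          rw [Nat.cast_add, ZMod.natCast_zmod_val, Nat.cast_one]
        rw [h8, ZMod.val_natCast_of_lt h3]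
      rw [if_neg h, hv, AdC_one, smul_smul, ← pow_succ']
  have hS1 : ∀ y, AdC (vac l W (y, 1)) (Yc (y + uT l 1)) = Yc y := by
    intro y
    rw [vac_eq, hYc]
    have e1 : (y + uT l 1).1 = y.1 := add_zero _
    simp only [e1]
    rw [AdC_smul]
    congr 1
    split_ifs
    · exact hXB
    · exact AdC_one X
  have hS0i : ∀ y, AdC (vac l W (y - uT l 0, 0))⁻¹ (Yc (y - uT l 0)) = star μ • Yc y := by
    intro y
    have h1 := hS0 (y - uT l 0)
    rw [sub_add_cancel] at h1
    have h2 : Yc (y - uT l 0) = star μ • AdC (vac l W (y - uT l 0, 0)) (Yc y) := by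
      rw [h1, smul_smul, hμμ, one_smul]
    rw [h2, AdC_smul, AdC_inv]
  -- the real eigenvector
  obtain ⟨Y, hY⟩ : ∃ Y : Tor l → Mat N, Y = fun y => Yc y - (Yc y)ᴴ := ⟨_, rfl⟩
  have hYs : ∀ y, Y y ∈ Submodule.span ℝ (Set.range B.X) := by
    intro y
    refine mem_span_of_skew B ?_ ?_
    · rw [hY]
      simp only [conjTranspose_sub, conjTranspose_conjTranspose, neg_sub]
    · rw [hY]
      simp only [trace_sub, trace_conjTranspose]
      have : (Yc y).trace = 0 := by
        rw [hYc]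
        simp only [trace_smul, htr, smul_zero]
      rw [this, star_zero, sub_zero]
  obtain ⟨om, hom⟩ : ∃ om : Tor l → Fin n → ℝ, om = fun y => pc B (Y y) := ⟨_, rfl⟩
  have hL : ∀ y, LX B (om y) = Y y := by
    intro y
    rw [hom]
    exact LX_pc B (hYs y)
  have hsh : ∀ (j : Fin 2) (y : Tor l), LX B (Sh B (vac l W) j om y) =
      AdC (vac l W (y, j)) (Yc (y + uT l j)) - (AdC (vac l W (y, j)) (Yc (y + uT l j)))ᴴ := by
    intro j y
    rw [Sh_apply, LX_AdM, hL]
    show AdC (vac l W (y, j)) (Y (y + uT l j)) = _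
    rw [hY]
    simp only
    rw [AdC_sub, AdC_ct]
  have hshi : ∀ y : Tor l, LX B (Shi B (vac l W) 0 om y) = star μ • Yc y - (star μ • Yc y)ᴴ := by
    intro y
    rw [Shi_apply, LX_AdM, hL]
    show AdC (vac l W (y - uT l 0, 0))⁻¹ (Y (y - uT l 0)) = _
    rw [hY]
    simp only
    rw [AdC_sub, AdC_ct, hS0i]
  refine ⟨om, ?_, ?_, ?_⟩
  · intro h0
    have h1 := hL 0
    rw [h0, Pi.zero_apply, LX_zero, hY, hYc] at h1
    have h2 : ((0 : Tor l).1).val = 0 := ZMod.val_zero
    simp only [h2, pow_zero, one_smul] at h1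
    exact hX h1.symm
  · funext y
    refine LX_inj B ?_
    rw [hsh, hS1, hL, hY]
  · rw [map_sub, Shi_Sh]
    funext y
    refine LX_inj B ?_
    have e1 : ((om - Sh B (vac l W) 0 om) - (Shi B (vac l W) 0 om - om)) y =
        (2 : ℝ) • om y + (-(Sh B (vac l W) 0 om y) + -(Shi B (vac l W) 0 om y)) := by
      simp only [Pi.sub_apply]
      funext a
      simp only [Pi.sub_apply, Pi.add_apply, Pi.smul_apply, Pi.neg_apply, smul_eq_mul]
      ring
    rw [e1, LX_add, LX_add, LX_smul, LX_neg, LX_neg, hsh, hshi, hS0, Pi.smul_apply, LX_smul, hL, hY]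
    simp only [conjTranspose_smul, star_star]
    have e2 : M2 N l • (Yc y - (Yc y)ᴴ) = (2 - μ - star μ) • (Yc y - (Yc y)ᴴ) := by
      rw [hμre]
      rfl
    have e3 : (2 : ℝ) • (Yc y - (Yc y)ᴴ) = (2 : ℂ) • (Yc y - (Yc y)ᴴ) := by
      have : (2 : ℂ) = ((2 : ℝ) : ℂ) := by norm_num
      rw [this]
      rfl
    rw [e2, e3]
    module

end

end Pool.Agent.N984.TW
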