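import Mathlib
import Pool.Agent.N838.TW.Spec3

/-!
# The orthogonal slice, and the facts about the potential for an arbitrary twisted pair
-/

open MeasureTheory Matrix Filter
open scoped Matrix.Norms.Frobenius Topology
open Pool.Agent.H906R3.YM Pool.Agent.W793.YM Pool.Agent.TH618.YM

namespace Pool.Agent.N984.TW

set_option linter.unusedSectionVars false

noncomputable section

variable {N l n : ℕ}

/-- the adjoint of the infinitesimal gauge action as a linear map -/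
def JstL (B : Frame (SU N) n) (φ : Tor l × Fin 2 → SU N) :
    (Tor l × Fin 2 → Fin n → ℝ) →ₗ[ℝ] (Tor l → Fin n → ℝ) where
  toFun := Jst B φ
  map_add' a b := by
    funext y
    show (a (y, 0) + b (y, 0) - AdM B (φ (y - uT l 0, 0))⁻¹ (a (y - uT l 0, 0) + b (y - uT l 0, 0))) +
      (a (y, 1) + b (y, 1) - AdM B (φ (y - uT l 1, 1))⁻¹ (a (y - uT l 1, 1) + b (y - uT l 1, 1))) =
      ((a (y, 0) - AdM B (φ (y - uT l 0, 0))⁻¹ (a (y - uT l 0, 0))) +
        (a (y, 1) - AdM B (φ (y - uT l 1, 1))⁻¹ (a (y - uT l 1, 1)))) +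
      ((b (y, 0) - AdM B (φ (y - uT l 0, 0))⁻¹ (b (y - uT l 0, 0))) +
        (b (y, 1) - AdM B (φ (y - uT l 1, 1))⁻¹ (b (y - uT l 1, 1))))
    rw [AdM_add, AdM_add]
    abel
  map_smul' c a := by
    funext y
    show (c • a (y, 0) - AdM B (φ (y - uT l 0, 0))⁻¹ (c • a (y - uT l 0, 0))) +
      (c • a (y, 1) - AdM B (φ (y - uT l 1, 1))⁻¹ (c • a (y - uT l 1, 1))) =
      c • ((a (y, 0) - AdM B (φ (y - uT l 0, 0))⁻¹ (a (y - uT l 0, 0))) +
        (a (y, 1) - AdM B (φ (y - uT l 1, 1))⁻¹ (a (y - uT l 1, 1))))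
    rw [AdM_smul, AdM_smul, smul_add, smul_sub, smul_sub]

lemma JstL_apply (B : Frame (SU N) n) (φ : Tor l × Fin 2 → SU N)
    (al : Tor l × Fin 2 → Fin n → ℝ) : JstL B φ al = Jst B φ al := rfl

lemma sq_eq_zero {I : Type*} [Fintype I] {v : I → Fin n → ℝ} (h : sq v = 0) : v = 0 := by
  unfold sq at h
  rw [Finset.sum_eq_zero_iff_of_nonneg (fun i _ => Finset.sum_nonneg fun a _ => sq_nonneg _)] at h
  funext i a
  have h2 := h i (Finset.mem_univ i)
  rw [Finset.sum_eq_zero_iff_of_nonneg (fun a _ => sq_nonneg _)] at h2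
  exact pow_eq_zero_iff two_ne_zero |>.1 (h2 a (Finset.mem_univ a))

lemma sq_nonneg' {I : Type*} [Fintype I] (v : I → Fin n → ℝ) : 0 ≤ sq v :=
  Finset.sum_nonneg fun _ _ => Finset.sum_nonneg fun _ _ => sq_nonneg _

/-- the covariant Laplacian on functions -/
def Lap (B : Frame (SU N) n) (φ : Tor l × Fin 2 → SU N) :
    (Tor l → Fin n → ℝ) →ₗ[ℝ] (Tor l → Fin n → ℝ) := JstL B φ ∘ₗ Jl B sE tE φ

lemma Lap_form [NeZero l] (B : Frame (SU N) n) (φ : Tor l × Fin 2 → SU N)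
    (om : Tor l → Fin n → ℝ) :
    ∑ y, ∑ a, om y a * Lap B φ om y a = sq (Jl B sE tE φ om) := by
  have h := Jst_adj B φ om (Jl B sE tE φ om)
  unfold sq
  rw [show (∑ y, ∑ a, om y a * Lap B φ om y a) =
    ∑ y, ∑ a, om y a * Jst B φ (Jl B sE tE φ om) y a from rfl, ← h]
  refine Finset.sum_congr rfl fun e _ => Finset.sum_congr rfl fun a _ => ?_
  ring

lemma Lap_ker [NeZero l] [NeZero N] {z : ℂ} (hz : IsPrimitiveRoot z N) (W : TwP N z)
    (B : Frame (SU N) n) (hG : IsClosed (SU N : Set (UN N))) :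
    LinearMap.ker (Lap B (vac l W)) = ⊥ := by
  rw [LinearMap.ker_eq_bot']
  intro om h
  have h1 := Lap_form B (vac l W) om
  rw [h] at h1
  simp only [Pi.zero_apply, mul_zero, Finset.sum_const_zero] at h1
  have h2 := sq_eq_zero h1.symm
  have hk := Jl_ker (l := l) hz W B hG
  rw [LinearMap.ker_eq_bot'] at hk
  exact hk om h2

/-- **The orthogonal slice.** There is a left inverse of the infinitesimal gauge action whose kernel
is the orthogonal complement of the gauge directions. -/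
theorem exists_orth_P [NeZero l] [NeZero N] {z : ℂ} (hz : IsPrimitiveRoot z N) (W : TwP N z)
    (B : Frame (SU N) n) (hG : IsClosed (SU N : Set (UN N))) :
    ∃ P : (Tor l × Fin 2 → Fin n → ℝ) →ₗ[ℝ] (Tor l → Fin n → ℝ),
      P.comp (Jl B sE tE (vac l W)) = LinearMap.id ∧
      (∀ al, P al = 0 ↔ Jst B (vac l W) al = 0) ∧
      (∀ al, Lap B (vac l W) (P al) = Jst B (vac l W) al) ∧
      (∀ al, P al = 0 → M2 N l * sq al ≤ sq (J1c B (vac l W) al)) ∧
      ∀ al, sq al = sq (Jl B sE tE (vac l W) (P al)) +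
        sq (al - Jl B sE tE (vac l W) (P al)) := by
  obtain ⟨E, hE⟩ : ∃ E : (Tor l → Fin n → ℝ) ≃ₗ[ℝ] (Tor l → Fin n → ℝ),
      ∀ om, E om = Lap B (vac l W) om :=
    ⟨LinearEquiv.ofInjectiveEndo (Lap B (vac l W)) (LinearMap.ker_eq_bot.1 (Lap_ker hz W B hG)),
      fun om => rfl⟩
  obtain ⟨P, hP⟩ : ∃ P : (Tor l × Fin 2 → Fin n → ℝ) →ₗ[ℝ] (Tor l → Fin n → ℝ),
      P = E.symm.toLinearMap ∘ₗ JstL B (vac l W) := ⟨_, rfl⟩
  have hPa : ∀ al, P al = E.symm (Jst B (vac l W) al) := fun al => by rw [hP]; rfl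
  have h3 : ∀ al, Lap B (vac l W) (P al) = Jst B (vac l W) al := by
    intro al
    rw [hPa, ← hE, LinearEquiv.apply_symm_apply]
  have h1 : P.comp (Jl B sE tE (vac l W)) = LinearMap.id := by
    refine LinearMap.ext fun om => ?_
    show P (Jl B sE tE (vac l W) om) = om
    rw [hPa]
    have : Jst B (vac l W) (Jl B sE tE (vac l W) om) = E om := (hE om).symm
    rw [this, LinearEquiv.symm_apply_apply]
  have h2 : ∀ al, P al = 0 ↔ Jst B (vac l W) al = 0 := by
    intro al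
    rw [hPa]
    exact ⟨fun h => by simpa using h, fun h => by rw [h, map_zero]⟩
  refine ⟨P, h1, h2, h3, fun al h => ?_, fun al => ?_⟩
  · have h4 := spec_one hz W B hG al
    rw [(h2 al).1 h] at h4
    have : sq (0 : Tor l → Fin n → ℝ) = 0 := by simp [sq]
    rwa [this, add_zero] at h4
  · obtain ⟨r, hr⟩ : ∃ r, r = al - Jl B sE tE (vac l W) (P al) := ⟨_, rfl⟩
    have hal : al = Jl B sE tE (vac l W) (P al) + r := by rw [hr]; abel
    have hr0 : Jst B (vac l W) r = 0 := by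
      refine (h2 r).1 ?_
      rw [hr, map_sub]
      have : P (Jl B sE tE (vac l W) (P al)) = P al := LinearMap.congr_fun h1 (P al)
      rw [this, sub_self]
    have h5 := Jst_adj B (vac l W) (P al) r
    rw [hr0] at h5
    simp only [Pi.zero_apply, mul_zero, Finset.sum_const_zero] at h5
    rw [← hr]
    have h6 : sq al = ∑ e, ∑ a, (Jl B sE tE (vac l W) (P al) e a + r e a) ^ 2 := by
      conv_lhs => rw [hal]
      rfl
    have h7 : ∑ e, ∑ a, (Jl B sE tE (vac l W) (P al) e a + r e a) ^ 2 =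
        sq (Jl B sE tE (vac l W) (P al)) + sq r +
          2 * ∑ e, ∑ a, Jl B sE tE (vac l W) (P al) e a * r e a := by
      unfold sq
      rw [Finset.mul_sum, ← Finset.sum_add_distrib, ← Finset.sum_add_distrib]
      refine Finset.sum_congr rfl fun e _ => ?_
      rw [Finset.mul_sum, ← Finset.sum_add_distrib, ← Finset.sum_add_distrib]
      refine Finset.sum_congr rfl fun a _ => ?_
      ring
    rw [h6, h7, h5]
    ring

/-- the linearised plaquettes annihilate the gauge directions -/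
theorem J1c_Jl [NeZero N] {z : ℂ} (hz : IsPrimitiveRoot z N) (B : Frame (SU N) n)
    {φ : Tor l × Fin 2 → SU N}
    (hf : Pool.Agent.N838.Flat.IsFlat (scal N) (Pool.Agent.N838.Flat.stdTwist (zr hz)) (cur φ))
    (om : Tor l → Fin n → ℝ) : J1c B φ (Jl B sE tE φ om) = 0 := by
  rw [J1c_eq, cmp_Jl, cmp_Jl, map_sub, map_sub, Sh_comm hz B hf]
  abel

/-- `J1c` as a linear map -/
def J1L (B : Frame (SU N) n) (φ : Tor l × Fin 2 → SU N) :
    (Tor l × Fin 2 → Fin n → ℝ) →ₗ[ℝ] (Tor l → Fin n → ℝ) where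
  toFun := J1c B φ
  map_add' a b := by
    have e : ∀ j, cmp (a + b) j = cmp a j + cmp b j := fun j => rfl
    rw [J1c_eq, J1c_eq, J1c_eq, e, e, map_add, map_add]
    abel
  map_smul' c a := by
    have e : ∀ j, cmp (c • a) j = c • cmp a j := fun j => rfl
    rw [J1c_eq, J1c_eq, e, e, map_smul, map_smul, RingHom.id_apply]
    module

lemma J1L_apply (B : Frame (SU N) n) (φ : Tor l × Fin 2 → SU N)
    (al : Tor l × Fin 2 → Fin n → ℝ) : J1L B φ al = J1c B φ al := rfl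

/-- **All facts about the orthogonal slice.** -/
theorem orth_facts [NeZero l] [NeZero N] {z : ℂ} (hz : IsPrimitiveRoot z N) (W : TwP N z)
    (B : Frame (SU N) n) (hG : IsClosed (SU N : Set (UN N))) :
    ∃ P : (Tor l × Fin 2 → Fin n → ℝ) →ₗ[ℝ] (Tor l → Fin n → ℝ),
      P.comp (Jl B sE tE (vac l W)) = LinearMap.id ∧
      (∀ om, P (Jl B sE tE (vac l W) om) = om) ∧
      (∀ om, M2 N l * sq om ≤ sq (Jl B sE tE (vac l W) om)) ∧
      (∀ al, P al = 0 → M2 N l * sq al ≤ sq (J1c B (vac l W) al)) ∧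
      (∀ al, P al = 0 → ∀ om, ∑ e, ∑ a, Jl B sE tE (vac l W) om e a * al e a = 0) ∧
      (∀ om, J1c B (vac l W) (Jl B sE tE (vac l W) om) = 0) ∧
      (∀ al, P al = 0 ↔ Jst B (vac l W) al = 0) ∧
      (∀ al, Lap B (vac l W) (P al) = Jst B (vac l W) al) := by
  obtain ⟨P, h1, h2, h3, h4, -⟩ := exists_orth_P (l := l) hz W B hG
  refine ⟨P, h1, fun om => LinearMap.congr_fun h1 om, fun om => spec_zero hz W B hG om, h4, ?_,
    fun om => J1c_Jl hz B (vac_flat hz W) om, h2, h3⟩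
  intro al hal om
  rw [Jst_adj, (h2 al).1 hal]
  simp

/-- **The facts about the fibre potential** for an arbitrary twisted pair and an arbitrary slice. -/
theorem v_facts_W [NeZero N] [NeZero l] {z : ℂ} (hz : IsPrimitiveRoot z N) (W : TwP N z) {n : ℕ}
    (B : Frame (SU N) n) (hG : IsClosed (SU N : Set (UN N)))
    (P : (Tor l × Fin 2 → Fin n → ℝ) →ₗ[ℝ] (Tor l → Fin n → ℝ))
    (hP : P.comp (Jl B sE tE (vac l W)) = LinearMap.id) :
    ∃ (δ₀ c₀ : ℝ), SliceD B hG sE tE (vac l W) P (ZcS N l) δ₀ c₀ ∧ Finite (ZcS N l) ∧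
      (∀ ζ ∈ ZcS N l, ∀ k : Tor l → SU N, ζ * k = k * ζ) ∧
      Continuous (VV z : (Tor l × Fin 2 → SU N) → ℝ) ∧
      (∀ φ : Tor l × Fin 2 → SU N, 0 ≤ VV z φ) ∧
      (∀ (h : Tor l → SU N) (φ : Tor l × Fin 2 → SU N), VV z (act sE tE h φ) = VV z φ) ∧
      (∀ φ : Tor l × Fin 2 → SU N, VV z φ = 0 → ∃ h, φ = act sE tE h (vac l W)) ∧
      (∃ c > (0 : ℝ), ∀ᶠ v in 𝓝 (0 : Tor l × Fin 2 → Fin n → ℝ), P v = 0 →
        c * ‖v‖ ^ 2 ≤ VV z (exM B hG (vac l W) v)) ∧
      (∃ C : ℝ, ∀ φ : Tor l × Fin 2 → SU N, VV z φ ≤ C * nM (vac l W) φ) := by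
  obtain ⟨c₀, hc₀, hdisc⟩ := ZcS_disc (l := l) (N := N)
  obtain ⟨δ₀, hδ₀, huniq⟩ := slice_unique B hG sE tE (vac l W) P (ZcS N l) hP
    (fun h hh => ZcS_stab hz W hh) (fun h hh φ => ZcS_triv hh φ)
  obtain ⟨c, hc, hloc⟩ := VV_local hz W B hG P hP
  exact ⟨δ₀, c₀,
    { left := hP
      stab := fun h hh => ZcS_stab hz W hh
      triv := fun h hh φ => ZcS_triv hh φ
      pos := hδ₀
      uniq := huniq
      cpos := hc₀
      disc := hdisc }, ZcS_finite, fun ζ hζ k => ZcS_comm hζ k, VV_cont z, VV_nonneg hz,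
    fun h φ => VV_act z h φ, fun φ h0 => VV_zero_orbit hz W φ h0, ⟨c, hc, hloc⟩,
    ⟨_, fun φ => VV_upper hz (VV_vac hz W) φ⟩⟩

end

end Pool.Agent.N984.TW
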