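import Mathlib
import Pool.Agent.N984.TW.Pieces

/-!
# A second order estimate, and the coordinates of an element of the group
-/

open MeasureTheory Matrix Filter
open scoped Matrix.Norms.Frobenius ContDiff Topology
open Pool.Agent.H906R3.YM Pool.Agent.W793.YM Pool.Agent.TH618.YM

namespace Pool.Agent.N984.TW

set_option linter.unusedSectionVars false

noncomputable section

/-- Second order estimate of increments of a smooth function on a ball. -/
lemma incr_est {X Y : Type*} [NormedAddCommGroup X] [NormedSpace ℝ X] [FiniteDimensional ℝ X]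
    [NormedAddCommGroup Y] [NormedSpace ℝ Y] {F : X → Y} (hF : ContDiff ℝ ∞ F) (x₀ : X) (R : ℝ)
    {L : X →L[ℝ] Y} (hL : HasFDerivAt F L x₀) :
    ∃ C : ℝ, 0 ≤ C ∧ ∀ x y : X, ‖x - x₀‖ ≤ R → ‖y - x₀‖ ≤ R →
      ‖F x - F y - L (x - y)‖ ≤ C * (‖x - x₀‖ + ‖y - x₀‖) * ‖x - y‖ := by
  rw [← hL.fderiv]
  have hG : ContDiff ℝ 1 (fderiv ℝ F) :=
    (contDiff_infty_iff_fderiv.1 hF).2.of_le (by exact_mod_cast (le_top : (1 : ℕ∞) ≤ ⊤))
  have hGd : Differentiable ℝ (fderiv ℝ F) := hG.differentiable (by norm_num)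
  have hFd : Differentiable ℝ F := hF.differentiable (by simp)
  have hcpt : IsCompact (Metric.closedBall x₀ R) := isCompact_closedBall x₀ R
  obtain ⟨K, hK⟩ := hcpt.exists_bound_of_continuousOn (f := fderiv ℝ (fderiv ℝ F))
    (hG.continuous_fderiv (by norm_num)).continuousOn
  refine ⟨|K|, abs_nonneg K, fun x y hx hy => ?_⟩
  have hR : 0 ≤ R := (norm_nonneg _).trans hx
  have hlip : ∀ w ∈ Metric.closedBall x₀ R, ‖fderiv ℝ F w - fderiv ℝ F x₀‖ ≤ |K| * ‖w - x₀‖ := by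
    intro w hw
    exact (convex_closedBall x₀ R).norm_image_sub_le_of_norm_fderiv_le (𝕜 := ℝ)
      (fun v _ => hGd v) (fun v hv => (hK v hv).trans (le_abs_self K))
      (Metric.mem_closedBall_self hR) hw
  obtain ⟨r, hr⟩ : ∃ r, r = max ‖x - x₀‖ ‖y - x₀‖ := ⟨_, rfl⟩
  have hrR : r ≤ R := by rw [hr]; exact max_le hx hy
  have h1 : ∀ w ∈ Metric.closedBall x₀ r,
      HasFDerivWithinAt (fun w => F w - fderiv ℝ F x₀ w) (fderiv ℝ F w - fderiv ℝ F x₀)
        (Metric.closedBall x₀ r) w := by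
    intro w _
    exact ((hFd w).hasFDerivAt.sub (fderiv ℝ F x₀).hasFDerivAt).hasFDerivWithinAt
  have h2 : ∀ w ∈ Metric.closedBall x₀ r, ‖fderiv ℝ F w - fderiv ℝ F x₀‖ ≤ |K| * r := by
    intro w hw
    have hw' : ‖w - x₀‖ ≤ r := by rwa [Metric.mem_closedBall, dist_eq_norm] at hw
    refine (hlip w (Metric.closedBall_subset_closedBall hrR hw)).trans ?_
    exact mul_le_mul_of_nonneg_left hw' (abs_nonneg K)
  have hxm : x ∈ Metric.closedBall x₀ r := by
    rw [Metric.mem_closedBall, dist_eq_norm, hr]; exact le_max_left _ _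
  have hym : y ∈ Metric.closedBall x₀ r := by
    rw [Metric.mem_closedBall, dist_eq_norm, hr]; exact le_max_right _ _
  have h3 := (convex_closedBall x₀ r).norm_image_sub_le_of_norm_hasFDerivWithin_le h1 h2 hym hxm
  have e : F x - F y - fderiv ℝ F x₀ (x - y) =
      (F x - fderiv ℝ F x₀ x) - (F y - fderiv ℝ F x₀ y) := by
    rw [map_sub]; abel
  rw [e]
  refine h3.trans ?_
  refine mul_le_mul_of_nonneg_right ?_ (norm_nonneg _)
  refine mul_le_mul_of_nonneg_left ?_ (abs_nonneg K)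
  rw [hr]
  exact max_le (le_add_of_nonneg_right (norm_nonneg _)) (le_add_of_nonneg_left (norm_nonneg _))

variable {N n : ℕ} {G : Subgroup (UN N)} (B : Frame G n) (hG : IsClosed (G : Set (UN N)))

lemma LX_pc_norm_le (A : Mat N) : ‖LX B (pc B A)‖ ≤ ‖A‖ := by
  have h1 := norm_LX_sq B (pc B A)
  have h2 := pc_sq_le B A
  rw [← h1] at h2
  exact abs_le_of_sq_le_sq' h2 (norm_nonneg _) |>.2

include hG in
/-- neighbourhoods of `1` in terms of matrices -/
lemma one_nhds {p : G → Prop} (h : ∀ᶠ g in 𝓝 (1 : G), p g) :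
    ∃ ε : ℝ, 0 < ε ∧ ∀ g : G, ‖mt g - 1‖ ^ 2 < ε → p g := by
  have h2 : ∀ᶠ k : Unit → G in 𝓝 (1 : Unit → G), p (k ()) :=
    ((continuous_apply ()).tendsto (1 : Unit → G)).eventually h
  obtain ⟨ε, hε, hb⟩ := nr_nhds (hG := hG) h2
  refine ⟨ε, hε, fun g hg => ?_⟩
  refine hb (fun _ => g) ?_
  unfold nr
  rw [Fintype.sum_unique]
  exact hg

include hG in
/-- Elements of the group are determined by their coordinates, to second order. -/
theorem chart_err : ∃ C : ℝ, 0 ≤ C ∧ ∀ g : G,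
    ‖(mt g - 1) - LX B (pc B (mt g - 1))‖ ≤ C * ‖mt g - 1‖ ^ 2 := by
  obtain ⟨C₁, hC₁, h1⟩ := incr_est (EM_contDiff B) (0 : Fin n → ℝ) 1 (hasFDerivAt_EM B)
  obtain ⟨C₂, hC₂, h2⟩ := norm_lg_le (B := B)
  have hlg : ∀ᶠ g in 𝓝 (1 : G), ‖lg B g‖ < 1 := by
    have h3 : Tendsto (fun g : G => lgM B (mt g)) (𝓝 1) (𝓝 0) := by
      have := (lgM_contDiffAt B).continuousAt.tendsto.comp (mt_tendsto (G := G))
      rwa [lgM_one] at this
    have h4 := h3.norm
    rw [norm_zero] at h4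
    exact h4.eventually (gt_mem_nhds one_pos)
  have hev : ∀ᶠ g in 𝓝 (1 : G),
      ‖(mt g - 1) - LX B (pc B (mt g - 1))‖ ≤ 2 * (C₁ * C₂ ^ 2) * ‖mt g - 1‖ ^ 2 := by
    filter_upwards [h2, hlg, Eg_lg B hG] with g hg1 hg2 hg3
    have h5 := h1 (lg B g) 0 (by rw [sub_zero]; exact hg2.le) (by simp)
    rw [sub_zero, sub_zero, norm_zero, add_zero, EM_zero] at h5
    have h6 : EM B (lg B g) = mt g := by rw [← mt_Eg B hG, hg3]
    rw [h6] at h5
    have h5' : ‖mt g - 1 - LX B (lg B g)‖ ≤ C₁ * ‖lg B g‖ * ‖lg B g‖ := h5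
    obtain ⟨r, hr⟩ : ∃ r : Mat N, r = mt g - 1 - LX B (lg B g) := ⟨_, rfl⟩
    have hr2 : mt g - 1 = LX B (lg B g) + r := by rw [hr]; abel
    have h7 : (mt g - 1) - LX B (pc B (mt g - 1)) = r - LX B (pc B r) := by
      have e : pc B (mt g - 1) = lg B g + pc B r := by rw [hr2, pc_add, pc_LX]
      rw [e, LX_add, hr2]
      abel
    rw [← hr] at h5'
    have h8 : ‖r‖ ≤ C₁ * C₂ ^ 2 * ‖mt g - 1‖ ^ 2 := by
      refine h5'.trans ?_
      calc C₁ * ‖lg B g‖ * ‖lg B g‖ ≤ C₁ * (C₂ * ‖mt g - 1‖) * (C₂ * ‖mt g - 1‖) := by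
            gcongr
        _ = _ := by ring
    rw [h7]
    refine (norm_sub_le _ _).trans ?_
    linarith [LX_pc_norm_le B r]
  obtain ⟨ε, hε, hb⟩ := one_nhds hG hev
  refine ⟨2 * (C₁ * C₂ ^ 2) + 2 / Real.sqrt ε, by positivity, fun g => ?_⟩
  have hs : 0 < Real.sqrt ε := Real.sqrt_pos.2 hε
  by_cases h : ‖mt g - 1‖ ^ 2 < ε
  · refine (hb g h).trans (mul_le_mul_of_nonneg_right ?_ (sq_nonneg _))
    exact le_add_of_nonneg_right (by positivity)
  · push Not at h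
    have h3 : Real.sqrt ε ≤ ‖mt g - 1‖ := by
      rw [← Real.sqrt_sq (norm_nonneg (mt g - 1))]
      exact Real.sqrt_le_sqrt h
    have h4 : ‖(mt g - 1) - LX B (pc B (mt g - 1))‖ ≤ 2 * ‖mt g - 1‖ := by
      refine (norm_sub_le _ _).trans ?_
      linarith [LX_pc_norm_le B (mt g - 1)]
    refine h4.trans ?_
    have h5 : 2 * ‖mt g - 1‖ ≤ 2 / Real.sqrt ε * ‖mt g - 1‖ ^ 2 := by
      rw [div_mul_eq_mul_div, le_div_iff₀ hs]
      nlinarith [norm_nonneg (mt g - 1)]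
    refine h5.trans (mul_le_mul_of_nonneg_right ?_ (sq_nonneg _))
    exact le_add_of_nonneg_left (by positivity)

end

end Pool.Agent.N984.TW
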