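import Mathlib
import Pool.Agent.N838.TW.Obs1
import Pool.Agent.N838.TW.Spec4

/-!
# The winding loop observable of the torus: definition and derivative
-/

open MeasureTheory Matrix Filter
open scoped Matrix.Norms.Frobenius ContDiff Topology
open Pool.Agent.H906R3.YM Pool.Agent.W793.YM Pool.Agent.TH618.YM

namespace Pool.Agent.N984.TW

set_option linter.unusedSectionVars false

noncomputable section

variable {N l n : ℕ}

/-- path products of matrices in the direction `1` -/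
def LM (M : Tor l × Fin 2 → Mat N) (c : ZMod l) : ℕ → Mat N
  | 0 => 1
  | j + 1 => LM M c j * M ((c, (j : ZMod l)), 1)

/-- path products in the group in the direction `1` -/
def LG (φ : Tor l × Fin 2 → SU N) (c : ZMod l) : ℕ → SU N
  | 0 => 1
  | j + 1 => LG φ c j * φ ((c, (j : ZMod l)), 1)

lemma mt_LG (φ : Tor l × Fin 2 → SU N) (c : ZMod l) (j : ℕ) :
    mt (LG φ c j) = LM (fun e => mt (φ e)) c j := by
  induction j with
  | zero => exact mt_one
  | succ j ih =>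
    show mt (LG φ c j * φ ((c, (j : ZMod l)), 1)) = _
    rw [mt_mul, ih]
    rfl

lemma LG_act (h : Tor l → SU N) (φ : Tor l × Fin 2 → SU N) (c : ZMod l) (j : ℕ) :
    LG (act sE tE h φ) c j = h (c, 0) * LG φ c j * (h (c, (j : ZMod l)))⁻¹ := by
  induction j with
  | zero =>
    show (1 : SU N) = h (c, 0) * 1 * (h (c, ((0 : ℕ) : ZMod l)))⁻¹
    rw [Nat.cast_zero, mul_one, mul_inv_cancel]
  | succ j ih =>
    have e : (c, (j : ZMod l)) + uT l 1 = (c, ((j + 1 : ℕ) : ZMod l)) := by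
      unfold uT
      rw [if_neg (by decide)]
      ext <;> simp
    have h1 : LG (act sE tE h φ) c (j + 1) = LG (act sE tE h φ) c j *
        (h (c, (j : ZMod l)) * φ ((c, (j : ZMod l)), 1) * (h ((c, (j : ZMod l)) + uT l 1))⁻¹) := rfl
    have h2 : LG φ c (j + 1) = LG φ c j * φ ((c, (j : ZMod l)), 1) := rfl
    rw [h1, h2, ih, e]
    group

/-- the winding loop observable on matrices -/
def WM [NeZero l] (w μ : ℂ) (k : ℕ) (M : Tor l × Fin 2 → Mat N) : ℝ :=
  ∑ c : ZMod l, (w * μ ^ c.val * trace (LM M c l ^ (k + 1))).re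

/-- the winding loop observable -/
def WG [NeZero l] (w μ : ℂ) (k : ℕ) (φ : Tor l × Fin 2 → SU N) : ℝ :=
  WM w μ k (fun e => mt (φ e))

lemma WG_act [NeZero l] (w μ : ℂ) (k : ℕ) (h : Tor l → SU N) (φ : Tor l × Fin 2 → SU N) :
    WG w μ k (act sE tE h φ) = WG w μ k φ := by
  unfold WG WM
  refine Finset.sum_congr rfl fun c _ => ?_
  rw [← mt_LG, ← mt_LG, LG_act]
  have e : (c, ((l : ℕ) : ZMod l)) = ((c, 0) : Tor l) := by simp
  rw [e]
  obtain ⟨a, ha⟩ : ∃ a, a = h (c, 0) := ⟨_, rfl⟩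
  obtain ⟨P, hP⟩ : ∃ P, P = LG φ c l := ⟨_, rfl⟩
  rw [← ha, ← hP]
  have h1 : mt (a * P * a⁻¹) ^ (k + 1) = mt a * (mt P ^ (k + 1) * mt a⁻¹) := by
    rw [← mt_pow, conj_pow, mt_mul, mt_mul, mt_pow, mul_assoc]
  have h2 : mt a⁻¹ * mt a = 1 := by rw [← mt_mul, inv_mul_cancel, mt_one]
  rw [h1, trace_mul_comm, Matrix.mul_assoc, h2, mul_one]

/-! ### smoothness -/

lemma LM_contDiff [NeZero l] (c : ZMod l) (j : ℕ) :
    ContDiff ℝ ∞ fun M : Tor l × Fin 2 → Mat N => LM M c j := by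
  induction j with
  | zero => exact contDiff_const
  | succ j ih => exact ih.mul (contDiff_apply ℝ (Mat N) _)

lemma re_mul_trace (a : ℂ) (X : Mat N) : (a * trace X).re = ip (star a • (1 : Mat N)) X := by
  rw [ip_apply, conjTranspose_smul, star_star, conjTranspose_one, Matrix.smul_mul, one_mul,
    trace_smul, smul_eq_mul]

lemma WM_contDiff [NeZero l] (w μ : ℂ) (k : ℕ) :
    ContDiff ℝ ∞ (WM w μ k : (Tor l × Fin 2 → Mat N) → ℝ) := by
  unfold WM
  simp only [re_mul_trace]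
  refine ContDiff.sum fun c _ => ?_
  exact (ip _).contDiff.comp ((LM_contDiff c l).pow (k + 1))

lemma WG_cont [NeZero l] (w μ : ℂ) (k : ℕ) :
    Continuous (WG w μ k : (Tor l × Fin 2 → SU N) → ℝ) := by
  unfold WG
  refine (WM_contDiff w μ k).continuous.comp ?_
  exact continuous_pi fun e => mt_cont.comp (continuous_apply e)

/-! ### the vacuum -/

lemma LM_vac [NeZero l] {z : ℂ} (W : TwP N z) (c : ZMod l) {j : ℕ} (hj : j < l) :
    LM (fun e => mt (vac l W e)) c j = 1 := by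
  induction j with
  | zero => rfl
  | succ j ih =>
    show LM (fun e => mt (vac l W e)) c j * mt (vac l W ((c, (j : ZMod l)), 1)) = 1
    rw [ih (by omega), one_mul, vac_eq]
    have h1 : ¬ ((j : ZMod l) = -1) := by
      intro h
      have h2 : ((j + 1 : ℕ) : ZMod l) = 0 := by rw [Nat.cast_add, h]; simp
      rw [ZMod.natCast_eq_zero_iff] at h2
      exact absurd (Nat.le_of_dvd (by omega) h2) (by omega)
    have h2 : cj 1 ((c, (j : ZMod l)) : Tor l) = (j : ZMod l) := rfl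
    rw [h2, if_neg h1, mt_one]

lemma vac_last [NeZero l] {z : ℂ} (W : TwP N z) (c : ZMod l) {j : ℕ} (hj : j + 1 = l) :
    vac l W ((c, (j : ZMod l)), 1) = W.B := by
  rw [vac_eq]
  have h1 : (j : ZMod l) = -1 := by
    have h2 : ((j + 1 : ℕ) : ZMod l) = 0 := by rw [hj]; simp
    rw [Nat.cast_add, Nat.cast_one] at h2
    exact eq_neg_of_add_eq_zero_left h2
  have h2 : cj 1 ((c, (j : ZMod l)) : Tor l) = (j : ZMod l) := rfl
  rw [h2, if_pos h1]
  rfl

lemma LM_vac_l [NeZero l] {z : ℂ} (W : TwP N z) (c : ZMod l) :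
    LM (fun e => mt (vac l W e)) c l = mt W.B := by
  obtain ⟨j, hj⟩ : ∃ j, j + 1 = l := ⟨l - 1, Nat.sub_add_cancel (Nat.pos_of_ne_zero (NeZero.ne l))⟩
  have h1 : LM (fun e => mt (vac l W e)) c (j + 1) = mt W.B := by
    show LM (fun e => mt (vac l W e)) c j * mt (vac l W ((c, (j : ZMod l)), 1)) = _
    rw [LM_vac W c (by omega), one_mul, vac_last W c hj]
  have h2 : ∀ m, m = l → LM (fun e => mt (vac l W e)) c l =
      LM (fun e => mt (vac l W e)) c m := by
    intro m hm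
    rw [hm]
  rw [h2 _ hj, h1]

/-! ### the derivative -/

/-- the path from the vacuum in the direction `D` -/
def pth {z : ℂ} (W : TwP N z) (D : Tor l × Fin 2 → Mat N) (τ : ℝ) : Tor l × Fin 2 → Mat N :=
  fun e => mt (vac l W e) + τ • (D e * mt (vac l W e))

lemma pth_zero {z : ℂ} (W : TwP N z) (D : Tor l × Fin 2 → Mat N) :
    pth W D 0 = fun e => mt (vac l W e) := by
  funext e
  simp [pth]

lemma pth_deriv {z : ℂ} (W : TwP N z) (D : Tor l × Fin 2 → Mat N) (e : Tor l × Fin 2) :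
    HasDerivAt (fun τ : ℝ => pth W D τ e) (D e * mt (vac l W e)) 0 := by
  have h := ((hasDerivAt_id (0 : ℝ)).smul_const (D e * mt (vac l W e))).const_add (mt (vac l W e))
  rw [one_smul] at h
  exact h

lemma LM_deriv [NeZero l] {z : ℂ} (W : TwP N z) (D : Tor l × Fin 2 → Mat N) (c : ZMod l) {j : ℕ}
    (hj : j ≤ l) : HasDerivAt (fun τ : ℝ => LM (pth W D τ) c j)
      ((∑ i ∈ Finset.range j, D ((c, (i : ZMod l)), 1)) * LM (fun e => mt (vac l W e)) c j) 0 := by
  induction j with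
  | zero =>
    have h : HasDerivAt (fun _ : ℝ => (1 : Mat N)) 0 0 := hasDerivAt_const _ _
    rw [Finset.sum_range_zero, Matrix.zero_mul]
    exact h
  | succ j ih =>
    have h1 := (ih (by omega)).mul (pth_deriv W D ((c, (j : ZMod l)), 1))
    refine h1.congr_deriv ?_
    rw [pth_zero, LM_vac W c (show j < l by omega)]
    have h2 : LM (fun e => mt (vac l W e)) c (j + 1) = mt (vac l W ((c, (j : ZMod l)), 1)) := by
      show LM (fun e => mt (vac l W e)) c j * mt (vac l W ((c, (j : ZMod l)), 1)) = _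
      rw [LM_vac W c (by omega), one_mul]
    rw [h2, Finset.sum_range_succ, Matrix.add_mul, mul_one, one_mul]

lemma sum_col [NeZero l] {A : Type*} [AddCommMonoid A] (f : ZMod l → A) :
    ∑ i ∈ Finset.range l, f (i : ZMod l) = ∑ y : ZMod l, f y := by
  refine Finset.sum_bij (fun i _ => (i : ZMod l)) (fun _ _ => Finset.mem_univ _) ?_ ?_
    (fun _ _ => rfl)
  · intro a ha b hb hab
    have := (ZMod.natCast_eq_natCast_iff' a b l).1 hab
    rwa [Nat.mod_eq_of_lt (Finset.mem_range.1 ha), Nat.mod_eq_of_lt (Finset.mem_range.1 hb)] at this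
  · intro b _
    exact ⟨b.val, Finset.mem_range.2 (ZMod.val_lt b), ZMod.natCast_zmod_val b⟩

/-- the derivative of the trace of a power -/
lemma trace_pow_deriv {P : ℝ → Mat N} {P' : Mat N} (h : HasDerivAt P P' 0) (k : ℕ) :
    ∃ Q : Mat N, HasDerivAt (fun τ => P τ ^ k) Q 0 ∧
      ∀ m : ℕ, trace (Q * P 0 ^ (m + 1)) = k * trace (P' * P 0 ^ (k + m)) := by
  induction k with
  | zero =>
    refine ⟨0, ?_, fun m => by simp⟩
    simp only [pow_zero]
    exact hasDerivAt_const _ _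
  | succ k ih =>
    obtain ⟨Q, hQ, ht⟩ := ih
    refine ⟨Q * P 0 + P 0 ^ k * P', ?_, fun m => ?_⟩
    · simp only [pow_succ]
      exact hQ.mul h
    · have e1 : (Q * P 0 + P 0 ^ k * P') * P 0 ^ (m + 1) =
          Q * P 0 ^ (m + 1 + 1) + P 0 ^ k * (P' * P 0 ^ (m + 1)) := by
        rw [Matrix.add_mul, Matrix.mul_assoc Q, ← pow_succ' (P 0) (m + 1), Matrix.mul_assoc]
      have e2 : trace (P 0 ^ k * (P' * P 0 ^ (m + 1))) = trace (P' * P 0 ^ (k + 1 + m)) := by
        rw [trace_mul_comm, Matrix.mul_assoc, ← pow_add]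
        congr 3
        ring
      rw [e1, trace_add, ht (m + 1), e2]
      have e3 : k + (m + 1) = k + 1 + m := by ring
      rw [e3]
      push_cast
      ring

lemma trace_pow_succ_deriv {P : ℝ → Mat N} {P' : Mat N} (h : HasDerivAt P P' 0) (k : ℕ) (a : ℂ) :
    HasDerivAt (fun τ => (a * trace (P τ ^ (k + 1))).re)
      ((a * ((k + 1 : ℕ) * trace (P' * P 0 ^ k))).re) 0 := by
  obtain ⟨Q, hQ, ht⟩ := trace_pow_deriv h k
  have h1 : HasDerivAt (fun τ => P τ ^ (k + 1)) (Q * P 0 + P 0 ^ k * P') 0 := by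
    simp only [pow_succ]
    exact hQ.mul h
  have h2 := (ip (star a • (1 : Mat N))).hasFDerivAt.comp_hasDerivAt (0 : ℝ) h1
  have h3 : (fun τ => (a * trace (P τ ^ (k + 1))).re) =
      (ip (star a • (1 : Mat N))) ∘ fun τ => P τ ^ (k + 1) := by
    funext τ
    exact re_mul_trace a _
  rw [h3]
  have h5 : ip (star a • (1 : Mat N)) (Q * P 0 + P 0 ^ k * P') =
      (a * ((k + 1 : ℕ) * trace (P' * P 0 ^ k))).re := by
    rw [← re_mul_trace, trace_add, trace_mul_comm (P 0 ^ k)]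
    have h4 := ht 0
    rw [zero_add, pow_one, add_zero] at h4
    rw [h4]
    push_cast
    congr 2
    ring
  exact h2.congr_deriv h5

/-- the coefficients of the derivative of the winding loop observable -/
def XM {z : ℂ} (W : TwP N z) (w μ : ℂ) (k : ℕ) (y : Tor l) : Mat N :=
  (w * μ ^ y.1.val * ((k + 1 : ℕ) : ℂ)) • mt W.B ^ (k + 1)

/-- the derivative of the winding loop observable -/
def Lam [NeZero l] {z : ℂ} (W : TwP N z) (w μ : ℂ) (k : ℕ) (D : Tor l × Fin 2 → Mat N) : ℝ :=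
  ∑ y : Tor l, ip ((XM W w μ k y)ᴴ) (D (y, 1))

lemma WM_deriv [NeZero l] {z : ℂ} (W : TwP N z) (w μ : ℂ) (k : ℕ) (D : Tor l × Fin 2 → Mat N) :
    HasDerivAt (fun τ : ℝ => WM w μ k (pth W D τ)) (Lam W w μ k D) 0 := by
  have h1 : ∀ c : ZMod l, HasDerivAt
      (fun τ : ℝ => (w * μ ^ c.val * trace (LM (pth W D τ) c l ^ (k + 1))).re)
      (∑ i : ZMod l, ip ((XM W w μ k (c, i))ᴴ) (D ((c, i), 1))) 0 := by
    intro c
    have h2 := trace_pow_succ_deriv (LM_deriv W D c (le_refl l)) k (w * μ ^ c.val)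
    refine h2.congr_deriv ?_
    rw [pth_zero, LM_vac_l, sum_col (fun i => D ((c, i), 1)), Matrix.mul_assoc, ← pow_succ',
      Finset.sum_mul, trace_sum]
    have h3 : ∀ i : ZMod l, ip ((XM W w μ k (c, i))ᴴ) (D ((c, i), 1)) =
        (w * μ ^ c.val * (((k + 1 : ℕ) : ℂ) * trace (D ((c, i), 1) * mt W.B ^ (k + 1)))).re := by
      intro i
      rw [ip_apply, conjTranspose_conjTranspose]
      unfold XM
      rw [Matrix.smul_mul, trace_smul, trace_mul_comm, smul_eq_mul]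
      congr 1
      ring
    simp only [h3]
    rw [Finset.mul_sum, Finset.mul_sum, Complex.re_sum]
  have h4 := HasDerivAt.fun_sum (u := Finset.univ) fun c _ => h1 c
  have h5 : Lam W w μ k D = ∑ c : ZMod l, ∑ i : ZMod l,
      ip ((XM W w μ k (c, i))ᴴ) (D ((c, i), 1)) := by
    unfold Lam
    exact Fintype.sum_prod_type _
  rw [h5]
  exact h4

/-- the Fréchet derivative at the vacuum -/
lemma WM_fderiv [NeZero l] {z : ℂ} (W : TwP N z) (w μ : ℂ) (k : ℕ) :
    ∃ L : (Tor l × Fin 2 → Mat N) →L[ℝ] ℝ,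
      HasFDerivAt (WM w μ k : (Tor l × Fin 2 → Mat N) → ℝ) L (fun e => mt (vac l W e)) ∧
      ∀ D : Tor l × Fin 2 → Mat N, L (fun e => D e * mt (vac l W e)) = Lam W w μ k D := by
  obtain ⟨x₀, hx₀⟩ : ∃ x₀ : Tor l × Fin 2 → Mat N, x₀ = fun e => mt (vac l W e) := ⟨_, rfl⟩
  have hd : HasFDerivAt (WM w μ k : (Tor l × Fin 2 → Mat N) → ℝ) (fderiv ℝ (WM w μ k) x₀) x₀ :=
    ((WM_contDiff w μ k).contDiffAt.differentiableAt (by simp)).hasFDerivAt
  rw [← hx₀]
  refine ⟨fderiv ℝ (WM w μ k) x₀, hd, fun D => ?_⟩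
  have h1 : HasDerivAt (fun τ : ℝ => pth W D τ) (fun e => D e * mt (vac l W e)) 0 := by
    exact hasDerivAt_pi.2 fun e => pth_deriv W D e
  have h2 : HasFDerivAt (WM w μ k : (Tor l × Fin 2 → Mat N) → ℝ) (fderiv ℝ (WM w μ k) x₀)
      (pth W D 0) := by
    rw [pth_zero, ← hx₀]; exact hd
  have h3 := h2.comp_hasDerivAt (0 : ℝ) h1
  exact h3.unique (WM_deriv W w μ k D)

lemma Lam_bound [NeZero l] {z : ℂ} (W : TwP N z) (w μ : ℂ) (k : ℕ) :
    ∃ K : ℝ, 0 ≤ K ∧ ∀ (D : Tor l × Fin 2 → Mat N) (b : ℝ), (∀ e, ‖D e‖ ≤ b) →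
      |Lam W w μ k D| ≤ K * b := by
  refine ⟨∑ y : Tor l, ‖(XM W w μ k y)ᴴ‖, Finset.sum_nonneg fun _ _ => norm_nonneg _,
    fun D b hD => ?_⟩
  unfold Lam
  refine (Finset.abs_sum_le_sum_abs _ _).trans ?_
  rw [Finset.sum_mul]
  refine Finset.sum_le_sum fun y _ => ?_
  exact (abs_ip_le _ _).trans (mul_le_mul_of_nonneg_left (hD _) (norm_nonneg _))

lemma Lam_add [NeZero l] {z : ℂ} (W : TwP N z) (w μ : ℂ) (k : ℕ) (D D' : Tor l × Fin 2 → Mat N) :
    Lam W w μ k (fun e => D e + D' e) = Lam W w μ k D + Lam W w μ k D' := by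
  unfold Lam
  rw [← Finset.sum_add_distrib]
  exact Finset.sum_congr rfl fun y _ => map_add _ _ _

end

end Pool.Agent.N984.TW
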