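import Mathlib
import Pool.Agent.N838.TW.Obs2

/-!
# The winding loop observable of the torus: the eigenvector
-/

open MeasureTheory Matrix Filter
open scoped Matrix.Norms.Frobenius ContDiff Topology
open Pool.Agent.H906R3.YM Pool.Agent.W793.YM Pool.Agent.TH618.YM

namespace Pool.Agent.N984.TW

set_option linter.unusedSectionVars false

noncomputable section

variable {N l n : ℕ}

/-- the root of unity of the lowest momentum -/
def muN (N l : ℕ) : ℂ := Complex.exp (2 * Real.pi * Complex.I / ((N * l : ℕ) : ℂ))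

/-- **The eigenvectors of the covariant Laplacian** with the eigenvalue `M2`. -/
theorem spec_vec [NeZero l] [NeZero N] {z : ℂ} 
    (W : TwP N z) (B : Frame (SU N) n) {X : Mat N} (htr : X.trace = 0)
    (hXA : AdC W.A X = Complex.exp (2 * Real.pi * Complex.I / N) • X) (hXB : AdC W.B X = X)
    {om : Tor l → Fin n → ℝ}
    (hom : om = fun y => pc B (muN N l ^ y.1.val • X - (muN N l ^ y.1.val • X)ᴴ)) :
    (∀ y, LX B (om y) = muN N l ^ y.1.val • X - (muN N l ^ y.1.val • X)ᴴ) ∧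
    Sh B (vac l W) 1 om = om ∧
      (om - Sh B (vac l W) 0 om) - Shi B (vac l W) 0 (om - Sh B (vac l W) 0 om) = M2 N l • om := by
  obtain ⟨μ, hμ⟩ : ∃ μ, μ = Complex.exp (2 * Real.pi * Complex.I / ((N * l : ℕ) : ℂ)) := ⟨_, rfl⟩
  have hmu : muN N l = μ := hμ.symm
  rw [hmu] at hom
  rw [hmu]
  have hlC : (l : ℂ) ≠ 0 := by exact_mod_cast NeZero.ne l
  have hNC : (N : ℂ) ≠ 0 := by exact_mod_cast NeZero.ne N
  have hμl : μ ^ l = Complex.exp (2 * Real.pi * Complex.I / N) := by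
    rw [hμ, ← Complex.exp_nat_mul]
    congr 1
    push_cast
    field_simp
  obtain ⟨θ, hθ⟩ : ∃ θ : ℝ, θ = Real.pi / ((N * l : ℕ) : ℝ) := ⟨_, rfl⟩
  have hμθ : μ = Complex.exp (((2 * θ : ℝ) : ℂ) * Complex.I) := by
    rw [hμ, hθ]
    congr 1
    push_cast
    ring
  have hμn : ‖μ‖ = 1 := by rw [hμθ]; exact Complex.norm_exp_ofReal_mul_I _
  have hμμ : star μ * μ = 1 := by
    have h := Complex.normSq_eq_conj_mul_self (z := μ)
    rw [Complex.normSq_eq_norm_sq, hμn] at h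
    have h2 : (starRingEnd ℂ) μ * μ = 1 := by rw [← h]; norm_num
    exact h2
  have hμre : 2 - μ - star μ = ((M2 N l : ℝ) : ℂ) := by
    have h1 : μ + star μ = ((2 * μ.re : ℝ) : ℂ) := Complex.add_conj μ
    have h2 : μ.re = Real.cos (2 * θ) := by rw [hμθ]; exact Complex.exp_ofReal_mul_I_re _
    have h3 : M2 N l = 2 - 2 * Real.cos (2 * θ) := by
      unfold M2
      rw [← hθ, Real.cos_two_mul]
      have := Real.sin_sq_add_cos_sq θ
      linarith
    rw [sub_sub, h1, h2, h3]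
    push_cast
    ring
  -- the complex eigenvector
  obtain ⟨Yc, hYc⟩ : ∃ Yc : Tor l → Mat N, Yc = fun y => μ ^ y.1.val • X := ⟨_, rfl⟩
  have hS0 : ∀ y, AdC (vac l W (y, 0)) (Yc (y + uT l 0)) = μ • Yc y := by
    intro y
    rw [vac_eq, hYc]
    have e1 : (y + uT l 0).1 = y.1 + 1 := rfl
    simp only [e1]
    rw [AdC_smul]
    have e2 : cj 0 y = y.1 := rfl
    rw [e2]
    by_cases h : y.1 = -1
    · have hv : (y.1 + 1 : ZMod l).val = 0 := by rw [h, neg_add_cancel, ZMod.val_zero]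
      have hv2 : y.1.val + 1 = l := by
        have h3 : y.1.val = l - 1 := by
          rw [h]
          have h4 := Pool.Agent.N838.Flat.cast_pred (l := l)
          rw [← h4]
          exact ZMod.val_natCast_of_lt (Nat.sub_lt (Nat.pos_of_ne_zero (NeZero.ne l)) one_pos)
        rw [h3]
        exact Nat.sub_add_cancel (Nat.pos_of_ne_zero (NeZero.ne l))
      rw [if_pos h, hv, pow_zero, one_smul]
      have : gX W 0 = W.A := rfl
      rw [this, hXA, ← hμl, smul_smul, ← pow_succ', hv2]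
    · have hv : (y.1 + 1 : ZMod l).val = y.1.val + 1 := by
        have h3 : y.1.val + 1 < l := by
          have h4 := ZMod.val_lt y.1
          rcases Nat.lt_or_ge (y.1.val + 1) l with h5 | h5
          · exact h5
          · exfalso
            apply h
            have h6 : y.1.val + 1 = l := by omega
            have h7 : ((y.1.val + 1 : ℕ) : ZMod l) = 0 := by rw [h6]; simp
            rw [Nat.cast_add, ZMod.natCast_zmod_val, Nat.cast_one] at h7
            exact eq_neg_of_add_eq_zero_left h7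
        have h8 : (y.1 + 1 : ZMod l) = ((y.1.val + 1 : ℕ) : ZMod l) := by
          rw [Nat.cast_add, ZMod.natCast_zmod_val, Nat.cast_one]
        rw [h8, ZMod.val_natCast_of_lt h3]
      rw [if_neg h, hv, AdC_one, smul_smul, ← pow_succ']
  have hS1 : ∀ y, AdC (vac l W (y, 1)) (Yc (y + uT l 1)) = Yc y := by
    intro y
    rw [vac_eq, hYc]
    have e1 : (y + uT l 1).1 = y.1 := add_zero _
    simp only [e1]
    rw [AdC_smul]
    congr 1
    split_ifs
    · exact hXB
    · exact AdC_one X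
  have hS0i : ∀ y, AdC (vac l W (y - uT l 0, 0))⁻¹ (Yc (y - uT l 0)) = star μ • Yc y := by
    intro y
    have h1 := hS0 (y - uT l 0)
    rw [sub_add_cancel] at h1
    have h2 : Yc (y - uT l 0) = star μ • AdC (vac l W (y - uT l 0, 0)) (Yc y) := by
      rw [h1, smul_smul, hμμ, one_smul]
    rw [h2, AdC_smul, AdC_inv]
  -- the real eigenvector
  obtain ⟨Y, hY⟩ : ∃ Y : Tor l → Mat N, Y = fun y => Yc y - (Yc y)ᴴ := ⟨_, rfl⟩
  have hYs : ∀ y, Y y ∈ Submodule.span ℝ (Set.range B.X) := by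
    intro y
    refine mem_span_of_skew B ?_ ?_
    · rw [hY]
      simp only [conjTranspose_sub, conjTranspose_conjTranspose, neg_sub]
    · rw [hY]
      simp only [trace_sub, trace_conjTranspose]
      have : (Yc y).trace = 0 := by
        rw [hYc]
        simp only [trace_smul, htr, smul_zero]
      rw [this, star_zero, sub_zero]
  have hom' : om = fun y => pc B (Y y) := by
    rw [hom, hY, hYc]
  have hL : ∀ y, LX B (om y) = Y y := by
    intro y
    rw [hom']
    exact LX_pc B (hYs y)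
  have hsh : ∀ (j : Fin 2) (y : Tor l), LX B (Sh B (vac l W) j om y) =
      AdC (vac l W (y, j)) (Yc (y + uT l j)) - (AdC (vac l W (y, j)) (Yc (y + uT l j)))ᴴ := by
    intro j y
    rw [Sh_apply, LX_AdM, hL]
    show AdC (vac l W (y, j)) (Y (y + uT l j)) = _
    rw [hY]
    simp only
    rw [AdC_sub, AdC_ct]
  have hshi : ∀ y : Tor l, LX B (Shi B (vac l W) 0 om y) = star μ • Yc y - (star μ • Yc y)ᴴ := by
    intro y
    rw [Shi_apply, LX_AdM, hL]
    show AdC (vac l W (y - uT l 0, 0))⁻¹ (Y (y - uT l 0)) = _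
    rw [hY]
    simp only
    rw [AdC_sub, AdC_ct, hS0i]
  refine ⟨?_, ?_, ?_⟩
  · intro y
    rw [hL, hY, hYc]
  · funext y
    refine LX_inj B ?_
    rw [hsh, hS1, hL, hY]
  · rw [map_sub, Shi_Sh]
    funext y
    refine LX_inj B ?_
    have e1 : ((om - Sh B (vac l W) 0 om) - (Shi B (vac l W) 0 om - om)) y =
        (2 : ℝ) • om y + (-(Sh B (vac l W) 0 om y) + -(Shi B (vac l W) 0 om y)) := by
      simp only [Pi.sub_apply]
      funext a
      simp only [Pi.sub_apply, Pi.add_apply, Pi.smul_apply, Pi.neg_apply, smul_eq_mul]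
      ring
    rw [e1, LX_add, LX_add, LX_smul, LX_neg, LX_neg, hsh, hshi, hS0, Pi.smul_apply, LX_smul, hL, hY]
    simp only [conjTranspose_smul, star_star]
    have e2 : M2 N l • (Yc y - (Yc y)ᴴ) = (2 - μ - star μ) • (Yc y - (Yc y)ᴴ) := by
      rw [hμre]
      rfl
    have e3 : (2 : ℝ) • (Yc y - (Yc y)ᴴ) = (2 : ℂ) • (Yc y - (Yc y)ᴴ) := by
      have : (2 : ℂ) = ((2 : ℝ) : ℂ) := by norm_num
      rw [this]
      rfl
    rw [e2, e3]
    module

lemma pc_ct (B : Frame (SU N) n) (A : Mat N) : pc B Aᴴ = -pc B A := by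
  funext a
  show ip (B.X a) Aᴴ = -ip (B.X a) A
  rw [ip_apply, ip_apply, B.skewX]
  have h1 : (-B.X a * Aᴴ) = (A * B.X a)ᴴ := by
    rw [conjTranspose_mul, B.skewX]
  have h2 : trace (-B.X a * Aᴴ) = star (trace (A * B.X a)) := by
    rw [h1, trace_conjTranspose]
  rw [h2, trace_mul_comm, Matrix.neg_mul, trace_neg]
  simp

lemma pc_smul_r (B : Frame (SU N) n) (r : ℝ) (A : Mat N) : pc B (r • A) = r • pc B A := by
  funext a
  show ip (B.X a) (r • A) = r * ip (B.X a) A
  rw [map_smul, smul_eq_mul]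

/-- the matrices of the winding loops at the vacuum are eigenvectors -/
lemma exists_wk [NeZero N] (hN : 2 ≤ N) {z : ℂ} (hz : IsPrimitiveRoot z N) (W : TwP N z) :
    ∃ (w : ℂ) (k : ℕ), (mt W.B ^ (k + 1)).trace = 0 ∧
      w • mt W.B ^ (k + 1) - (w • mt W.B ^ (k + 1))ᴴ ≠ 0 ∧
      AdC W.A (mt W.B ^ (k + 1)) = Complex.exp (2 * Real.pi * Complex.I / N) • mt W.B ^ (k + 1) ∧
      AdC W.B (mt W.B ^ (k + 1)) = mt W.B ^ (k + 1) := by
  obtain ⟨ζ, hζ⟩ : ∃ ζ, ζ = Complex.exp (2 * Real.pi * Complex.I / N) := ⟨_, rfl⟩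
  have hζp : IsPrimitiveRoot ζ N := by
    rw [hζ]; exact Complex.isPrimitiveRoot_exp N (NeZero.ne N)
  have hζ1 : ζ ≠ 1 := hζp.ne_one (by omega)
  obtain ⟨b, -, hb⟩ := hz.eq_pow_of_pow_eq_one hζp.pow_eq_one
  obtain ⟨k, rfl⟩ : ∃ k, b = k + 1 := by
    refine Nat.exists_eq_succ_of_ne_zero ?_
    rintro rfl
    rw [pow_zero] at hb
    exact hζ1 hb.symm
  obtain ⟨X, hX⟩ : ∃ X, X = mt W.B ^ (k + 1) := ⟨_, rfl⟩
  have hX' : X = mt (W.B ^ (k + 1)) := by rw [hX, mt_pow]
  have hAB : ∀ k : ℕ, mt W.A * mt W.B ^ k = z ^ k • (mt W.B ^ k * mt W.A) := by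
    intro k
    induction k with
    | zero => simp
    | succ k ih =>
      rw [pow_succ, ← Matrix.mul_assoc, ih, smul_mul_assoc, Matrix.mul_assoc, W.hAB,
        mul_smul_comm, smul_smul, ← Matrix.mul_assoc, ← pow_succ, ← pow_succ]
  have hA : AdC W.A X = ζ • X := by
    unfold AdC
    have h1 : mt W.A * (mt W.A)ᴴ = 1 := rhoG_unit _
    rw [hX, ← Matrix.mul_assoc, hAB, smul_mul_assoc, Matrix.mul_assoc, h1, Matrix.mul_one, hb]
  have hB : AdC W.B X = X := by
    unfold AdC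
    have h1 : mt W.B * (mt W.B)ᴴ = 1 := rhoG_unit _
    rw [hX, ← Matrix.mul_assoc, ← pow_succ', pow_succ, Matrix.mul_assoc, h1, Matrix.mul_one]
  have htr : X.trace = 0 := by
    have h1 : (AdC W.A X).trace = X.trace := by
      unfold AdC
      have h2 : (mt W.A)ᴴ * mt W.A = 1 := rhoG_unit' _
      rw [trace_mul_comm, Matrix.mul_assoc, h2, Matrix.mul_one]
    rw [hA, trace_smul, smul_eq_mul] at h1
    have h2 : (ζ - 1) * X.trace = 0 := by rw [sub_mul, one_mul, h1, sub_self]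
    exact (mul_eq_zero.1 h2).resolve_left (sub_ne_zero.2 hζ1)
  have hX0 : X ≠ 0 := by
    intro h0
    have h1 : mt (W.B ^ (k + 1)) * (mt (W.B ^ (k + 1)))ᴴ = 1 :=
      rhoG_unit (G := SU N) (W.B ^ (k + 1))
    rw [← hX', h0, Matrix.zero_mul] at h1
    have : (1 : Mat N) ≠ 0 := by
      intro h2
      have h3 := congrFun (congrFun h2 (0 : Fin N)) (0 : Fin N)
      simp at h3
    exact this h1.symm
  rw [← hζ]
  by_cases h : X - Xᴴ = 0
  · refine ⟨Complex.I, k, ?_, ?_, ?_, ?_⟩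
    · rw [← hX]; exact htr
    · rw [← hX, conjTranspose_smul, ← sub_eq_zero.1 h]
      have e : Complex.I • X - star Complex.I • X = (2 * Complex.I) • X := by
        rw [← sub_smul]
        congr 1
        have : star Complex.I = -Complex.I := Complex.conj_I
        rw [this]; ring
      rw [e]
      exact smul_ne_zero (by simp) hX0
    · rw [← hX]; exact hA
    · rw [← hX]; exact hB
  · refine ⟨1, k, ?_, ?_, ?_, ?_⟩
    · rw [← hX]; exact htr
    · rw [← hX, one_smul]; exact h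
    · rw [← hX]; exact hA
    · rw [← hX]; exact hB

/-- the inner product of Lie algebra valued functions in coordinates -/
def in2 {I : Type*} [Fintype I] (f g : I → Fin n → ℝ) : ℝ := ∑ i, ∑ a, f i a * g i a

lemma in2_add_r {I : Type*} [Fintype I] (f g h : I → Fin n → ℝ) :
    in2 f (g + h) = in2 f g + in2 f h := by
  unfold in2
  rw [← Finset.sum_add_distrib]
  refine Finset.sum_congr rfl fun i _ => ?_
  rw [← Finset.sum_add_distrib]
  exact Finset.sum_congr rfl fun a _ => by rw [Pi.add_apply, Pi.add_apply]; ring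

lemma in2_sub_r {I : Type*} [Fintype I] (f g h : I → Fin n → ℝ) :
    in2 f (g - h) = in2 f g - in2 f h := by
  unfold in2
  rw [← Finset.sum_sub_distrib]
  refine Finset.sum_congr rfl fun i _ => ?_
  rw [← Finset.sum_sub_distrib]
  exact Finset.sum_congr rfl fun a _ => by rw [Pi.sub_apply, Pi.sub_apply]; ring

lemma in2_comm {I : Type*} [Fintype I] (f g : I → Fin n → ℝ) : in2 f g = in2 g f := by
  unfold in2
  exact Finset.sum_congr rfl fun i _ => Finset.sum_congr rfl fun a _ => mul_comm _ _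

lemma in2_smul_l {I : Type*} [Fintype I] (r : ℝ) (f g : I → Fin n → ℝ) :
    in2 (r • f) g = r * in2 f g := by
  unfold in2
  rw [Finset.mul_sum]
  refine Finset.sum_congr rfl fun i _ => ?_
  rw [Finset.mul_sum]
  exact Finset.sum_congr rfl fun a _ => by
    rw [Pi.smul_apply, Pi.smul_apply, smul_eq_mul]; ring

lemma in2_neg_l {I : Type*} [Fintype I] (f g : I → Fin n → ℝ) : in2 (-f) g = -in2 f g := by
  have h := in2_smul_l (-1) f g
  rw [neg_one_smul, neg_one_mul] at h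
  exact h

lemma in2_sub_l {I : Type*} [Fintype I] (f g h : I → Fin n → ℝ) :
    in2 (f - g) h = in2 f h - in2 g h := by
  rw [in2_comm, in2_sub_r, in2_comm h f, in2_comm h g]

/-- the adjoint of the covariant shift -/
lemma Sh_adj [NeZero l] (B : Frame (SU N) n) (φ : Tor l × Fin 2 → SU N) (j : Fin 2)
    (f g : Tor l → Fin n → ℝ) : in2 (Sh B φ j f) g = in2 f (Shi B φ j g) := by
  unfold in2
  have e1 : ∀ y : Tor l, ∑ a, Sh B φ j f y a * g y a =
      ∑ a, f (y + uT l j) a * AdM B (φ (y, j))⁻¹ (g y) a := by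
    intro y
    exact AdM_adj B (φ (y, j)) (f (y + uT l j)) (g y)
  simp only [e1]
  rw [← Equiv.sum_comp (Equiv.addRight (uT l j)) (fun y => ∑ a, f y a * Shi B φ j g y a)]
  refine Finset.sum_congr rfl fun y _ => ?_
  rw [Equiv.coe_addRight, Shi_apply, add_sub_cancel_right]

/-- the lowest mode -/
def uW {z : ℂ} (W : TwP N z) (B : Frame (SU N) n) (w μ : ℂ) (k : ℕ) :
    Tor l × Fin 2 → Fin n → ℝ :=
  fun e => if e.2 = 1 then pc B ((XM W w μ k e.1)ᴴ) else 0

section mode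

variable [NeZero l] [NeZero N] {z : ℂ} (hz : IsPrimitiveRoot z N) (W : TwP N z)
  (B : Frame (SU N) n) {w : ℂ} {k : ℕ}

lemma cmp_uW_zero {μ : ℂ} : cmp (uW (l := l) W B w μ k) 0 = 0 := by
  funext y
  show (if (0 : Fin 2) = 1 then pc B ((XM W w μ k y)ᴴ) else 0) = _
  rw [if_neg (by decide)]
  rfl

lemma cmp_uW_one {μ : ℂ} : cmp (uW (l := l) W B w μ k) 1 =
    fun y => pc B ((XM W w μ k y)ᴴ) := by
  funext y
  show (if (1 : Fin 2) = 1 then pc B ((XM W w μ k y)ᴴ) else 0) = _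
  rw [if_pos rfl]

/-- the lowest mode in terms of the eigenvector -/
lemma uW_eq :
    (fun y : Tor l => pc B ((XM W w (muN N l) k y)ᴴ)) = (-(1 / 2 : ℝ)) • fun y : Tor l =>
      pc B (muN N l ^ y.1.val • (((k + 1 : ℕ) : ℂ) • w • mt W.B ^ (k + 1)) -
        (muN N l ^ y.1.val • (((k + 1 : ℕ) : ℂ) • w • mt W.B ^ (k + 1)))ᴴ) := by
  funext y
  have e : XM W w (muN N l) k y =
      muN N l ^ y.1.val • (((k + 1 : ℕ) : ℂ) • w • mt W.B ^ (k + 1)) := by
    unfold XM
    rw [smul_smul, smul_smul]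
    congr 1
    ring
  rw [Pi.smul_apply, e, pc_sub, pc_ct, sub_neg_eq_add]
  funext a
  rw [Pi.neg_apply, Pi.smul_apply, Pi.add_apply, smul_eq_mul]
  ring

variable (htr : (mt W.B ^ (k + 1)).trace = 0)
  (hne : w • mt W.B ^ (k + 1) - (w • mt W.B ^ (k + 1))ᴴ ≠ 0)
  (hXA : AdC W.A (mt W.B ^ (k + 1)) =
    Complex.exp (2 * Real.pi * Complex.I / N) • mt W.B ^ (k + 1))
  (hXB : AdC W.B (mt W.B ^ (k + 1)) = mt W.B ^ (k + 1))

include htr hXA hXB in
lemma uW_spec : Sh B (vac l W) 1 (cmp (uW W B w (muN N l) k) 1) = cmp (uW W B w (muN N l) k) 1 ∧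
    (cmp (uW W B w (muN N l) k) 1 - Sh B (vac l W) 0 (cmp (uW W B w (muN N l) k) 1)) -
      Shi B (vac l W) 0 (cmp (uW W B w (muN N l) k) 1 -
        Sh B (vac l W) 0 (cmp (uW W B w (muN N l) k) 1)) =
      M2 N l • cmp (uW W B w (muN N l) k) 1 := by
  obtain ⟨X, hX⟩ : ∃ X : Mat N, X = ((k + 1 : ℕ) : ℂ) • w • mt W.B ^ (k + 1) := ⟨_, rfl⟩
  have h1 : X.trace = 0 := by rw [hX, trace_smul, trace_smul, htr, smul_zero, smul_zero]
  have h2 : AdC W.A X = Complex.exp (2 * Real.pi * Complex.I / N) • X := by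
    rw [hX, AdC_smul, AdC_smul, hXA, smul_comm w, smul_comm ((k + 1 : ℕ) : ℂ)]
  have h3 : AdC W.B X = X := by rw [hX, AdC_smul, AdC_smul, hXB]
  obtain ⟨om, hom⟩ : ∃ om : Tor l → Fin n → ℝ,
    om = fun y => pc B (muN N l ^ y.1.val • X - (muN N l ^ y.1.val • X)ᴴ) := ⟨_, rfl⟩
  obtain ⟨-, h4, h5⟩ := spec_vec W B h1 h2 h3 hom
  have h6 : cmp (uW (l := l) W B w (muN N l) k) 1 = (-(1 / 2 : ℝ)) • om := by
    rw [cmp_uW_one, uW_eq, hom, hX]
  rw [h6]
  refine ⟨by rw [map_smul, h4], ?_⟩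
  rw [map_smul, ← smul_sub, map_smul, ← smul_sub, h5, smul_comm]

include htr hne in
lemma uW_ne : uW (l := l) W B w (muN N l) k ≠ 0 := by
  intro h0
  have h1 : cmp (uW (l := l) W B w (muN N l) k) 1 0 = 0 := by rw [h0]; rfl
  rw [cmp_uW_one] at h1
  have h2 : XM W w (muN N l) k (0 : Tor l) = ((k + 1 : ℕ) : ℝ) • (w • mt W.B ^ (k + 1)) := by
    unfold XM
    have e1 : ((0 : Tor l).1).val = 0 := ZMod.val_zero
    rw [e1, pow_zero, mul_one, mul_comm, ← smul_smul]
    rfl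
  have h3 : pc B (w • mt W.B ^ (k + 1)) = 0 := by
    have h4 : pc B (XM W w (muN N l) k (0 : Tor l)) = 0 := by
      have h5 := h1
      simp only [pc_ct] at h5
      exact neg_eq_zero.1 h5
    rw [h2, pc_smul_r] at h4
    refine (smul_eq_zero.1 h4).resolve_left ?_
    exact_mod_cast Nat.succ_ne_zero k
  obtain ⟨Y, hY⟩ : ∃ Y : Mat N, Y = w • mt W.B ^ (k + 1) := ⟨_, rfl⟩
  rw [← hY] at h3 hne
  have h4 : Y - Yᴴ ∈ Submodule.span ℝ (Set.range B.X) := by
    refine mem_span_of_skew B ?_ ?_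
    · rw [conjTranspose_sub, conjTranspose_conjTranspose, neg_sub]
    · have : Y.trace = 0 := by rw [hY, trace_smul, htr, smul_zero]
      rw [trace_sub, trace_conjTranspose, this, star_zero, sub_zero]
  have h5 := LX_pc B h4
  rw [pc_sub, pc_ct, h3, neg_zero, sub_zero, LX_zero] at h5
  exact hne h5.symm

include htr hXA hXB in
lemma uW_Jst : Jst B (vac l W) (uW W B w (muN N l) k) = 0 := by
  obtain ⟨h1, -⟩ := uW_spec (l := l) W B htr hXA hXB
  rw [Jst_eq, cmp_uW_zero, map_zero, sub_zero, zero_add]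
  obtain ⟨om, hom⟩ : ∃ om, om = cmp (uW (l := l) W B w (muN N l) k) 1 := ⟨_, rfl⟩
  rw [← hom] at h1 ⊢
  have h2 : Shi B (vac l W) 1 om = om := by
    conv_lhs => rw [← h1]
    exact Shi_Sh B _ 1 om
  rw [h2, sub_self]

include hz htr hXA hXB in
lemma uW_J1 (al : Tor l × Fin 2 → Fin n → ℝ) :
    in2 (J1c B (vac l W) (uW W B w (muN N l) k)) (J1c B (vac l W) al) =
      M2 N l * in2 (uW W B w (muN N l) k) al := by
  obtain ⟨h1, h2⟩ := uW_spec (l := l) W B htr hXA hXB
  obtain ⟨om, hom⟩ : ∃ om, om = cmp (uW (l := l) W B w (muN N l) k) 1 := ⟨_, rfl⟩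
  rw [← hom] at h1 h2
  obtain ⟨v, hv⟩ : ∃ v, v = om - Sh B (vac l W) 0 om := ⟨_, rfl⟩
  rw [← hv] at h2
  have h3 : J1c B (vac l W) (uW W B w (muN N l) k) = -v := by
    rw [J1c_eq, cmp_uW_zero, map_zero, sub_zero, zero_sub, ← hom, hv]
  have h4 : Sh B (vac l W) 1 v = v := by
    rw [hv, map_sub, h1, ← Sh_comm hz B (vac_flat (l := l) hz W), h1]
  have h5 : Shi B (vac l W) 1 v = v := by
    conv_lhs => rw [← h4]
    exact Shi_Sh B _ 1 v
  have h6 : ∀ f : Tor l → Fin n → ℝ, in2 v (Sh B (vac l W) 1 f) = in2 v f := by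
    intro f
    rw [in2_comm, Sh_adj, h5, in2_comm]
  have h7 : ∀ f : Tor l → Fin n → ℝ, in2 v (f - Sh B (vac l W) 0 f) = M2 N l * in2 om f := by
    intro f
    rw [in2_sub_r, in2_comm v (Sh B (vac l W) 0 f), Sh_adj, in2_comm f, ← in2_sub_l, h2,
      in2_smul_l]
  have h8 : in2 (uW W B w (muN N l) k) al = in2 om (cmp al 1) := by
    unfold in2
    rw [Fintype.sum_prod_type]
    refine Finset.sum_congr rfl fun y _ => ?_
    rw [Fin.sum_univ_two]
    have e0 : ∀ a, uW W B w (muN N l) k (y, 0) a = 0 := fun a =>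
      congrFun (congrFun (cmp_uW_zero (l := l) W B (w := w) (k := k) (μ := muN N l)) y) a
    have e1 : ∀ a, uW W B w (muN N l) k (y, 1) a = om y a := fun a => by rw [hom]; rfl
    simp only [e0, e1, zero_mul, Finset.sum_const_zero, zero_add]
    rfl
  rw [h3, J1c_eq, in2_neg_l, in2_sub_r, in2_sub_r v (cmp al 0), h6, sub_self, zero_sub, neg_neg,
    h7, h8]

end mode

end

end Pool.Agent.N984.TW
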