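import Mathlib
import Pool.Agent.N838.TW.Obs3

/-!
# The winding loop observable of the torus: the theorem
-/

open MeasureTheory Matrix Filter
open scoped Matrix.Norms.Frobenius ContDiff Topology
open Pool.Agent.H906R3.YM Pool.Agent.W793.YM Pool.Agent.TH618.YM

namespace Pool.Agent.N984.TW

set_option linter.unusedSectionVars false

noncomputable section

variable {N l n : ℕ}

lemma WG_vac [NeZero l] {z : ℂ} (W : TwP N z) (w μ : ℂ) {k : ℕ}
    (htr : (mt W.B ^ (k + 1)).trace = 0) : WG w μ k (vac l W) = 0 := by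
  unfold WG WM
  refine Finset.sum_eq_zero fun c _ => ?_
  rw [LM_vac_l, htr, mul_zero, Complex.zero_re]

lemma Lam_LX [NeZero l] [NeZero N] {z : ℂ} (W : TwP N z) (B : Frame (SU N) n) (w μ : ℂ) (k : ℕ)
    (x : Tor l × Fin 2 → Fin n → ℝ) :
    Lam W w μ k (fun e => LX B (x e)) = ∑ e, ∑ a, uW W B w μ k e a * x e a := by
  unfold Lam
  refine Eq.trans ?_ (Fintype.sum_prod_type
    (fun e : Tor l × Fin 2 => ∑ a, uW W B w μ k e a * x e a)).symm
  refine Finset.sum_congr rfl fun y _ => ?_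
  rw [Fin.sum_univ_two]
  have e0 : ∀ a, uW W B w μ k (y, 0) a = 0 := fun a =>
    congrFun (congrFun (cmp_uW_zero (l := l) W B (w := w) (k := k) (μ := μ)) y) a
  have e1 : ∀ a, uW W B w μ k (y, 1) a = pc B ((XM W w μ k y)ᴴ) a := fun a =>
    congrFun (congrFun (cmp_uW_one (l := l) W B (w := w) (k := k) (μ := μ)) y) a
  simp only [e0, e1, zero_mul, Finset.sum_const_zero, zero_add]
  refine (ip_LX' B (x (y, 1)) _).trans ?_
  exact Finset.sum_congr rfl fun a _ => mul_comm _ _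

/-- the deviation of the torus links of a spin from the vacuum -/
def dv (g : Fib N l) : Tor l × Fin 2 → Mat N := fun e => mt (g (e.1, Fin.natAdd 2 e.2)) - 1

lemma mt_dv {z : ℂ} (W : TwP N z) (g : Fib N l) :
    (fun e => mt ((phi g * vac l W) e)) - (fun e => mt (vac l W e)) =
      fun e => dv g e * mt (vac l W e) := by
  funext e
  show mt (g (e.1, Fin.natAdd 2 e.2) * vac l W e) - mt (vac l W e) = _
  rw [mt_mul]
  unfold dv
  rw [Matrix.sub_mul, Matrix.one_mul]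

lemma norm_dv [NeZero l] {z : ℂ} (W : TwP N z) {D : Tor l × Fin 2 → Mat N} {b : ℝ} (hb : 0 ≤ b)
    (hD : ∀ e, ‖D e‖ ≤ b) : ‖fun e => D e * mt (vac l W e)‖ ≤ b := by
  rw [pi_norm_le_iff_of_nonneg hb]
  intro e
  rw [norm_mul_unit]
  exact hD e

/-- increments of the winding loop observable -/
lemma WM_incr [NeZero l] {z : ℂ} (W : TwP N z) (w μ : ℂ) (k : ℕ) (R : ℝ) :
    ∃ C : ℝ, 0 ≤ C ∧ ∀ x y D : Tor l × Fin 2 → Mat N, ‖x - fun e => mt (vac l W e)‖ ≤ R →
      ‖y - fun e => mt (vac l W e)‖ ≤ R → (x - y = fun e => D e * mt (vac l W e)) →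
      |WM w μ k x - WM w μ k y - Lam W w μ k D| ≤
        C * (‖x - fun e => mt (vac l W e)‖ + ‖y - fun e => mt (vac l W e)‖) *
          ‖fun e => D e * mt (vac l W e)‖ := by
  obtain ⟨L, hL, hLam⟩ := WM_fderiv (l := l) W w μ k
  obtain ⟨C₁, hC₁, hincr⟩ := incr_est (WM_contDiff w μ k) (fun e => mt (vac l W e)) R hL
  refine ⟨C₁, hC₁, fun x y D hx hy hD => ?_⟩
  have h1 : ‖WM w μ k x - WM w μ k y - L (x - y)‖ ≤
      C₁ * (‖x - fun e => mt (vac l W e)‖ + ‖y - fun e => mt (vac l W e)‖) * ‖x - y‖ :=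
    hincr x y hx hy
  have h2 : L (x - y) = Lam W w μ k D := by rw [hD]; exact hLam D
  rw [h2, hD] at h1
  exact h1

/-- **The observable.** There is a gauge invariant function of the torus links over a site whose
linear part is an eigenvector of the linearised theory with the eigenvalue `M2`. -/
theorem exists_obs [NeZero l] [NeZero N] (hN : 2 ≤ N) {z : ℂ} (hz : IsPrimitiveRoot z N)
    (W : TwP N z) (B : Frame (SU N) n) (hG : IsClosed (SU N : Set (UN N)))
    (Zg : Type*) [Group Zg] :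
    ∃ (Φ : (Tor l × Fin 2 → SU N) → ℝ) (u : Tor l × Fin 2 → Fin n → ℝ) (C ρ : ℝ),
      0 < C ∧ 0 < ρ ∧ Continuous Φ ∧ (∀ φ, |Φ φ| ≤ C) ∧
      (∀ (h : Tor l → SU N) (φ : Tor l × Fin 2 → SU N), Φ (act sE tE h φ) = Φ φ) ∧
      Φ (vac l W) = 0 ∧ u ≠ 0 ∧ Jst B (vac l W) u = 0 ∧
      (∀ al : Tor l × Fin 2 → Fin n → ℝ,
        ∑ y, ∑ a, J1c B (vac l W) u y a * J1c B (vac l W) al y a =
          M2 N l * ∑ e, ∑ a, u e a * al e a) ∧
      (∀ g : Fib N l × Zg, |Φ (phi g.1 * vac l W) -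
        ∑ e : Tor l × Fin 2, ∑ a, u e a * pp B g ((e.1, Fin.natAdd 2 e.2), a)| ≤
          C * nrm g ^ 2) ∧
      ∀ (g : Fib N l × Zg) (v : EuclideanSpace ℝ ((Tor l × Fin 4) × Fin n)) (t : ℝ),
        ‖v‖ ≤ t → t ≤ ρ →
        |Φ (phi (exx B hG v * g).1 * vac l W) - Φ (phi g.1 * vac l W) -
          ∑ e : Tor l × Fin 2, ∑ a, u e a * v ((e.1, Fin.natAdd 2 e.2), a)| ≤
          C * (t * (t + nrm g)) := by
  have hcomp := compG hG
  obtain ⟨w, k, htr, hne, hXA, hXB⟩ := exists_wk hN hz W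
  obtain ⟨μ, hμ⟩ : ∃ μ, μ = muN N l := ⟨_, rfl⟩
  obtain ⟨u, hu⟩ : ∃ u : Tor l × Fin 2 → Fin n → ℝ, u = uW W B w μ k := ⟨_, rfl⟩
  obtain ⟨R, hR⟩ : ∃ R : ℝ, R = 2 * ‖(1 : Mat N)‖ := ⟨_, rfl⟩
  obtain ⟨C₁, hC₁, hincr⟩ := WM_incr (l := l) W w μ k R
  obtain ⟨C₂, hC₂, hchart⟩ := chart_err B hG
  obtain ⟨K, hK, hKb⟩ := Lam_bound (l := l) W w μ k
  obtain ⟨ρ, hρ, hexx⟩ := exx_spec (J := Tor l × Fin 4) B hG Zg
  obtain ⟨M, hM⟩ := isCompact_univ.exists_bound_of_continuousOn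
    (f := (WG w μ k : (Tor l × Fin 2 → SU N) → ℝ)) (WG_cont w μ k).continuousOn
  have hM' : ∀ φ, |WG w μ k φ| ≤ |M| := fun φ =>
    (hM φ (Set.mem_univ φ)).trans (le_abs_self M)
  obtain ⟨C, hCdef⟩ : ∃ C, C = |M| + (C₁ + K * C₂) + (8 * C₁ + K * (4 * C₂ + 2)) + 1 := ⟨_, rfl⟩
  have hCM : |M| ≤ C := by
    rw [hCdef]; have : 0 ≤ K * C₂ := by positivity
    have : 0 ≤ K * (4 * C₂ + 2) := by positivity
    linarith
  have hC1 : C₁ + K * C₂ ≤ C := by
    rw [hCdef]; have := abs_nonneg M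
    have : 0 ≤ K * (4 * C₂ + 2) := by positivity
    linarith
  have hC2 : 8 * C₁ + K * (4 * C₂ + 2) ≤ C := by
    rw [hCdef]; have := abs_nonneg M
    have : 0 ≤ K * C₂ := by positivity
    linarith
  have hC0 : 0 < C := by
    rw [hCdef]; have := abs_nonneg M
    positivity
  -- the deviation
  have hdvn : ∀ g : Fib N l × Zg, ∀ e, ‖dv g.1 e‖ ≤ nrm g := fun g e => norm_j_le g _
  have hdvR : ∀ g : Fib N l, ∀ e, ‖dv g e‖ ≤ R := fun g e => by rw [hR]; exact mt_norm_le _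
  have hR0 : 0 ≤ R := by rw [hR]; positivity
  have hmR : ∀ g : Fib N l, ‖(fun e => mt ((phi g * vac l W) e)) - (fun e => mt (vac l W e))‖ ≤ R :=
    fun g => by rw [mt_dv]; exact norm_dv W hR0 (hdvR g)
  refine ⟨WG w μ k, u, C, ρ, hC0, hρ, WG_cont w μ k, fun φ => (hM' φ).trans hCM,
    fun h φ => WG_act w μ k h φ, WG_vac W w μ htr, ?_, ?_, ?_, ?_, ?_⟩
  · rw [hu, hμ]; exact uW_ne W B htr hne
  · rw [hu, hμ]; exact uW_Jst W B htr hXA hXB
  · intro al
    rw [hu, hμ]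
    exact uW_J1 hz W B htr hXA hXB al
  · intro g
    have h0 := nrm_nonneg g
    have h1 := hincr (fun e => mt ((phi g.1 * vac l W) e)) (fun e => mt (vac l W e)) (dv g.1)
      (hmR g.1) (by rw [sub_self, norm_zero]; exact hR0) (mt_dv W g.1)
    rw [sub_self, norm_zero, add_zero, mt_dv] at h1
    have h2 : ‖fun e => dv g.1 e * mt (vac l W e)‖ ≤ nrm g := norm_dv W h0 (hdvn g)
    have h3 : WM w μ k (fun e => mt (vac l W e)) = 0 := WG_vac W w μ htr
    rw [h3, sub_zero] at h1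
    have h4 : |WM w μ k (fun e => mt ((phi g.1 * vac l W) e)) - Lam W w μ k (dv g.1)| ≤
        C₁ * nrm g ^ 2 := by
      refine h1.trans ?_
      rw [mul_assoc, pow_two]
      gcongr
    -- the linear part
    have h5 : Lam W w μ k (dv g.1) = (∑ e : Tor l × Fin 2, ∑ a,
        u e a * pp B g ((e.1, Fin.natAdd 2 e.2), a)) +
        Lam W w μ k (fun e => dv g.1 e - LX B (pc B (dv g.1 e))) := by
      have e1 : dv g.1 = fun e => LX B (pc B (dv g.1 e)) + (dv g.1 e - LX B (pc B (dv g.1 e))) := by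
        funext e; abel
      conv_lhs => rw [e1]
      rw [Lam_add, Lam_LX, hu]
      rfl
    have h6 : |Lam W w μ k (fun e => dv g.1 e - LX B (pc B (dv g.1 e)))| ≤
        K * (C₂ * nrm g ^ 2) := by
      refine hKb _ _ fun e => ?_
      refine (hchart _).trans ?_
      gcongr
      exact hdvn g e
    have h7 : |WG w μ k (phi g.1 * vac l W) - Lam W w μ k (dv g.1)| ≤ C₁ * nrm g ^ 2 := h4
    obtain ⟨S, hS⟩ : ∃ S, S = ∑ e : Tor l × Fin 2, ∑ a,
        u e a * pp B g ((e.1, Fin.natAdd 2 e.2), a) := ⟨_, rfl⟩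
    rw [← hS] at h5 ⊢
    rw [h5] at h7
    have h8 : |WG w μ k (phi g.1 * vac l W) - S| ≤ C₁ * nrm g ^ 2 + K * (C₂ * nrm g ^ 2) := by
      have e2 : WG w μ k (phi g.1 * vac l W) - S =
          (WG w μ k (phi g.1 * vac l W) -
            (S + Lam W w μ k (fun e => dv g.1 e - LX B (pc B (dv g.1 e))))) +
          Lam W w μ k (fun e => dv g.1 e - LX B (pc B (dv g.1 e))) := by ring
      rw [e2]
      exact (abs_add_le _ _).trans (add_le_add h7 h6)
    refine h8.trans ?_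
    have e3 : C₁ * nrm g ^ 2 + K * (C₂ * nrm g ^ 2) = (C₁ + K * C₂) * nrm g ^ 2 := by ring
    rw [e3]
    exact mul_le_mul_of_nonneg_right hC1 (sq_nonneg _)
  · intro g v t hv ht
    have h0 := nrm_nonneg g
    have ht0 : 0 ≤ t := (norm_nonneg v).trans hv
    obtain ⟨hx1, hx2⟩ := hexx v (hv.trans ht)
    obtain ⟨g', hg'⟩ : ∃ g' : Fib N l × Zg, g' = exx B hG v * g := ⟨_, rfl⟩
    rw [← hg']
    have hν' : nrm g' ≤ 2 * t + nrm g := by
      rw [hg']
      refine (nrm_mul _ _).trans ?_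
      linarith
    obtain ⟨x, hx⟩ : ∃ x : Tor l × Fin 2 → Fin n → ℝ,
      x = fun e a => v ((e.1, Fin.natAdd 2 e.2), a) := ⟨_, rfl⟩
    -- the increments
    have hEn : ∀ e, ‖mt (Ek B hG (x e)) - 1‖ ≤ 2 * t := by
      intro e
      have := norm_j_le (exx B hG v : Fib N l × Zg) (e.1, Fin.natAdd 2 e.2)
      rw [hx]
      refine le_trans this ?_
      linarith
    have hEp : ∀ e, pc B (mt (Ek B hG (x e)) - 1) = x e := by
      intro e
      funext a
      have h1 := congrArg (fun f : EuclideanSpace ℝ ((Tor l × Fin 4) × Fin n) =>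
        f ((e.1, Fin.natAdd 2 e.2), a)) hx1
      rw [hx]
      exact h1
    have hdd : ∀ e, dv g'.1 e = dv g.1 e + (LX B (x e) + ((mt (Ek B hG (x e)) - 1 - LX B (x e)) +
        (mt (Ek B hG (x e)) - 1) * dv g.1 e)) := by
      intro e
      have e1 : dv g'.1 e = mt (Ek B hG (x e) * g.1 (e.1, Fin.natAdd 2 e.2)) - 1 := by
        rw [hg', hx]
        rfl
      rw [e1, mt_mul]
      unfold dv
      noncomm_ring
    obtain ⟨E, hE⟩ : ∃ E : Tor l × Fin 2 → Mat N, E = fun e =>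
      (mt (Ek B hG (x e)) - 1 - LX B (x e)) + (mt (Ek B hG (x e)) - 1) * dv g.1 e := ⟨_, rfl⟩
    have h2 : (fun e => mt ((phi g'.1 * vac l W) e)) - (fun e => mt ((phi g.1 * vac l W) e)) =
        fun e => (LX B (x e) + E e) * mt (vac l W e) := by
      have e1 : (fun e => mt ((phi g'.1 * vac l W) e)) - (fun e => mt ((phi g.1 * vac l W) e)) =
          ((fun e => mt ((phi g'.1 * vac l W) e)) - (fun e => mt (vac l W e))) -
          ((fun e => mt ((phi g.1 * vac l W) e)) - (fun e => mt (vac l W e))) := by abel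
      rw [e1, mt_dv, mt_dv]
      funext e
      show dv g'.1 e * mt (vac l W e) - dv g.1 e * mt (vac l W e) = _
      rw [← Matrix.sub_mul, hdd, hE, add_sub_cancel_left]
    have h1 := hincr (fun e => mt ((phi g'.1 * vac l W) e)) (fun e => mt ((phi g.1 * vac l W) e))
      (fun e => LX B (x e) + E e) (hmR g'.1) (hmR g.1) h2
    rw [mt_dv, mt_dv] at h1
    have h3 : ‖fun e => dv g'.1 e * mt (vac l W e)‖ ≤ 2 * t + nrm g :=
      (norm_dv W (nrm_nonneg g') (hdvn g')).trans hν'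
    have h4 : ‖fun e => dv g.1 e * mt (vac l W e)‖ ≤ nrm g := norm_dv W h0 (hdvn g)
    have h5 : ∀ e, ‖LX B (x e) + E e‖ ≤ 2 * t := by
      intro e
      have e1 : LX B (x e) + E e = (mt (Ek B hG (x e)) - 1) * mt (g.1 (e.1, Fin.natAdd 2 e.2)) := by
        rw [hE]
        unfold dv
        noncomm_ring
      rw [e1, norm_mul_unit]
      exact hEn e
    have h6 : ‖fun e => (LX B (x e) + E e) * mt (vac l W e)‖ ≤ 2 * t :=
      norm_dv W (by linarith) h5
    have h7 : |WG w μ k (phi g'.1 * vac l W) - WG w μ k (phi g.1 * vac l W) -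
        Lam W w μ k (fun e => LX B (x e) + E e)| ≤ C₁ * (2 * t + nrm g + nrm g) * (2 * t) := by
      refine le_trans h1 ?_
      gcongr
    have h8 : ∀ e, ‖E e‖ ≤ C₂ * (2 * t) ^ 2 + 2 * t * nrm g := by
      intro e
      rw [hE]
      refine (norm_add_le _ _).trans (add_le_add ?_ ?_)
      · have h9 := hchart (Ek B hG (x e))
        rw [hEp] at h9
        refine h9.trans ?_
        have := hEn e
        gcongr
      · refine (norm_mul_le _ _).trans ?_
        exact mul_le_mul (hEn e) (hdvn g e) (norm_nonneg _) (by linarith)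
    have h9 := hKb E _ h8
    obtain ⟨S, hS⟩ : ∃ S, S = ∑ e : Tor l × Fin 2, ∑ a,
        u e a * v ((e.1, Fin.natAdd 2 e.2), a) := ⟨_, rfl⟩
    have h10 : Lam W w μ k (fun e => LX B (x e) + E e) = S + Lam W w μ k E := by
      rw [Lam_add, Lam_LX, hS, hu, hx]
    rw [← hS]
    rw [h10] at h7
    have h11 : |WG w μ k (phi g'.1 * vac l W) - WG w μ k (phi g.1 * vac l W) - S| ≤
        C₁ * (2 * t + nrm g + nrm g) * (2 * t) + K * (C₂ * (2 * t) ^ 2 + 2 * t * nrm g) := by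
      have e2 : WG w μ k (phi g'.1 * vac l W) - WG w μ k (phi g.1 * vac l W) - S =
          (WG w μ k (phi g'.1 * vac l W) - WG w μ k (phi g.1 * vac l W) -
            (S + Lam W w μ k E)) + Lam W w μ k E := by ring
      rw [e2]
      exact (abs_add_le _ _).trans (add_le_add h7 h9)
    refine h11.trans ?_
    have h12 : C₁ * (2 * t + nrm g + nrm g) * (2 * t) + K * (C₂ * (2 * t) ^ 2 + 2 * t * nrm g) ≤
        (8 * C₁ + K * (4 * C₂ + 2)) * (t * (t + nrm g)) := by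
      have p1 : 0 ≤ t * nrm g := mul_nonneg ht0 h0
      have p2 : 0 ≤ t * t := mul_nonneg ht0 ht0
      have p3 : 0 ≤ C₁ * (t * nrm g) := mul_nonneg hC₁ p1
      have p4 : 0 ≤ C₁ * (t * t) := mul_nonneg hC₁ p2
      have p5 : 0 ≤ K * (t * t) := mul_nonneg hK p2
      have p6 : 0 ≤ K * C₂ * (t * nrm g) := mul_nonneg (mul_nonneg hK hC₂) p1
      nlinarith [p1, p2, p3, p4, p5, p6]
    refine h12.trans ?_
    exact mul_le_mul_of_nonneg_right hC2 (mul_nonneg ht0 (add_nonneg ht0 h0))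

end

end Pool.Agent.N984.TW
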