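import Mathlib
import Pool.Agent.N984.TW.SysQ
import Pool.Agent.N987.TW.HessE
import Pool.Agent.N838.TW.Obs

/-!
# The lowest mode solves the wave equation of the quadratic form
-/

open MeasureTheory Matrix Filter
open scoped Matrix.Norms.Frobenius ContDiff Topology
open Pool.Agent.H906R3.YM Pool.Agent.W793.YM Pool.Agent.TH618.YM
open Pool.Agent.N990.TW (aof kof QB)

namespace Pool.Agent.N984.TW

set_option linter.unusedSectionVars false
set_option linter.unusedVariables false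

noncomputable section

variable {N l n : ℕ}

/-! ### sums over the plane -/

section plane

lemma sum_blk (a b : Pl) (j : Cn) (g : Pl → ℝ) :
    ∑ t ∈ Dat.TT a b, (if t + off j ∈ Finset.Icc a b then g (t + off j) else 0) =
      ∑ x ∈ Finset.Icc a b, g x := by
  rw [← Finset.sum_filter]
  refine Finset.sum_bij' (fun t _ => t + off j) (fun x _ => x - off j) ?_ ?_ ?_ ?_ ?_
  · intro t ht
    exact (Finset.mem_filter.1 ht).2
  · intro x hx
    rw [Finset.mem_filter, sub_add_cancel]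
    refine ⟨?_, hx⟩
    unfold Dat.TT
    rw [Finset.mem_Icc] at hx ⊢
    obtain ⟨⟨h1, h2⟩, ⟨h3, h4⟩⟩ := hx
    have h5 : ((j.1 : ℕ) : ℤ) ≤ 1 := by have := j.1.2; omega
    have h6 : ((j.2 : ℕ) : ℤ) ≤ 1 := by have := j.2.2; omega
    have h7 : 0 ≤ ((j.1 : ℕ) : ℤ) := by positivity
    have h8 : 0 ≤ ((j.2 : ℕ) : ℤ) := by positivity
    unfold off
    constructor
    · constructor
      · simp only [Prod.fst_sub]; omega
      · simp only [Prod.snd_sub]; omega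
    · constructor
      · simp only [Prod.fst_sub]; omega
      · simp only [Prod.snd_sub]; omega
  · intro t _; exact add_sub_cancel_right t (off j)
  · intro x _; exact sub_add_cancel x (off j)
  · intro t _; rfl

lemma sum_shift {Λ : Finset Pl} (e : Pl) {g : Pl → ℝ} (h : ∀ x, g x ≠ 0 → x ∈ Λ ∧ x - e ∈ Λ) :
    ∑ x ∈ Λ, g (x + e) = ∑ x ∈ Λ, g x := by
  refine Finset.sum_bij_ne_zero (fun x _ _ => x + e) ?_ ?_ ?_ ?_
  · intro x _ hx
    exact (h _ hx).1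
  · intro x _ _ y _ _ hxy
    exact add_right_cancel hxy
  · intro y _ hy
    exact ⟨y - e, (h y hy).2, by rwa [sub_add_cancel], sub_add_cancel y e⟩
  · intro x _ _; rfl

/-- summation by parts -/
lemma sum_parts {Λ : Finset Pl} (e : Pl) {s : Pl → ℝ}
    (h : ∀ x, s x ≠ 0 → x ∈ Λ ∧ x + e ∈ Λ ∧ x - e ∈ Λ) (f : Pl → ℝ) :
    ∑ x ∈ Λ, (if x + e ∈ Λ then (s (x + e) - s x) * (f (x + e) - f x) else 0) =
      ∑ x ∈ Λ, (2 * s x - s (x + e) - s (x - e)) * f x := by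
  have h1 : ∑ x ∈ Λ, (if x + e ∈ Λ then (s (x + e) - s x) * (f (x + e) - f x) else 0) =
      ∑ x ∈ Λ, (s (x + e) - s x) * (f (x + e) - f x) := by
    refine Finset.sum_congr rfl fun x hx => ?_
    by_cases hc : x + e ∈ Λ
    · rw [if_pos hc]
    · rw [if_neg hc]
      have e1 : s x = 0 := by
        by_contra h0
        exact hc (h x h0).2.1
      have e2 : s (x + e) = 0 := by
        by_contra h0
        exact hc (h _ h0).1
      rw [e1, e2]; ring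
  have h2 : ∑ x ∈ Λ, s (x + e) * f (x + e) = ∑ x ∈ Λ, s x * f x := by
    refine sum_shift e (g := fun x => s x * f x) fun x hx => ?_
    have := h x (left_ne_zero_of_mul hx)
    exact ⟨this.1, this.2.2⟩
  have h3 : ∑ x ∈ Λ, s x * f (x + e) = ∑ x ∈ Λ, s (x - e) * f x := by
    have := sum_shift (Λ := Λ) e (g := fun x => s (x - e) * f x) fun x hx => by
      have h4 := h _ (left_ne_zero_of_mul hx)
      rw [sub_add_cancel] at h4
      exact ⟨h4.2.1, h4.1⟩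
    rw [← this]
    refine Finset.sum_congr rfl fun x _ => ?_
    rw [add_sub_cancel_right]
  rw [h1]
  have h4 : ∑ x ∈ Λ, (s (x + e) - s x) * (f (x + e) - f x) =
      ∑ x ∈ Λ, s (x + e) * f (x + e) - ∑ x ∈ Λ, s (x + e) * f x - ∑ x ∈ Λ, s x * f (x + e) +
        ∑ x ∈ Λ, s x * f x := by
    rw [← Finset.sum_sub_distrib, ← Finset.sum_sub_distrib, ← Finset.sum_add_distrib]
    exact Finset.sum_congr rfl fun x _ => by ring
  have h5 : ∑ x ∈ Λ, (2 * s x - s (x + e) - s (x - e)) * f x =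
      ∑ x ∈ Λ, s x * f x - ∑ x ∈ Λ, s (x + e) * f x - ∑ x ∈ Λ, s (x - e) * f x +
        ∑ x ∈ Λ, s x * f x := by
    rw [← Finset.sum_sub_distrib, ← Finset.sum_sub_distrib, ← Finset.sum_add_distrib]
    exact Finset.sum_congr rfl fun x _ => by ring
  rw [h4, h5, h2, h3]

end plane

/-! ### the bilinear form -/

section bil

lemma sq_add {I : Type*} [Fintype I] (x y : I → Fin n → ℝ) :
    Pool.Agent.N990.TW.sq (x + y) = Pool.Agent.N990.TW.sq x + Pool.Agent.N990.TW.sq y +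
      2 * in2 x y := by
  unfold Pool.Agent.N990.TW.sq in2
  rw [Finset.mul_sum, ← Finset.sum_add_distrib, ← Finset.sum_add_distrib]
  refine Finset.sum_congr rfl fun i _ => ?_
  rw [Finset.mul_sum, ← Finset.sum_add_distrib, ← Finset.sum_add_distrib]
  refine Finset.sum_congr rfl fun a _ => ?_
  rw [Pi.add_apply, Pi.add_apply]
  ring

lemma ite3 (p : Prop) [Decidable p] (x y z : ℝ) :
    (if p then x + y + 2 * z else 0) =
      (if p then x else 0) + (if p then y else 0) + 2 * (if p then z else 0) := by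
  split_ifs
  · rfl
  · ring

lemma aof_add (ξ η : Dat.II l → Fin n → ℝ) (j : Cn) : aof (ξ + η) j = aof ξ j + aof η j := rfl

lemma kof_add (ξ η : Dat.II l → Fin n → ℝ) (j : Cn) (k : Fin 2) :
    kof (ξ + η) j k = kof ξ j k + kof η j k := rfl

lemma J1c_add' (B : Frame (SU N) n) (φ₀ : Tor l × Fin 2 → SU N)
    (x y : Tor l × Fin 2 → Fin n → ℝ) :
    Pool.Agent.N990.TW.J1c B φ₀ (x + y) =
      Pool.Agent.N990.TW.J1c B φ₀ x + Pool.Agent.N990.TW.J1c B φ₀ y :=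
  map_add (J1L B φ₀) x y

variable [NeZero N] [NeZero l]

/-- the bilinear form of a block -/
def QP (𝔇 : Dat N l n) (κ : ℝ) (fl : Finset Cn) (ξ η : Dat.II l → Fin n → ℝ) : ℝ :=
  1 / 4 * (∑ j : Cn, if j ∈ fl then
    in2 (J1c 𝔇.B 𝔇.φ₀ (aof ξ j)) (J1c 𝔇.B 𝔇.φ₀ (aof η j)) +
      2 * κ * in2 (𝔇.P (aof ξ j)) (𝔇.P (aof η j)) else 0) +
  1 / 2 * (∑ b : Fin 2, if (0, b) ∈ fl ∧ (1, b) ∈ fl then
    in2 (Jl 𝔇.B sE tE 𝔇.φ₀ (kof ξ (0, b) 0) + aof ξ (1, b) - aof ξ (0, b))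
      (Jl 𝔇.B sE tE 𝔇.φ₀ (kof η (0, b) 0) + aof η (1, b) - aof η (0, b)) else 0) +
  1 / 2 * (∑ a : Fin 2, if (a, 0) ∈ fl ∧ (a, 1) ∈ fl then
    in2 (Jl 𝔇.B sE tE 𝔇.φ₀ (kof ξ (a, 0) 1) + aof ξ (a, 1) - aof ξ (a, 0))
      (Jl 𝔇.B sE tE 𝔇.φ₀ (kof η (a, 0) 1) + aof η (a, 1) - aof η (a, 0)) else 0) +
  (if (0, 0) ∈ fl ∧ (1, 0) ∉ fl then 2 * in2 (kof ξ (0, 0) 0) (kof η (0, 0) 0) else 0) +
  (if (0, 0) ∈ fl ∧ (0, 1) ∉ fl then 2 * in2 (kof ξ (0, 0) 1) (kof η (0, 0) 1) else 0) +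
  (if (0, 0) ∈ fl then
    (if (1, 0) ∈ fl ∧ (0, 1) ∈ fl ∧ (1, 1) ∈ fl then
      in2 (kof ξ (0, 0) 0 + kof ξ (1, 0) 1 - kof ξ (0, 1) 0 - kof ξ (0, 0) 1)
        (kof η (0, 0) 0 + kof η (1, 0) 1 - kof η (0, 1) 0 - kof η (0, 0) 1)
      else 0) else 0)

/-- polarisation -/
lemma QB_add (𝔇 : Dat N l n) (κ : ℝ) (fl : Finset Cn) (ξ η : Dat.II l → Fin n → ℝ) :
    QB 𝔇 κ fl (ξ + η) = QB 𝔇 κ fl ξ + QB 𝔇 κ fl η + 2 * QP 𝔇 κ fl ξ η := by
  have t1 : ∀ j : Cn, (if j ∈ fl then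
      Pool.Agent.N990.TW.sq (Pool.Agent.N990.TW.J1c 𝔇.B 𝔇.φ₀ (aof (ξ + η) j)) +
        2 * κ * Pool.Agent.N990.TW.sq (𝔇.P (aof (ξ + η) j)) else 0) =
      (if j ∈ fl then Pool.Agent.N990.TW.sq (Pool.Agent.N990.TW.J1c 𝔇.B 𝔇.φ₀ (aof ξ j)) +
        2 * κ * Pool.Agent.N990.TW.sq (𝔇.P (aof ξ j)) else 0) +
      (if j ∈ fl then Pool.Agent.N990.TW.sq (Pool.Agent.N990.TW.J1c 𝔇.B 𝔇.φ₀ (aof η j)) +
        2 * κ * Pool.Agent.N990.TW.sq (𝔇.P (aof η j)) else 0) +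
      2 * (if j ∈ fl then in2 (J1c 𝔇.B 𝔇.φ₀ (aof ξ j)) (J1c 𝔇.B 𝔇.φ₀ (aof η j)) +
        2 * κ * in2 (𝔇.P (aof ξ j)) (𝔇.P (aof η j)) else 0) := by
    intro j
    rw [← ite3, aof_add, J1c_add', map_add, sq_add, sq_add]
    have e : ∀ x, Pool.Agent.N990.TW.J1c 𝔇.B 𝔇.φ₀ x = J1c 𝔇.B 𝔇.φ₀ x := fun x => rfl
    simp only [e]
    split_ifs
    · ring
    · rfl
  have t2 : ∀ (i j : Cn) (k : Fin 2) (p : Prop) [Decidable p], (if p then
      Pool.Agent.N990.TW.sq (Jl 𝔇.B sE tE 𝔇.φ₀ (kof (ξ + η) i k) + aof (ξ + η) j -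
        aof (ξ + η) i) else 0) =
      (if p then Pool.Agent.N990.TW.sq (Jl 𝔇.B sE tE 𝔇.φ₀ (kof ξ i k) + aof ξ j - aof ξ i) else 0) +
      (if p then Pool.Agent.N990.TW.sq (Jl 𝔇.B sE tE 𝔇.φ₀ (kof η i k) + aof η j - aof η i) else 0) +
      2 * (if p then in2 (Jl 𝔇.B sE tE 𝔇.φ₀ (kof ξ i k) + aof ξ j - aof ξ i)
        (Jl 𝔇.B sE tE 𝔇.φ₀ (kof η i k) + aof η j - aof η i) else 0) := by
    intro i j k p _
    rw [← ite3, kof_add, aof_add, aof_add, map_add]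
    have e : Jl 𝔇.B sE tE 𝔇.φ₀ (kof ξ i k) + Jl 𝔇.B sE tE 𝔇.φ₀ (kof η i k) +
        (aof ξ j + aof η j) - (aof ξ i + aof η i) =
        (Jl 𝔇.B sE tE 𝔇.φ₀ (kof ξ i k) + aof ξ j - aof ξ i) +
        (Jl 𝔇.B sE tE 𝔇.φ₀ (kof η i k) + aof η j - aof η i) := by abel
    rw [e, sq_add]
  have t3 : ∀ (k : Fin 2) (p : Prop) [Decidable p], (if p then
      2 * Pool.Agent.N990.TW.sq (kof (ξ + η) (0, 0) k) else 0) =
      (if p then 2 * Pool.Agent.N990.TW.sq (kof ξ (0, 0) k) else 0) +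
      (if p then 2 * Pool.Agent.N990.TW.sq (kof η (0, 0) k) else 0) +
      2 * (if p then 2 * in2 (kof ξ (0, 0) k) (kof η (0, 0) k) else 0) := by
    intro k p _
    rw [← ite3, kof_add, sq_add]
    split_ifs
    · ring
    · rfl
  have t4 : (if (0, 0) ∈ fl then (if (1, 0) ∈ fl ∧ (0, 1) ∈ fl ∧ (1, 1) ∈ fl then
      Pool.Agent.N990.TW.sq (kof (ξ + η) (0, 0) 0 + kof (ξ + η) (1, 0) 1 - kof (ξ + η) (0, 1) 0 -
        kof (ξ + η) (0, 0) 1) else 0) else 0) =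
      (if (0, 0) ∈ fl then (if (1, 0) ∈ fl ∧ (0, 1) ∈ fl ∧ (1, 1) ∈ fl then
        Pool.Agent.N990.TW.sq (kof ξ (0, 0) 0 + kof ξ (1, 0) 1 - kof ξ (0, 1) 0 - kof ξ (0, 0) 1)
        else 0) else 0) +
      (if (0, 0) ∈ fl then (if (1, 0) ∈ fl ∧ (0, 1) ∈ fl ∧ (1, 1) ∈ fl then
        Pool.Agent.N990.TW.sq (kof η (0, 0) 0 + kof η (1, 0) 1 - kof η (0, 1) 0 - kof η (0, 0) 1)
        else 0) else 0) +
      2 * (if (0, 0) ∈ fl then (if (1, 0) ∈ fl ∧ (0, 1) ∈ fl ∧ (1, 1) ∈ fl then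
        in2 (kof ξ (0, 0) 0 + kof ξ (1, 0) 1 - kof ξ (0, 1) 0 - kof ξ (0, 0) 1)
          (kof η (0, 0) 0 + kof η (1, 0) 1 - kof η (0, 1) 0 - kof η (0, 0) 1)
        else 0) else 0) := by
    rw [← ite3, ← ite3, kof_add, kof_add, kof_add, kof_add]
    have e : kof ξ (0, 0) 0 + kof η (0, 0) 0 + (kof ξ (1, 0) 1 + kof η (1, 0) 1) -
        (kof ξ (0, 1) 0 + kof η (0, 1) 0) - (kof ξ (0, 0) 1 + kof η (0, 0) 1) =
        (kof ξ (0, 0) 0 + kof ξ (1, 0) 1 - kof ξ (0, 1) 0 - kof ξ (0, 0) 1) +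
        (kof η (0, 0) 0 + kof η (1, 0) 1 - kof η (0, 1) 0 - kof η (0, 0) 1) := by abel
    rw [e, sq_add]
  unfold QB QP
  simp only [t1, t2, t3, t4, Finset.sum_add_distrib, ← Finset.mul_sum]
  ring

/-- the Hessian is the bilinear form -/
theorem hess_QP (𝔇 : Dat N l n) (hz : IsPrimitiveRoot 𝔇.z N) {δ : ℝ} (hδ : 0 < δ)
    (hδ₀ : δ ≤ 𝔇.δ₀) (fl : Finset Cn) (ξ η : Dat.II l → Fin n → ℝ) :
    hess (𝔇.HH hδ hδ₀ fl) ξ η = QP 𝔇 𝔇.κ fl ξ η := by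
  have h1 := 𝔇.hess_QB hz hδ hδ₀ fl (ξ + η)
  have h2 := 𝔇.hess_QB hz hδ hδ₀ fl ξ
  have h3 := 𝔇.hess_QB hz hδ hδ₀ fl η
  have h4 := hess_symm (𝔇.HH_cd3 hδ hδ₀ fl) ξ η
  rw [QB_add, map_add, map_add, _root_.add_apply, _root_.add_apply, ← h4, h2, h3] at h1
  linarith

end bil

/-! ### the lowest mode -/

section wave

variable [NeZero N] [NeZero l]

/-- the components of the vector `UV` -/
def uF (u : Tor l × Fin 2 → Fin n → ℝ) (y : Tor l) : Fin 4 → Fin n → ℝ :=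
  Fin.addCases (m := 2) (n := 2) (motive := fun _ => Fin n → ℝ) (fun _ => 0) (fun i => u (y, i))

/-- the vector with the torus components `u` and vanishing plane components -/
def UV (u : Tor l × Fin 2 → Fin n → ℝ) : EV l n :=
  WithLp.toLp 2 fun p => uF u p.1.1 p.1.2 p.2

lemma UV_nat (u : Tor l × Fin 2 → Fin n → ℝ) (y : Tor l) (i : Fin 2) (a : Fin n) :
    UV u ((y, Fin.natAdd 2 i), a) = u (y, i) a := by
  show uF u y (Fin.natAdd 2 i) a = _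
  unfold uF
  rw [Fin.addCases_right]

lemma UV_cast (u : Tor l × Fin 2 → Fin n → ℝ) (y : Tor l) (k : Fin 2) (a : Fin n) :
    UV u ((y, Fin.castAdd 2 k), a) = 0 := by
  show uF u y (Fin.castAdd 2 k) a = _
  unfold uF
  rw [Fin.addCases_left]
  rfl

/-- the torus components of a vector -/
def tor (v : EV l n) : Tor l × Fin 2 → Fin n → ℝ := fun e a => v ((e.1, Fin.natAdd 2 e.2), a)

lemma sum_UV (u : Tor l × Fin 2 → Fin n → ℝ) (v : EV l n) :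
    ∑ p, UV u p * v p = in2 u (tor v) := by
  unfold in2
  rw [Fintype.sum_prod_type, Fintype.sum_prod_type]
  have h : ∀ y : Tor l, ∑ i : Fin 4, ∑ a, UV u ((y, i), a) * v ((y, i), a) =
      ∑ i : Fin 2, ∑ a, u (y, i) a * tor v (y, i) a := by
    intro y
    have h4 : ∀ f : Fin 4 → ℝ, ∑ i, f i = ∑ i : Fin 2, f (Fin.castAdd 2 i) +
        ∑ i : Fin 2, f (Fin.natAdd 2 i) := fun f => Fin.sum_univ_add (a := 2) (b := 2) f
    rw [h4]
    have e0 : ∀ k : Fin 2, ∑ a, UV u ((y, Fin.castAdd 2 k), a) * v ((y, Fin.castAdd 2 k), a) = 0 :=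
      fun k => Finset.sum_eq_zero fun a _ => by rw [UV_cast, zero_mul]
    simp only [e0, Finset.sum_const_zero, zero_add]
    refine Finset.sum_congr rfl fun i _ => Finset.sum_congr rfl fun a _ => ?_
    rw [UV_nat]
    rfl
  simp only [h]
  exact (Fintype.sum_prod_type (fun e : Tor l × Fin 2 => ∑ a, u e a * tor v e a)).symm

variable (𝔇 : Dat N l n)

lemma aof_xw {fl : Finset Cn} {t : Pl} (φ : Pl → EV l n) {j : Cn} (hj : j ∈ fl) :
    aof (Dat.xw fl t φ) j = tor (φ (t + off j)) := by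
  funext e a
  show Dat.xw fl t φ (j, (e.1, Fin.natAdd 2 e.2)) a = _
  rw [Dat.xw_apply, if_pos hj]
  rfl

lemma aof_w {fl : Finset Cn} {t : Pl} (s : Pl → ℝ) (u : Tor l × Fin 2 → Fin n → ℝ) {j : Cn}
    (hj : j ∈ fl) : aof (Dat.xw fl t fun x => s x • UV u) j = s (t + off j) • u := by
  rw [aof_xw _ hj]
  funext e a
  show s (t + off j) * UV u ((e.1, Fin.natAdd 2 e.2), a) = s (t + off j) * u e a
  rw [UV_nat]

lemma kof_w {fl : Finset Cn} {t : Pl} (s : Pl → ℝ) (u : Tor l × Fin 2 → Fin n → ℝ) (j : Cn)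
    (k : Fin 2) : kof (Dat.xw fl t fun x => s x • UV u) j k = 0 := by
  funext y a
  show Dat.xw fl t (fun x => s x • UV u) (j, (y, Fin.castAdd 2 k)) a = 0
  rw [Dat.xw_apply]
  split_ifs
  · show s (t + off j) * UV u ((y, Fin.castAdd 2 k), a) = 0
    rw [UV_cast, mul_zero]
  · rfl

variable {u : Tor l × Fin 2 → Fin n → ℝ} (hJ : Jst 𝔇.B 𝔇.φ₀ u = 0) (hP : 𝔇.P u = 0)
  (hM : ∀ al : Tor l × Fin 2 → Fin n → ℝ,
    in2 (J1c 𝔇.B 𝔇.φ₀ u) (J1c 𝔇.B 𝔇.φ₀ al) = M2 N l * in2 u al)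

include hJ hP hM in
/-- the bilinear form of a block at the lowest mode -/
lemma QP_w (κ : ℝ) (fl : Finset Cn) (t : Pl) (φ : Pl → EV l n) (s : Pl → ℝ) :
    QP 𝔇 κ fl (Dat.xw fl t φ) (Dat.xw fl t fun x => s x • UV u) =
      1 / 4 * (∑ j : Cn, if j ∈ fl then
        M2 N l * (s (t + off j) * in2 u (tor (φ (t + off j)))) else 0) +
      1 / 2 * (∑ b : Fin 2, if (0, b) ∈ fl ∧ (1, b) ∈ fl then
        (s (t + off (1, b)) - s (t + off (0, b))) *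
          (in2 u (tor (φ (t + off (1, b)))) - in2 u (tor (φ (t + off (0, b))))) else 0) +
      1 / 2 * (∑ a : Fin 2, if (a, 0) ∈ fl ∧ (a, 1) ∈ fl then
        (s (t + off (a, 1)) - s (t + off (a, 0))) *
          (in2 u (tor (φ (t + off (a, 1)))) - in2 u (tor (φ (t + off (a, 0))))) else 0) := by
  have hz0 : ∀ v : Tor l → Fin n → ℝ, in2 v 0 = 0 := by
    intro v
    unfold in2
    exact Finset.sum_eq_zero fun y _ => Finset.sum_eq_zero fun a _ => by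
      rw [Pi.zero_apply, Pi.zero_apply, mul_zero]
  have hJl : ∀ om : Tor l → Fin n → ℝ, in2 (Jl 𝔇.B sE tE 𝔇.φ₀ om) u = 0 := by
    intro om
    have h := Jst_adj 𝔇.B 𝔇.φ₀ om u
    rw [hJ] at h
    unfold in2
    rw [h]
    exact Finset.sum_eq_zero fun y _ => Finset.sum_eq_zero fun a _ => by
      rw [Pi.zero_apply, Pi.zero_apply, mul_zero]
  have t1 : ∀ j : Cn, (if j ∈ fl then
      in2 (J1c 𝔇.B 𝔇.φ₀ (aof (Dat.xw fl t φ) j))
        (J1c 𝔇.B 𝔇.φ₀ (aof (Dat.xw fl t fun x => s x • UV u) j)) +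
      2 * κ * in2 (𝔇.P (aof (Dat.xw fl t φ) j))
        (𝔇.P (aof (Dat.xw fl t fun x => s x • UV u) j)) else 0) =
      if j ∈ fl then M2 N l * (s (t + off j) * in2 u (tor (φ (t + off j)))) else 0 := by
    intro j
    by_cases hj : j ∈ fl
    · rw [if_pos hj, if_pos hj, aof_w s u hj, aof_xw φ hj, map_smul, hP, smul_zero, hz0, mul_zero,
        add_zero]
      have e1 : J1c 𝔇.B 𝔇.φ₀ (s (t + off j) • u) = s (t + off j) • J1c 𝔇.B 𝔇.φ₀ u :=
        map_smul (J1L 𝔇.B 𝔇.φ₀) _ _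
      rw [e1, in2_comm, in2_smul_l, hM]
      ring
    · rw [if_neg hj, if_neg hj]
  have t2 : ∀ (i j : Cn) (k : Fin 2), (if i ∈ fl ∧ j ∈ fl then
      in2 (Jl 𝔇.B sE tE 𝔇.φ₀ (kof (Dat.xw fl t φ) i k) + aof (Dat.xw fl t φ) j -
        aof (Dat.xw fl t φ) i)
      (Jl 𝔇.B sE tE 𝔇.φ₀ (kof (Dat.xw fl t fun x => s x • UV u) i k) +
        aof (Dat.xw fl t fun x => s x • UV u) j -
        aof (Dat.xw fl t fun x => s x • UV u) i) else 0) =
      if i ∈ fl ∧ j ∈ fl then (s (t + off j) - s (t + off i)) *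
        (in2 u (tor (φ (t + off j))) - in2 u (tor (φ (t + off i)))) else 0 := by
    intro i j k
    by_cases hij : i ∈ fl ∧ j ∈ fl
    · obtain ⟨hi, hj⟩ := hij
      rw [if_pos ⟨hi, hj⟩, if_pos ⟨hi, hj⟩, aof_w s u hi, aof_w s u hj, aof_xw φ hi, aof_xw φ hj,
        kof_w, map_zero, zero_add, ← sub_smul, in2_comm, in2_smul_l, in2_sub_r, in2_add_r,
        in2_comm u (Jl 𝔇.B sE tE 𝔇.φ₀ _), hJl, zero_add]
    · rw [if_neg hij, if_neg hij]
  unfold QP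
  simp only [t1, t2]
  simp only [kof_w, add_zero, sub_zero, hz0, mul_zero, ite_self]

include hJ hP hM in
/-- **The wave equation of the lowest mode.** -/
theorem wave (hz : IsPrimitiveRoot 𝔇.z N) {δ : ℝ} (hδ : 0 < δ) (hδ₀ : δ ≤ 𝔇.δ₀) (a b : Pl)
    {s : Pl → ℝ} (hs : ∀ x, s x ≠ 0 → x ∈ Finset.Icc a b ∧
      (∀ k : Fin 2, x + uP k ∈ Finset.Icc a b) ∧ ∀ k : Fin 2, x - uP k ∈ Finset.Icc a b)
    (φ : Pl → EV l n) :
    ∑ t ∈ Dat.TT a b, 𝔇.bS hδ hδ₀ (Finset.Icc a b) t φ (fun x => s x • UV u) =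
      ∑ x ∈ Finset.Icc a b, ((4 + M2 N l) * s x - s (x + uP 0) - s (x - uP 0) - s (x + uP 1) -
        s (x - uP 1)) * ∑ p, UV u p * φ x p := by
  obtain ⟨Λ, hΛ⟩ : ∃ Λ, Λ = Finset.Icc a b := ⟨_, rfl⟩
  obtain ⟨f, hf⟩ : ∃ f : Pl → ℝ, f = fun x => in2 u (tor (φ x)) := ⟨_, rfl⟩
  have hff : ∀ x, in2 u (tor (φ x)) = f x := fun x => by rw [hf]
  have hmem : ∀ (t : Pl) (j : Cn), (j ∈ Dat.flg Λ t) ↔ t + off j ∈ Λ := by
    intro t j
    unfold Dat.flg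
    rw [Finset.mem_filter]
    exact ⟨fun h => h.2, fun h => ⟨Finset.mem_univ _, h⟩⟩
  have hb : ∀ t, 𝔇.bS hδ hδ₀ Λ t φ (fun x => s x • UV u) =
      1 / 4 * (∑ j : Cn, if t + off j ∈ Λ then
        M2 N l * (s (t + off j) * f (t + off j)) else 0) +
      1 / 2 * (∑ b : Fin 2, if t + off (0, b) ∈ Λ ∧ t + off (1, b) ∈ Λ then
        (s (t + off (1, b)) - s (t + off (0, b))) *
          (f (t + off (1, b)) - f (t + off (0, b))) else 0) +
      1 / 2 * (∑ a : Fin 2, if t + off (a, 0) ∈ Λ ∧ t + off (a, 1) ∈ Λ then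
        (s (t + off (a, 1)) - s (t + off (a, 0))) *
          (f (t + off (a, 1)) - f (t + off (a, 0))) else 0) := by
    intro t
    unfold Dat.bS Dat.hs
    rw [hess_QP 𝔇 hz, QP_w 𝔇 hJ hP hM]
    simp only [hmem, hff]
  rw [← hΛ]
  simp only [hb, Finset.sum_add_distrib, ← Finset.mul_sum]
  have hs0 : ∀ k : Fin 2, ∀ x, s x ≠ 0 → x ∈ Λ ∧ x + uP k ∈ Λ ∧ x - uP k ∈ Λ := by
    intro k x hx
    rw [hΛ]
    exact ⟨(hs x hx).1, (hs x hx).2.1 k, (hs x hx).2.2 k⟩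
  have r1 : ∑ t ∈ Dat.TT a b, ∑ j : Cn, (if t + off j ∈ Λ then
      M2 N l * (s (t + off j) * f (t + off j)) else 0) =
      4 * ∑ x ∈ Λ, M2 N l * (s x * f x) := by
    rw [Finset.sum_comm]
    have h : ∀ j : Cn, ∑ t ∈ Dat.TT a b, (if t + off j ∈ Λ then
        M2 N l * (s (t + off j) * f (t + off j)) else 0) = ∑ x ∈ Λ, M2 N l * (s x * f x) := by
      intro j
      rw [hΛ]
      exact sum_blk a b j fun x => M2 N l * (s x * f x)
    simp only [h, Finset.sum_const, Finset.card_univ, Fintype.card_prod, Fintype.card_fin,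
      nsmul_eq_mul]
    norm_num
  have r2 : ∀ (k : Fin 2) (i j : Fin 2 → Cn), (∀ b, off (j b) = off (i b) + uP k) →
      ∑ t ∈ Dat.TT a b, ∑ b : Fin 2, (if t + off (i b) ∈ Λ ∧ t + off (j b) ∈ Λ then
        (s (t + off (j b)) - s (t + off (i b))) * (f (t + off (j b)) - f (t + off (i b))) else 0) =
      2 * ∑ x ∈ Λ, (2 * s x - s (x + uP k) - s (x - uP k)) * f x := by
    intro k i j hij
    rw [Finset.sum_comm, ← sum_parts (uP k) (hs0 k) f]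
    have h : ∀ c : Fin 2, ∑ t ∈ Dat.TT a b, (if t + off (i c) ∈ Λ ∧ t + off (j c) ∈ Λ then
        (s (t + off (j c)) - s (t + off (i c))) * (f (t + off (j c)) - f (t + off (i c))) else 0) =
        ∑ x ∈ Λ, (if x + uP k ∈ Λ then (s (x + uP k) - s x) * (f (x + uP k) - f x) else 0) := by
      intro c
      have h2 := sum_blk a b (i c) fun x =>
        (if x + uP k ∈ Λ then (s (x + uP k) - s x) * (f (x + uP k) - f x) else 0)
      rw [← hΛ] at h2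
      rw [← h2]
      refine Finset.sum_congr rfl fun t _ => ?_
      rw [hij, ← add_assoc, ite_and]
    simp only [h, Finset.sum_const, Finset.card_univ, Fintype.card_fin, nsmul_eq_mul]
    norm_num
  rw [r1, r2 0 (fun b => (0, b)) (fun b => (1, b)) (fun b => by
      fin_cases b <;> rfl),
    r2 1 (fun a => (a, 0)) (fun a => (a, 1)) (fun b => by
      fin_cases b <;> rfl)]
  have r3 : ∀ x, ∑ p, UV u p * φ x p = f x := fun x => by rw [sum_UV, hf]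
  simp only [r3]
  rw [Finset.mul_sum, Finset.mul_sum, Finset.mul_sum, Finset.mul_sum, Finset.mul_sum,
    Finset.mul_sum, ← Finset.sum_add_distrib, ← Finset.sum_add_distrib]
  refine Finset.sum_congr rfl fun x _ => ?_
  ring

end wave

end

end Pool.Agent.N984.TW
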